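import Pool.Agent.Helper26K9.XI.Root

/-!
# The criterion in terms of residue symbols, and finite families
-/

set_option autoImplicit false
set_option linter.unusedSectionVars false
set_option linter.unusedVariables false

open Filter IsDedekindDomain

namespace Pool.Agent.Helper26K9.XI

open H667R3 Pool.Agent.TH936.CW Pool.Agent.Y690.NV Pool.Agent.Y690.AW Pool.Agent.W192.HK
open Pool.Agent.TH936.CM (IsLat out_sub)
open Pool.Agent.Helper26K9.XO (qs_symm norm_prod card_prod ch_odd zn)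
open Complex (I)

variable {R : Subring ℂ} (hR : ∀ z : ℂ, z ∈ R ↔ ∃ x y : ℤ, z = x + y * I)

open Classical in
/-- an admissible set of primes -/
def AdmI (S : Finset R) : Prop :=
  (∀ p ∈ S, Prime p ∧ Pri p) ∧ (Mx zn aa S).det = 1

include hR in
lemma ch_four_ne {S : Finset R} (hQ : ∀ p ∈ S, QC p) : ch S 4 ≠ 0 := by
  unfold ch
  refine Finset.prod_ne_zero_iff.mpr fun p hp => ?_
  rw [Ne, (hQ p hp).zero]
  intro h
  obtain ⟨a, b, hab⟩ := cop_four_pri hR (hQ p hp).od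
  apply (hQ p hp).max.ne_top
  rw [Ideal.eq_top_iff_one, ← hab]
  exact (sp p).add_mem ((sp p).mul_mem_left a (Ideal.mem_span_singleton_self p))
    ((sp p).mul_mem_left b h)

include hR in
open Classical in
/-- the nonvanishing of the character sums -/
theorem sum_all (hbasic : H_BASIC) (hfp : H_FP) (hcnt : H_CNT) (hdec : H_DEC) (hafe : H_AFE)
    {L : PeriodPair} {q Ω : ℂ} (hL : IsLat L R Ω) (hCM : H667R3.CM L) (g2 : L.g₂ = -1)
    (hq : ∀ l ∈ L.lattice, eta L l = 0 * l + q * (starRingEnd ℂ) l)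
    (hT : TP L q 1 (Ω / (2 + 2 * I))) {S : Finset R} (hS : AdmI S) (hd : Dst S) (e : ℕ)
    (he : Even e ∨ ∑ p ∈ S, zn p = 1) :
    Ts (fun D r : R => Dx L q Ω 1 e D r) (dd S) (fun r => ((ch S r : ℤ) : ℂ)) ≠ 0 := by
  have hQ : ∀ p ∈ S, QC p := fun p hp => mkQC hR hbasic (hS.1 p hp).1 (hS.1 p hp).2
  rcases Nat.even_or_odd' e with ⟨k, rfl | rfl⟩
  · exact sum_even hR hL hCM g2 hq hT hbasic k hQ hd hS.2
  · have hz : ∑ p ∈ S, zn p = 1 := by
      rcases he with h | h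
      · exfalso
        rw [← Nat.not_odd_iff_even] at h
        exact h ⟨k, rfl⟩
      · exact h
    refine sum_odd hR hL hCM g2 hq hT hbasic k hQ hd (fun p hp l hl _ => ?_) hS.2 hz
      (Df_zero hR hbasic hfp hcnt hdec hafe hL hCM hq k)
    unfold aa
    rw [qs_symm hR (hS.1 p hp) (hS.1 l hl)]

open Classical in
theorem tI_main (hbasic : H_BASIC) (hfp : H_FP) (hcnt : H_CNT) (hdec : H_DEC) (hafe : H_AFE)
    {S : Finset R} (hS : AdmI S) (hd : Dst S) (e : ℕ) (he : Even e ∨ ∑ p ∈ S, zn p = 1) :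
    NVan e (tI hR (2 * e + 1) S) := by
  obtain ⟨L, Ω, q, hL, hCM, g2, hq, hT⟩ := exists_base (qr hR)
  have hQ : ∀ p ∈ S, QC p := fun p hp => mkQC hR hbasic (hS.1 p hp).1 (hS.1 p hp).2
  exact nonvanI hR hbasic hfp hcnt hdec hafe hL hCM hq (dd_od hR hQ)
    (hc_tI hR hbasic (2 * e + 1) S hS.1 hd) (χ := fun r => ch S r)
    (fun r hr => tI_gen hR _ S hr) (fun r s h => ch_per hQ h) (fun r s => ch_mul hQ r s)
    (ch_four_ne hR hQ) (sum_all hR hbasic hfp hcnt hdec hafe hL hCM g2 hq hT hS hd e he)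

/-- relation of the two descriptions -/
lemma tI_rel (hbasic : H_BASIC) {S : Finset R} {a b : ℕ}
    (hab : b ≤ a) (hodd : Odd (a + b)) (J : Ideal R) :
    tI hR 1 S J ^ a * (starRingEnd ℂ) (tI hR 1 S J) ^ b =
      tI hR (a - b) S J * (nm J : ℂ) ^ b := by
  by_cases hJ : ∃ α : R, α - 1 ∈ sp (ff hR) ∧ J = sp α
  · obtain ⟨α, hα, rfl⟩ := hJ
    obtain ⟨b1, b2, b3, b4, b5, b6, b7, -⟩ := hbasic R I (qr hR)
    rw [tI_gen hR 1 S hα, tI_gen hR _ S hα, b5, ← Complex.mul_conj, pow_one,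
      map_mul, map_mul, map_intCast, kI_conj, mul_pow, mul_pow, mul_pow, mul_pow, mul_pow (α : ℂ)]
    have h1 : ((ch S α : ℤ) : ℂ) ^ a * ((ch S α : ℤ) : ℂ) ^ b = ((ch S α : ℤ) : ℂ) := by
      rw [← pow_add, ← Int.cast_pow, ch_odd S α hodd]
    have h3 : kI α ^ a * kI α ^ b = kI α := by
      rw [← pow_add]
      obtain ⟨c, hc⟩ := hodd
      rw [hc, pow_succ, pow_mul, pow_two, kI_sq, one_pow, one_mul]
    have h2 : (α : ℂ) ^ a = (α : ℂ) ^ (a - b) * (α : ℂ) ^ b := by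
      rw [← pow_add, Nat.sub_add_cancel hab]
    rw [h2]
    linear_combination (kI α ^ a * kI α ^ b * (α : ℂ) ^ (a - b) * (α : ℂ) ^ b *
      (starRingEnd ℂ) (α : ℂ) ^ b) * h1 + (((ch S α : ℤ) : ℂ) * (α : ℂ) ^ (a - b) *
      (α : ℂ) ^ b * (starRingEnd ℂ) (α : ℂ) ^ b) * h3
  · rw [tI_zero hR S 1 hJ, tI_zero hR S _ hJ, zero_mul]
    have ha : a ≠ 0 := by
      rintro rfl
      have : b = 0 := by omega
      subst this
      simp at hodd
    rw [zero_pow ha, zero_mul]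

open Classical in
/-- the condition on the exponents -/
def CI (S : Finset R) (a b : ℕ) : Prop := ((a : ℤ) - b).natAbs % 4 = 1 ∨ ∑ p ∈ S, zn p = 1

theorem singleI (hbasic : H_BASIC) (hfp : H_FP) (hcnt : H_CNT) (hdec : H_DEC) (hafe : H_AFE)
    {S : Finset R} (hS : AdmI S) (k a b : ℕ)
    (h1 : a + b = 2 * k - 1) (hk : 1 ≤ k) (hCI : CI S a b) : Sg1 (tI hR 1 S) k a b := by
  have key : ∀ a b e : ℕ, a + b = 2 * k - 1 → a = b + (2 * e + 1) →
      (Even e ∨ ∑ p ∈ S, zn p = 1) → Sg1 (tI hR 1 S) k a b := by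
    intro a b e h1 h2 he
    obtain ⟨F, hF1, hF2, hF3⟩ := tI_main hR hbasic hfp hcnt hdec hafe hS (dst_of hR hS.1) e he
    have hHC := hc_tI hR hbasic (2 * e + 1) S hS.1 (dst_of hR hS.1)
    have hke : k = e + 1 + b := by omega
    have hodd : Odd (a + b) := ⟨k - 1, by omega⟩
    have hab : a - b = 2 * e + 1 := by omega
    obtain ⟨b1, b2, b3, b4, b5, b6, b7, -⟩ := hbasic R I (qr hR)
    have hbot : tI hR (2 * e + 1) S ⊥ = 0 := (hHC.zero ⊥).2 (Or.inl rfl)
    refine ⟨fun s => F (s - b), by fun_prop, fun s hs => ?_, ?_⟩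
    · have hz' : ((e + 1 : ℕ) : ℝ) + 1 / 2 < (s - b).re := by
        rw [Complex.sub_re, Complex.natCast_re]
        rw [hke] at hs
        push_cast at hs ⊢
        linarith
      have h6 : (fun J : Ideal R => tI hR 1 S J ^ a * (starRingEnd ℂ) (tI hR 1 S J) ^ b *
          (nm J : ℂ) ^ (-s)) = fun J : Ideal R => tI hR (2 * e + 1) S J *
          (nm J : ℂ) ^ (-(s - b)) := by
        funext J
        rw [tI_rel hR hbasic (by omega) hodd, hab]
        by_cases hI : J = ⊥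
        · rw [hI, hbot, zero_mul, zero_mul, zero_mul]
        · have h7 : (nm J : ℂ) ≠ 0 := by
            have h8 := b3 J hI
            have : nm J ≠ 0 := by linarith
            exact_mod_cast this
          have h8 : (nm J : ℂ) ^ (-(s - b)) = (nm J : ℂ) ^ (-s) * (nm J : ℂ) ^ b := by
            rw [show -(s - (b : ℂ)) = -s + b by ring, Complex.cpow_add _ _ h7,
              Complex.cpow_natCast]
          rw [h8]
          ring
      rw [h6]
      exact hF2 (s - b) hz'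
    · have h7 : (k : ℂ) - b = ((e + 1 : ℕ) : ℂ) := by
        rw [hke]
        push_cast
        ring
      simp only
      rw [h7]
      exact hF3
  have hpar : ∀ e : ℕ, (((2 * e + 1 : ℕ) : ℤ)).natAbs % 4 = 1 → Even e := by
    intro e h
    rw [Int.natAbs_natCast] at h
    exact ⟨e / 2, by omega⟩
  rcases lt_or_ge b a with h2 | h2
  · obtain ⟨e, he⟩ : ∃ e, a = b + (2 * e + 1) := ⟨(a - b - 1) / 2, by omega⟩
    refine key a b e h1 he ?_
    rcases hCI with h | h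
    · left
      refine hpar e ?_
      have : ((2 * e + 1 : ℕ) : ℤ) = (a : ℤ) - b := by rw [he]; push_cast; ring
      rw [this]
      exact h
    · exact Or.inr h
  · obtain ⟨e, he⟩ : ∃ e, b = a + (2 * e + 1) := ⟨(b - a - 1) / 2, by omega⟩
    refine (key b a e (by omega) he ?_).swap
    rcases hCI with h | h
    · left
      refine hpar e ?_
      have : ((2 * e + 1 : ℕ) : ℤ) = -((a : ℤ) - b) := by rw [he]; push_cast; ring
      rw [this, Int.natAbs_neg]
      exact h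
    · exact Or.inr h

/-- **Finite direct sums.** -/
theorem familyI (hbasic : H_BASIC) (hfp : H_FP) (hcnt : H_CNT) (hdec : H_DEC) (hafe : H_AFE)
    (n : ℕ) {S : Fin n → Finset R} (hS : ∀ i, AdmI (S i)) (k : ℕ) (hk : 1 ≤ k)
    (a b : Fin n → ℕ) (hab : ∀ i, a i + b i = 2 * k - 1) (hCI : ∀ i, CI (S i) (a i) (b i)) :
    ∃ L : ℂ → ℂ, Differentiable ℂ L ∧
      (∀ s : ℂ, (k : ℝ) + 1 / 2 < s.re → HasProd (fun v : HeightOneSpectrum R =>
        ∏ i, (1 - tI hR 1 (S i) v.asIdeal ^ a i * (starRingEnd ℂ) (tI hR 1 (S i) v.asIdeal) ^ b i *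
          (nm v.asIdeal : ℂ) ^ (-s))⁻¹) (L s)) ∧
      L (k : ℂ) ≠ 0 := by
  have h1 : ∀ i, Sg1 (tI hR 1 (S i)) k (a i) (b i) := fun i =>
    singleI hR hbasic hfp hcnt hdec hafe (hS i) k (a i) (b i) (hab i) hk (hCI i)
  choose F hF1 hF2 hF3 using h1
  have hHC := fun i => hc_tI hR hbasic 1 (S i) (hS i).1 (dst_of hR (hS i).1)
  have hbot : ∀ i, tI hR 1 (S i) ⊥ = 0 := fun i => ((hHC i).zero ⊥).2 (Or.inl rfl)
  have htop : ∀ i, tI hR 1 (S i) ⊤ = 1 := by
    intro i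
    have h3 := (hHC i).princ 1 one_ne_zero (by
      rw [sub_self]; exact (sp (4 * dd (S i))).zero_mem)
    rwa [sp, Ideal.span_singleton_one, Subring.coe_one, one_pow] at h3
  refine ⟨fun s => ∏ i, F i s, ?_, fun s hs => ?_, ?_⟩
  · exact Differentiable.fun_finsetProd fun i _ => hF1 i
  · refine hasProd_prod fun i _ => ?_
    refine euler_one hbasic (qr hR) (hbot i) (htop i) (hHC i).mul ?_ s _ (hF2 i s hs)
    have := hab i
    omega
  · exact Finset.prod_ne_zero_iff.mpr fun i _ => hF3 i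

/-! ### the criterion -/

open Classical in
lemma sI_zn {p : R} (h : sI p = -1) : zn p = 1 := by
  unfold sI at h
  unfold Pool.Agent.Helper26K9.XO.zn
  split_ifs at h ⊢ with h1
  rfl

open Classical in
lemma sI_zn' {p : R} (h : sI p = 1) : zn p = 0 := by
  unfold sI at h
  unfold Pool.Agent.Helper26K9.XO.zn
  split_ifs at h ⊢ with h1
  rfl

open Classical in
/-- the product of the symbols in additive form -/
lemma sum_of_prod {S T : Finset R} (hT : T ⊆ S) {p : R} (hp : p ∈ S) (hpT : p ∉ T) (hd : Dst S)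
    (hQ : ∀ p ∈ S, QC p) : (∏ l ∈ T, qs l p = -1 ∧ ∑ l ∈ T, aa p l = 1) ∨
    (∏ l ∈ T, qs l p = 1 ∧ ∑ l ∈ T, aa p l = 0) := by
  have h2 := prod_sign T (fun l => qs l p) (fun l hl =>
    (hQ l (hT hl)).pm p (hd p hp l (hT hl) fun hpl => hpT (hpl ▸ hl)))
  have e : ∑ l ∈ T, aa p l = ∑ l ∈ T, (if qs l p = -1 then (1 : ZMod 2) else 0) := by
    refine Finset.sum_congr rfl fun l _ => ?_
    unfold aa
    split_ifs <;> rfl
  rw [← e] at h2
  by_cases h3 : ∑ l ∈ T, aa p l = 1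
  · left
    rw [h2]
    exact ⟨by rw [if_pos h3], h3⟩
  · right
    have key : ∀ y : ZMod 2, y ≠ 1 → y = 0 := by decide
    rw [h2]
    exact ⟨by rw [if_neg h3], key _ h3⟩

include hR in
open Classical in
/-- the criterion in terms of symbols -/
theorem admI_of (hbasic : H_BASIC) {S : Finset R} (hS : ∀ p ∈ S, Prime p ∧ Pri p)
    (h : ∀ V ⊆ S, V.Nonempty → (∃ p ∈ V, sI p * ∏ l ∈ S \ V, qs l p = -1) ∨
      (∃ p ∈ S \ V, ∏ l ∈ V, qs l p = -1)) : AdmI S := by
  have hd := dst_of hR hS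
  have hQ : ∀ p ∈ S, QC p := fun p hp => mkQC hR hbasic (hS p hp).1 (hS p hp).2
  refine ⟨hS, det_one _ _ fun V hV hne => ?_⟩
  rcases h V hV hne with ⟨p, hp, h1⟩ | ⟨p, hp, h1⟩
  · left
    refine ⟨p, hp, ?_⟩
    rcases sum_of_prod Finset.sdiff_subset (hV hp) (fun h2 =>
          (Finset.mem_sdiff.mp h2).2 hp) hd hQ with ⟨h3, h4⟩ | ⟨h3, h4⟩
    · rw [h3] at h1
      have h5 : sI p = 1 := by linarith
      rw [sI_zn' h5, h4, zero_add]
    · rw [h3, mul_one] at h1
      rw [sI_zn h1, h4, add_zero]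
  · right
    rw [Finset.mem_sdiff] at hp
    refine ⟨p, Finset.mem_sdiff.mpr hp, ?_⟩
    rcases sum_of_prod hV hp.1 hp.2 hd hQ with ⟨h3, h4⟩ | ⟨h3, h4⟩
    · exact h4
    · rw [h3] at h1
      norm_num at h1

include hR in
open Classical in
lemma CI_of (hbasic : H_BASIC) {S : Finset R} (hS : ∀ p ∈ S, Pri p) {a b : ℕ}
    (h : ((a : ℤ) - b).natAbs % 4 = 1 ∨ Nat.card (R ⧸ Ideal.span {∏ p ∈ S, p}) % 8 = 5) :
    CI S a b := by
  rcases h with h | h
  · exact Or.inl h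
  · right
    rw [card_prod hR hbasic] at h
    rcases norm_prod hR hbasic hS with h1 | h1
    · exact h1.2
    · omega

end Pool.Agent.Helper26K9.XI
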