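import Pool.Agent.Y690.X.Heat2

/-!
# The difference of the universal polynomials at a point and its translate by a point of order two
-/

set_option autoImplicit false
set_option linter.unusedSimpArgs false
set_option linter.unusedSectionVars false

namespace Pool.Agent.Helper26K9.XI

open MvPolynomial Pool.Agent.Y690.NV

/-- polynomials in `E`, `s`, `e`, `w` -/
abbrev C4 := MvPolynomial (Fin 4) ℂ

noncomputable def cE : C4 := X 0
noncomputable def cs : C4 := X 1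
noncomputable def ce : C4 := X 2
noncomputable def cw : C4 := X 3
noncomputable def cG : C4 := ce ^ 2 - C (1 / 12) * ((cs ^ 2 - 3 * ce) ^ 2 - cw ^ 2)

/-- the derivation with respect to the modulus -/
noncomputable def dc : Derivation ℂ C4 C4 :=
  mkDerivation ℂ ![-(C (1 / 2) * (cE * (cs ^ 2 - ce) + cs * cw)),
    C (1 / 2) * (cE * cw + cs ^ 3 - 5 * ce * cs), 2 * ce ^ 2 - 4 * cG,
    cE * cs * (cs ^ 2 - 3 * ce) + cw * (cs ^ 2 - 2 * ce)]

lemma dc_E : dc cE = -(C (1 / 2) * (cE * (cs ^ 2 - ce) + cs * cw)) := mkDerivation_X _ _ _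
lemma dc_s : dc cs = C (1 / 2) * (cE * cw + cs ^ 3 - 5 * ce * cs) := mkDerivation_X _ _ _
lemma dc_e : dc ce = 2 * ce ^ 2 - 4 * cG := mkDerivation_X _ _ _
lemma dc_w : dc cw = cE * cs * (cs ^ 2 - 3 * ce) + cw * (cs ^ 2 - 2 * ce) := mkDerivation_X _ _ _

lemma c_ofNat (n : ℕ) [n.AtLeastTwo] : dc (OfNat.ofNat n : C4) = 0 := by
  have h2 : (OfNat.ofNat n : C4) = ((OfNat.ofNat n : ℕ) : C4) := (Nat.cast_ofNat).symm
  rw [h2, Derivation.map_natCast]

lemma c_mul (a b : C4) : dc (a * b) = a * dc b + b * dc a := by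
  rw [Derivation.leibniz, smul_eq_mul, smul_eq_mul]

lemma c_pow (a : C4) (n : ℕ) : dc (a ^ n) = n * a ^ (n - 1) * dc a := by
  rw [Derivation.leibniz_pow, smul_eq_mul, nsmul_eq_mul]
  ring

lemma c_C (a : ℂ) : dc (C a : C4) = 0 := by
  have h := dc.map_algebraMap a
  rwa [algebraMap_eq] at h

lemma dc_G : dc cG = 2 * (ce ^ 3 - 3 * cG * ce) := by
  have h : dc cG = 2 * ce * dc ce - C (1 / 12) * (2 * (cs ^ 2 - 3 * ce) *
      (2 * cs * dc cs - 3 * dc ce) - 2 * cw * dc cw) := by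
    conv_lhs => unfold cG
    rw [map_sub, c_mul, c_C, map_sub, c_pow, c_pow, c_pow, map_sub, c_pow, c_mul, c_ofNat]
    push_cast
    ring
  rw [h, dc_s, dc_e, dc_w]
  refine MvPolynomial.funext fun v => ?_
  simp only [cG, ce, cs, cw, cE, map_add, map_sub, map_mul, map_neg, map_pow, map_one,
    map_ofNat, eval_X, eval_C, map_zero]
  ring

/-- the substitutions -/
noncomputable def gs (σ : ℂ) : U →ₐ[ℂ] C4 := aeval
  ![C (1 / 2) * (cE - C σ * cs), ce + C (1 / 2) * (cs ^ 2 - 3 * ce + C σ * cw),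
    C σ * cs * (C (1 / 2) * (cs ^ 2 - 3 * ce + C σ * cw)), cG]

lemma gs_E (σ : ℂ) : gs σ vE = C (1 / 2) * (cE - C σ * cs) := by unfold gs vE; rw [aeval_X]; rfl
lemma gs_X (σ : ℂ) : gs σ vX = ce + C (1 / 2) * (cs ^ 2 - 3 * ce + C σ * cw) := by
  unfold gs vX; rw [aeval_X]; rfl
lemma gs_Y (σ : ℂ) : gs σ vY = C σ * cs * (C (1 / 2) * (cs ^ 2 - 3 * ce + C σ * cw)) := by
  unfold gs vY; rw [aeval_X]; rfl
lemma gs_G (σ : ℂ) : gs σ vG = cG := by unfold gs vG; rw [aeval_X]; rfl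

/-- compatibility is checked on the variables -/
lemma compatC {F : U →ₐ[ℂ] C4} (hE : dc (F vE) = F (dt vE)) (hX : dc (F vX) = F (dt vX))
    (hY : dc (F vY) = F (dt vY)) (hG : dc (F vG) = F (dt vG)) (u : U) :
    dc (F u) = F (dt u) := by
  induction u using MvPolynomial.induction_on with
  | C a =>
    have h1 : dt (C a) = 0 := by
      have h := dt.map_algebraMap a
      rwa [algebraMap_eq] at h
    have h2 : F (C a) = algebraMap ℂ C4 a := by
      rw [← algebraMap_eq, AlgHom.commutes]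
    rw [h1, h2, dc.map_algebraMap, map_zero]
  | add p q hp hq => rw [map_add, map_add, map_add, map_add, hp, hq]
  | mul_X p i hp =>
    have hi : dc (F (X i)) = F (dt (X i)) := by
      fin_cases i
      · exact hE
      · exact hX
      · exact hY
      · exact hG
    rw [D_mul, map_mul, c_mul, map_add, map_mul, map_mul, hp, hi]

lemma gE {σ : ℂ} (h : σ = 1 ∨ σ = -1) : dc (gs σ vE) = gs σ (dt vE) := by
  have h1 : dc (gs σ vE) = C (1 / 2) * (dc cE - C σ * dc cs) := by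
    rw [gs_E]
    simp only [c_mul, c_C, map_sub]
    ring
  rw [h1, dc_E, dc_s, dt_E, map_neg, map_add, map_mul, gs_E, gs_X, gs_Y]
  refine MvPolynomial.funext fun v => ?_
  rcases h with rfl | rfl <;>
  · simp only [cG, ce, cs, cw, cE, map_add, map_sub, map_mul, map_neg, map_pow, map_one,
      map_ofNat, eval_X, eval_C, map_zero]
    ring

lemma gX {σ : ℂ} (h : σ = 1 ∨ σ = -1) : dc (gs σ vX) = gs σ (dt vX) := by
  have h1 : dc (gs σ vX) = dc ce + C (1 / 2) * (2 * cs * dc cs - 3 * dc ce + C σ * dc cw) := by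
    have d3 : dc 3 = 0 := c_ofNat 3
    rw [gs_X]
    simp only [c_mul, c_C, map_sub, map_add, c_pow, d3]
    push_cast
    ring
  rw [h1, dc_e, dc_s, dc_w, dt_X]
  simp only [map_sub, map_add, map_mul, map_pow, map_ofNat, gs_E, gs_X, gs_Y, gs_G]
  refine MvPolynomial.funext fun v => ?_
  rcases h with rfl | rfl <;>
  · simp only [cG, ce, cs, cw, cE, map_add, map_sub, map_mul, map_neg, map_pow, map_one,
      map_ofNat, eval_X, eval_C, map_zero]
    ring

lemma gY {σ : ℂ} (h : σ = 1 ∨ σ = -1) : dc (gs σ vY) = gs σ (dt vY) := by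
  have h1 : dc (gs σ vY) = C σ * dc cs * (C (1 / 2) * (cs ^ 2 - 3 * ce + C σ * cw)) +
      C σ * cs * (C (1 / 2) * (2 * cs * dc cs - 3 * dc ce + C σ * dc cw)) := by
    have d3 : dc 3 = 0 := c_ofNat 3
    rw [gs_Y]
    simp only [c_mul, c_C, map_sub, map_add, c_pow, d3]
    push_cast
    ring
  rw [h1, dc_e, dc_s, dc_w, dt_Y]
  simp only [map_sub, map_add, map_mul, map_pow, map_ofNat, gs_E, gs_X, gs_Y, gs_G]
  refine MvPolynomial.funext fun v => ?_
  rcases h with rfl | rfl <;>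
  · simp only [cG, ce, cs, cw, cE, map_add, map_sub, map_mul, map_neg, map_pow, map_one,
      map_ofNat, eval_X, eval_C, map_zero]
    ring

lemma gG {σ : ℂ} (h : σ = 1 ∨ σ = -1) : dc (gs σ vG) = gs σ (dt vG) := by
  rw [gs_G, dc_G, dt_G]
  unfold vK
  simp only [map_sub, map_add, map_mul, map_pow, map_ofNat, gs_E, gs_X, gs_Y, gs_G]
  refine MvPolynomial.funext fun v => ?_
  rcases h with rfl | rfl <;>
  · simp only [cG, ce, cs, cw, cE, map_add, map_sub, map_mul, map_neg, map_pow, map_one,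
      map_ofNat, eval_X, eval_C, map_zero]
    ring

lemma gs_dt {σ : ℂ} (h : σ = 1 ∨ σ = -1) (u : U) : dc (gs σ u) = gs σ (dt u) :=
  compatC (gE h) (gX h) (gY h) (gG h) u

/-- the difference -/
noncomputable def Jn (n : ℕ) : C4 := gs 1 (Dn n) - gs (-1) (Dn n)

lemma Jn_zero : Jn 0 = -cs := by
  unfold Jn
  rw [Dn_zero, gs_E, gs_E]
  refine MvPolynomial.funext fun v => ?_
  simp only [map_add, map_sub, map_mul, map_neg, map_ofNat, eval_C]
  ring

lemma Jn_one : Jn 1 = dc (Jn 0) := by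
  unfold Jn
  rw [Dn_one, Dn_zero, map_sub, gs_dt (Or.inl rfl), gs_dt (Or.inr rfl)]

lemma Jn_rec (n : ℕ) : Jn (n + 2) = dc (Jn (n + 1)) - (n + 1) ^ 2 * (cG * Jn n) := by
  have key : ∀ σ : ℂ, (σ = 1 ∨ σ = -1) → gs σ (Dn (n + 2)) =
      dc (gs σ (Dn (n + 1))) - (n + 1) ^ 2 * (cG * gs σ (Dn n)) := by
    intro σ h
    rw [Dn_rec, map_sub, gs_dt h]
    simp only [map_add, map_mul, map_pow, map_natCast, map_one, gs_G]
  unfold Jn
  rw [key _ (Or.inl rfl), key _ (Or.inr rfl), map_sub]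
  ring

/-! ### scaling -/

/-- polynomials in `a`, `s`, `f`, `b`, `g` -/
abbrev Z5 := MvPolynomial (Fin 5) ℤ

noncomputable def za : Z5 := X 0
noncomputable def zs : Z5 := X 1
noncomputable def zf : Z5 := X 2
noncomputable def zb : Z5 := X 3
noncomputable def zg : Z5 := X 4

noncomputable def d5 : Derivation ℤ Z5 Z5 :=
  mkDerivation ℤ ![-(za * (zs ^ 2 - 2 * zf) + 2 * (zs * zb)), za * zb + zs ^ 3 - 10 * (zf * zs),
    8 * zf ^ 2 - zg, za * zs * (zs ^ 2 - 6 * zf) + 2 * (zb * (zs ^ 2 - 4 * zf)),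
    128 * zf ^ 3 - 24 * (zg * zf)]

lemma d5_a : d5 za = -(za * (zs ^ 2 - 2 * zf) + 2 * (zs * zb)) := mkDerivation_X _ _ _
lemma d5_s : d5 zs = za * zb + zs ^ 3 - 10 * (zf * zs) := mkDerivation_X _ _ _
lemma d5_f : d5 zf = 8 * zf ^ 2 - zg := mkDerivation_X _ _ _
lemma d5_b : d5 zb = za * zs * (zs ^ 2 - 6 * zf) + 2 * (zb * (zs ^ 2 - 4 * zf)) :=
  mkDerivation_X _ _ _
lemma d5_g : d5 zg = 128 * zf ^ 3 - 24 * (zg * zf) := mkDerivation_X _ _ _

lemma z_mul (a b : Z5) : d5 (a * b) = a * d5 b + b * d5 a := by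
  rw [Derivation.leibniz, smul_eq_mul, smul_eq_mul]

lemma z_pow (a : Z5) (n : ℕ) : d5 (a ^ n) = n * a ^ (n - 1) * d5 a := by
  rw [Derivation.leibniz_pow, smul_eq_mul, nsmul_eq_mul]
  ring

lemma z_ofNat (n : ℕ) [n.AtLeastTwo] : d5 (OfNat.ofNat n : Z5) = 0 := by
  have h2 : (OfNat.ofNat n : Z5) = ((OfNat.ofNat n : ℕ) : Z5) := (Nat.cast_ofNat).symm
  rw [h2, Derivation.map_natCast]

/-- the sequence -/
noncomputable def Hs : ℕ → Z5
  | 0 => -zs
  | 1 => d5 (-zs)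
  | n + 2 => d5 (Hs (n + 1)) - (n + 1) ^ 2 * (zg * Hs n)

lemma Hs_zero : Hs 0 = -zs := by rw [Hs]
lemma Hs_one : Hs 1 = d5 (-zs) := by rw [Hs]
lemma Hs_rec (n : ℕ) : Hs (n + 2) = d5 (Hs (n + 1)) - (n + 1) ^ 2 * (zg * Hs n) := by
  rw [Hs]

/-- the relation -/
noncomputable def zr : Z5 := 3 * zg + zs ^ 4 - 2 * zb ^ 2 - 12 * (zf * zs ^ 2) - 12 * zf ^ 2

/-- the ideal -/
noncomputable def JJ : Ideal Z5 := Ideal.span {2, zr}

lemma mem_JJ {p : Z5} : p ∈ JJ ↔ ∃ a b : Z5, a * 2 + b * zr = p := Ideal.mem_span_pair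

lemma two_mem (x : Z5) : 2 * x ∈ JJ := mem_JJ.mpr ⟨x, 0, by ring⟩

lemma zr_mem (x : Z5) : zr * x ∈ JJ := mem_JJ.mpr ⟨0, x, by ring⟩

lemma d5_zr : ∃ y, d5 zr = 2 * y := by
  refine ⟨3 * (64 * zf ^ 3 - 12 * (zg * zf)) + 2 * zs ^ 3 * d5 zs - 2 * zb * d5 zb -
    6 * (zf * (2 * zs * d5 zs) + zs ^ 2 * d5 zf) - 12 * zf * d5 zf, ?_⟩
  have d2 : d5 2 = 0 := z_ofNat 2
  have d3 : d5 3 = 0 := z_ofNat 3
  have d12 : d5 12 = 0 := z_ofNat 12
  unfold zr
  simp only [map_sub, map_add, z_mul, z_pow, d2, d3, d12, d5_g]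
  push_cast
  ring

lemma d5_mem {p : Z5} (h : p ∈ JJ) : d5 p ∈ JJ := by
  obtain ⟨a, b, rfl⟩ := mem_JJ.mp h
  obtain ⟨y, hy⟩ := d5_zr
  rw [map_add, z_mul, z_mul, z_ofNat, hy]
  exact mem_JJ.mpr ⟨d5 a + b * y, d5 b, by ring⟩

/-- the square of `s a` -/
noncomputable def zq : Z5 := (zs * za) ^ 2

/-- `a b + s ^ 3` -/
noncomputable def zδ : Z5 := za * zb + zs ^ 3

lemma d5_zqk (k : ℕ) : ∃ y, d5 (zq ^ k) = 2 * y := by
  refine ⟨k * zq ^ (k - 1) * (zs * za * d5 (zs * za)), ?_⟩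
  rw [z_pow]
  unfold zq
  rw [z_pow (zs * za) 2]
  push_cast
  ring

lemma d5_δ : d5 zδ = zs ^ 3 * (zs ^ 2 + za ^ 2) + 2 * (-3 * za ^ 2 * zs * zf + 2 * za * zb * zs ^ 2 -
    3 * za * zb * zf - zs * zb ^ 2 + zs ^ 5 - 15 * zf * zs ^ 3) := by
  unfold zδ
  rw [map_add, z_mul, z_pow, d5_a, d5_b, d5_s]
  push_cast
  ring

/-- the joint statement -/
def St (k : ℕ) : Prop :=
  Hs (2 * k + 1) + zq ^ k * zδ ∈ JJ ∧ d5 (Hs (2 * k)) - Hs (2 * k + 1) ∈ JJ ∧
  ∃ u, Hs (2 * k) + zs * zg ^ k - (zs ^ 2 + za ^ 2) * u ∈ JJ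

theorem St_all (k : ℕ) : St k := by
  induction k with
  | zero =>
    refine ⟨?_, ?_, 0, ?_⟩
    · rw [mul_zero, zero_add, Hs_one, map_neg, d5_s, pow_zero]
      refine mem_JJ.mpr ⟨5 * (zf * zs), 0, ?_⟩
      unfold zδ
      ring
    · rw [mul_zero, zero_add, Hs_one, Hs_zero, sub_self]
      exact JJ.zero_mem
    · rw [mul_zero, Hs_zero, pow_zero]
      have : -zs + zs * 1 - (zs ^ 2 + za ^ 2) * 0 = (0 : Z5) := by ring
      rw [this]
      exact JJ.zero_mem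
  | succ k ih =>
    obtain ⟨iA, iB, u, iC⟩ := ih
    obtain ⟨y, hy⟩ := d5_zqk k
    have hn : ((2 * k : ℕ) : Z5) = 2 * k := by push_cast; ring
    have hn' : ((2 * k + 1 : ℕ) : Z5) = 2 * k + 1 := by push_cast; ring
    have e2 : Hs (2 * (k + 1)) = d5 (Hs (2 * k + 1)) - (2 * k + 1) ^ 2 * (zg * Hs (2 * k)) := by
      rw [show 2 * (k + 1) = 2 * k + 2 by ring, Hs_rec, hn]
    have e3 : Hs (2 * (k + 1) + 1) = d5 (Hs (2 * (k + 1))) -
        (2 * k + 1 + 1) ^ 2 * (zg * Hs (2 * k + 1)) := by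
      rw [show 2 * (k + 1) + 1 = (2 * k + 1) + 2 by ring, Hs_rec, hn',
        show 2 * k + 1 + 1 = 2 * (k + 1) by ring]
    -- the even entry
    have g1 : Hs (2 * (k + 1)) + zq ^ k * (zs ^ 3 * (zs ^ 2 + za ^ 2)) + zg * Hs (2 * k) ∈ JJ := by
      have h1 := d5_mem iA
      rw [map_add, z_mul, hy, d5_δ] at h1
      have h2 := JJ.add_mem h1 (two_mem (-(zδ * y) - zq ^ k * (-3 * za ^ 2 * zs * zf +
        2 * za * zb * zs ^ 2 - 3 * za * zb * zf - zs * zb ^ 2 + zs ^ 5 - 15 * zf * zs ^ 3) -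
        (2 * k ^ 2 + 2 * k) * (zg * Hs (2 * k))))
      convert h2 using 1
      rw [e2]
      ring
    have g2 : d5 (Hs (2 * (k + 1))) - Hs (2 * (k + 1) + 1) ∈ JJ := by
      have h2 := two_mem (2 * (k + 1) ^ 2 * (zg * Hs (2 * k + 1)))
      convert h2 using 1
      rw [e3]
      ring
    refine ⟨?_, g2, ?_⟩
    · have h1 := d5_mem g1
      have e4 : d5 (zq ^ k * (zs ^ 3 * (zs ^ 2 + za ^ 2))) = zq ^ k * (zs ^ 3 *
          (2 * (zs * d5 zs + za * d5 za)) + (zs ^ 2 + za ^ 2) * (3 * zs ^ 2 *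
          (zδ - 10 * (zf * zs)))) + zs ^ 3 * (zs ^ 2 + za ^ 2) * (2 * y) := by
        have e5 : zδ - 10 * (zf * zs) = d5 zs := by
          rw [d5_s]
          rfl
        rw [e5, z_mul, hy, z_mul, map_add, z_pow, z_pow, z_pow]
        push_cast
        ring
      rw [map_add, map_add, e4, z_mul, d5_g] at h1
      have h2 := JJ.add_mem (JJ.add_mem (JJ.add_mem (JJ.sub_mem h1 g2) (JJ.mul_mem_left (-zg) iB))
        (JJ.mul_mem_left (-zg) iA)) (zr_mem (zq ^ k * zδ))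
      have h3 := JJ.add_mem h2 (two_mem (-(zq ^ k * (zs ^ 3 * (zs * d5 zs + za * d5 za))) +
        zq ^ k * ((zs ^ 2 + za ^ 2) * (15 * zs ^ 2 * (zf * zs))) - zs ^ 3 * (zs ^ 2 + za ^ 2) * y -
        Hs (2 * k) * (64 * zf ^ 3 - 12 * (zg * zf)) - zq ^ k * zδ * (zg - zb ^ 2 -
        6 * (zf * zs ^ 2) - 6 * zf ^ 2 + 2 * zs ^ 4 + zs ^ 2 * za ^ 2)))
      convert h3 using 1
      unfold zr
      have e6 : zq = zs ^ 2 * za ^ 2 := by unfold zq; ring
      have e7 : zq ^ (k + 1) = zq ^ k * (zs ^ 2 * za ^ 2) := by rw [pow_succ, e6]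
      rw [e7]
      ring
    · refine ⟨-(zq ^ k * zs ^ 3) - zg * u, ?_⟩
      have h2 := JJ.add_mem (JJ.sub_mem g1 (JJ.mul_mem_left zg iC)) (two_mem (zs * zg ^ (k + 1)))
      convert h2 using 1
      rw [pow_succ]
      ring

section kappa

variable (ρ : ℂ)

/-- the substitution -/
noncomputable def κ5 : Z5 →+* C4 := eval₂Hom (Int.castRingHom C4)
  ![C (ρ ^ 2) * cE, cs, C (1 / 2) * ce, C (ρ ^ 2 / 2) * cw, C 4 * cG]

lemma κ_a : κ5 ρ za = C (ρ ^ 2) * cE := eval₂Hom_X' _ _ _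
lemma κ_s : κ5 ρ zs = cs := eval₂Hom_X' _ _ _
lemma κ_f : κ5 ρ zf = C (1 / 2) * ce := eval₂Hom_X' _ _ _
lemma κ_b : κ5 ρ zb = C (ρ ^ 2 / 2) * cw := eval₂Hom_X' _ _ _
lemma κ_g : κ5 ρ zg = C 4 * cG := eval₂Hom_X' _ _ _

variable {ρ} (hρ : ρ ^ 4 = 2)

include hρ in
lemma κ_d (u : Z5) : κ5 ρ (d5 u) = C 2 * dc (κ5 ρ u) := by
  have hρ2 : ρ ^ 2 * (ρ ^ 2 / 2) = 1 := by
    have : ρ ^ 2 * (ρ ^ 2 / 2) = ρ ^ 4 / 2 := by ring
    rw [this, hρ]
    norm_num
  have hC : (C (ρ ^ 2) * C (ρ ^ 2 / 2) : C4) = 1 := by rw [← C_mul, hρ2, C_1]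
  induction u using MvPolynomial.induction_on with
  | C a =>
    have h1 : d5 (C a) = 0 := by
      have h := d5.map_algebraMap a
      rwa [algebraMap_eq] at h
    have h2 : κ5 ρ (C a) = (a : C4) := by unfold κ5; rw [eval₂Hom_C]; rfl
    rw [h1, h2, map_zero, Derivation.map_intCast, mul_zero]
  | add p q hp hq => rw [map_add, map_add, map_add, map_add, hp, hq]; ring
  | mul_X p i hp =>
    have hi : κ5 ρ (d5 (X i)) = C 2 * dc (κ5 ρ (X i)) := by
      fin_cases i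
      · show κ5 ρ (d5 za) = C 2 * dc (κ5 ρ za)
        rw [d5_a, κ_a, c_mul, c_C, dc_E]
        simp only [map_add, map_sub, map_mul, map_neg, map_one, map_pow, map_ofNat, κ_a, κ_s, κ_f,
          κ_b, κ_g]
        refine MvPolynomial.funext fun v => ?_
        simp only [map_add, map_sub, map_mul, map_neg, map_pow, map_one, map_ofNat, eval_C,
          map_zero]
        ring
      · show κ5 ρ (d5 zs) = C 2 * dc (κ5 ρ zs)
        rw [d5_s, κ_s, dc_s]
        have e : (C (ρ ^ 2) * cE * (C (ρ ^ 2 / 2) * cw) : C4) = cE * cw := by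
          linear_combination (cE * cw) * hC
        simp only [map_add, map_sub, map_mul, map_neg, map_one, map_pow (κ5 ρ), map_ofNat, κ_a, κ_s,
          κ_f, κ_b, κ_g]
        rw [e]
        refine MvPolynomial.funext fun v => ?_
        simp only [map_add, map_sub, map_mul, map_neg, map_pow, map_one, map_ofNat, eval_C,
          map_zero]
        ring
      · show κ5 ρ (d5 zf) = C 2 * dc (κ5 ρ zf)
        rw [d5_f, κ_f, c_mul, c_C, dc_e]
        simp only [map_add, map_sub, map_mul, map_neg, map_one, map_pow, map_ofNat, κ_a, κ_s, κ_f,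
          κ_b, κ_g]
        refine MvPolynomial.funext fun v => ?_
        simp only [map_add, map_sub, map_mul, map_neg, map_pow, map_one, map_ofNat, eval_C,
          map_zero]
        ring
      · show κ5 ρ (d5 zb) = C 2 * dc (κ5 ρ zb)
        rw [d5_b, κ_b, c_mul, c_C, dc_w]
        simp only [map_add, map_sub, map_mul, map_neg, map_one, map_pow, map_ofNat, κ_a, κ_s, κ_f,
          κ_b, κ_g]
        refine MvPolynomial.funext fun v => ?_
        simp only [map_add, map_sub, map_mul, map_neg, map_pow, map_one, map_ofNat, eval_C,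
          map_zero]
        ring
      · show κ5 ρ (d5 zg) = C 2 * dc (κ5 ρ zg)
        rw [d5_g, κ_g, c_mul, c_C, dc_G]
        simp only [map_add, map_sub, map_mul, map_neg, map_one, map_pow, map_ofNat, κ_a, κ_s, κ_f,
          κ_b, κ_g]
        refine MvPolynomial.funext fun v => ?_
        simp only [map_add, map_sub, map_mul, map_neg, map_pow, map_one, map_ofNat, eval_C,
          map_zero]
        ring
    rw [z_mul, map_add, map_mul, map_mul, hp, hi, map_mul, c_mul]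
    ring

include hρ in
/-- the scaled sequence -/
lemma Jn_scale (n : ℕ) : C 2 ^ n * Jn n = κ5 ρ (Hs n) ∧
    C 2 ^ (n + 1) * Jn (n + 1) = κ5 ρ (Hs (n + 1)) := by
  have hd : ∀ (m : ℕ) (y : C4), dc (C 2 ^ m * y) = C 2 ^ m * dc y := by
    intro m y
    rw [c_mul, ← map_pow, c_C]
    ring
  induction n with
  | zero =>
    refine ⟨?_, ?_⟩
    · rw [Jn_zero, Hs_zero, map_neg, κ_s]
      ring
    · rw [zero_add, Jn_one, Hs_one, κ_d hρ, map_neg, κ_s, Jn_zero]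
      ring
  | succ n ih =>
    refine ⟨ih.2, ?_⟩
    have h1 := congrArg (fun y => C 2 * dc y) ih.2
    rw [hd] at h1
    rw [show n + 1 + 1 = n + 2 from rfl, Jn_rec, Hs_rec, map_sub, κ_d hρ]
    simp only [map_mul, map_pow, map_add, map_natCast, map_one, κ_g]
    have h2 := ih.1
    have h4 : (C 4 : C4) = C 2 * C 2 := by rw [← C_mul]; norm_num
    rw [h4]
    linear_combination h1 - ((n + 1) ^ 2 * (C 2 * C 2 * cG)) * h2

include hρ in
lemma κ_r : κ5 ρ zr = 0 := by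
  unfold zr
  simp only [map_add, map_sub, map_mul, map_pow (κ5 ρ), map_ofNat, κ_a, κ_s, κ_f, κ_b, κ_g]
  have hρ2 : (ρ ^ 2 / 2) ^ 2 = 1 / 2 := by
    have : (ρ ^ 2 / 2) ^ 2 = ρ ^ 4 / 4 := by ring
    rw [this, hρ]
    norm_num
  have e : (C (ρ ^ 2 / 2) * cw : C4) ^ 2 = C (1 / 2) * cw ^ 2 := by
    rw [mul_pow, ← C_pow, hρ2]
  rw [e]
  refine MvPolynomial.funext fun v => ?_
  simp only [cG, map_add, map_sub, map_mul, map_neg, map_pow, map_one, map_ofNat, eval_C,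
    map_zero]
  ring

end kappa

end Pool.Agent.Helper26K9.XI
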