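import Pool.Agent.Helper26K9.XI.Odd
import Pool.Agent.Helper26K9.XO.Cp
import Pool.Agent.Y690.W.Hp

/-!
# The distribution of the differences at the points `Ω / 4 + Ω r / D`
-/

set_option autoImplicit false
set_option linter.unusedSectionVars false
set_option linter.unusedSimpArgs false
set_option linter.unusedVariables false

open scoped PeriodPair

namespace Pool.Agent.Helper26K9.XI

open H667R3 Pool.Agent.TH936.CW MvPolynomial Pool.Agent.Y690.NV Pool.Agent.W192.HK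
open Pool.Agent.TH936.CM (IsLat out_sub)
open Pool.Agent.Y690.AW (H2 sl tr N1 two_lt v_j v_one_add_j Pri DS rs_eq rs Ts dd ch mkQC QC Dst
  half_notMem exists_H3 dd_od ch_per)
open Pool.Agent.Helper26K9.XO (N1_inv rho_ne lt_pow le_mul_of v_add_le v_add_lt v_mul_le N1_eta
  N1_sig zn zn_eq OT_Q TD_notMem)
open Complex (I)

variable {L : PeriodPair} {q Ω : ℂ} {R : Subring ℂ}
  (hR : ∀ z : ℂ, z ∈ R ↔ ∃ x y : ℤ, z = x + y * I)

/-! ### the points -/

include hR in
lemma hf_notMem (hL : IsLat L R Ω) : Ω / 2 ∉ L.lattice := by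
  have n1 := half_notMem hR hL (x := 1) (y := 0) (by omega)
  have e1 : Ω * (((1 : ℤ) : ℂ) + ((0 : ℤ) : ℂ) * I) / 2 = Ω / 2 := by push_cast; ring
  rwa [e1] at n1

lemma mul_memR (hL : IsLat L R Ω) {l : ℂ} (hl : l ∈ L.lattice) (r : R) :
    (r : ℂ) * l ∈ L.lattice := by
  rw [hL.mem] at hl
  obtain ⟨s, hs⟩ := hl
  have := hL.mem_mul (r * s)
  convert this using 1
  rw [hs]
  push_cast
  ring

include hR in
/-- the points avoid the points of order two -/
lemma TQ_notMem (hL : IsLat L R Ω) {s : ℂ} (hs : s = 1 ∨ s = -1) {Q : ℂ} {N : ℕ} (hN : Odd N)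
    (hNQ : (N : ℂ) * Q ∈ L.lattice) : 2 * (s * (Ω / 4) + Q) ∉ L.lattice := by
  intro h
  have h0 := hf_notMem hR hL
  obtain ⟨m, hm⟩ := hN
  have h1 := nsmul_mem h N
  rw [nsmul_eq_mul] at h1
  have h2 := nsmul_mem hNQ 2
  rw [nsmul_eq_mul] at h2
  have h3 := sub_mem h1 h2
  have h4 := hL.mem_mul ((m : ℕ) : R)
  apply h0
  rcases hs with rfl | rfl
  · have h5 := sub_mem h3 h4
    convert h5 using 1
    rw [hm]
    push_cast
    ring
  · have h5 := neg_mem (add_mem h3 h4)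
    convert h5 using 1
    rw [hm]
    push_cast
    ring

include hR in
/-- torsion of odd order -/
lemma oddQ (hL : IsLat L R Ω) {D : R} (h : Pri D) (r : R) :
    ∃ N : ℕ, Odd N ∧ (N : ℂ) * (Ω * r / D) ∈ L.lattice := by
  obtain ⟨N, D', h1, h2⟩ := h.nat hR
  refine ⟨N, h1, ?_⟩
  have h3 := coe_ne (h.ne hR)
  have : (N : ℂ) * (Ω * r / D) = Ω * ((D' * r : R) : ℂ) := by
    rw [h2]
    push_cast
    field_simp
  rw [this]
  exact hL.mem_mul _

include hR in
lemma T1_notMem (hL : IsLat L R Ω) {s : ℂ} (hs : s = 1 ∨ s = -1) {D : R} (h : Pri D) (r : R) :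
    2 * (s * (Ω / 4) + Ω * r / D) ∉ L.lattice := by
  obtain ⟨N, hN, h1⟩ := oddQ hR hL h r
  exact TQ_notMem hR hL hs hN h1

/-- points of order four -/
structure P4 (L : PeriodPair) (R : Subring ℂ) (Ω T : ℂ) : Prop where
  nm : ∀ D r : R, Pri D → T + Ω * r / D ∉ L.lattice
  fo : 4 * T ∈ L.lattice

variable (hL : IsLat L R Ω) (hCM : H667R3.CM L)
  (hq : ∀ l ∈ L.lattice, eta L l = 0 * l + q * (starRingEnd ℂ) l)

include hR hL hCM hq in
/-- the distribution relation -/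
theorem ek_rs (hbasic : H_BASIC) (e : ℕ) {T T' : ℂ} (hT : P4 L R Ω T) (hT' : P4 L R Ω T')
    {D p : R} (hD : Pri D) (hp : Pri p) (hF : (p : ℂ) * T - T' ∈ L.lattice) (w : R) :
    rs p (fun y => ek L 0 q e (T + Ω * ((w + D * y : R) : ℂ) / ((D * p : R) : ℂ))) =
      gm e (p : ℂ) * ek L 0 q e (T' + Ω * w / D) := by
  obtain ⟨b1, -⟩ := hbasic R I (qr hR)
  have := b1 (sp p) (by rw [Ne, Ideal.span_singleton_eq_bot]; exact hp.ne hR)
  have := Fintype.ofFinite (R ⧸ sp p)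
  rw [rs_eq]
  have hp0 := hp.ne hR
  have hpC := coe_ne hp0
  have hDC := coe_ne (hD.ne hR)
  set z : ℂ := T + Ω * w / ((D * p : R) : ℂ) with hz
  have e1 : (p : ℂ) * z = (p : ℂ) * T + Ω * w / D := by
    rw [hz]
    push_cast
    field_simp
  have hTD := hT'.nm D w hD
  have e2 : (p : ℂ) * z - (T' + Ω * w / D) ∈ L.lattice := by
    rw [e1]
    convert hF using 1
    ring
  have hpz : (p : ℂ) * z ∉ L.lattice := by
    intro h
    apply hTD
    have := sub_mem h e2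
    rwa [sub_sub_cancel] at this
  obtain ⟨M, M', hM, hMM⟩ := (hD.mul hR hp).nat hR
  have hDp := coe_ne ((hD.mul hR hp).ne hR)
  have hNz : ((4 * M : ℕ) : ℂ) * z ∈ L.lattice := by
    have h1 := nsmul_mem hT.fo M
    have h2 := hL.mem_mul (4 * (M' * w))
    rw [nsmul_eq_mul] at h1
    have h3 := add_mem h1 h2
    have h4 : ((4 : R) : ℂ) = 4 := rfl
    convert h3 using 1
    rw [hz, mul_add]
    have e2 : ((4 * M : ℕ) : ℂ) * (Ω * w / ((D * p : R) : ℂ)) = Ω * ((4 * (M' * w) : R) : ℂ) := by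
      push_cast at hMM hDp ⊢
      rw [hMM, h4]
      field_simp
    rw [e2]
    push_cast
    ring
  have key := ek_dist hCM hq hL e p hp0 hpz (N := 4 * M) (by
    have := hM.pos
    omega) hNz
  rw [ek_per hq e hTD e2] at key
  rw [← key]
  refine Finset.sum_congr rfl fun y _ => ?_
  congr 1
  rw [hz]
  push_cast
  field_simp
  ring

/-- the point of order two -/
noncomputable def uu (Ω : ℂ) : ℂ := Ω * (1 + I) / 2

include hR in
lemma uu_two (hL : IsLat L R Ω) : 2 * uu Ω ∈ L.lattice := by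
  have := hL.mem_mul (mkz hR 1 1)
  convert this using 1
  unfold uu
  rw [mkz_coe]
  push_cast
  ring

include hR in
lemma p4 (hL : IsLat L R Ω) {s : ℂ} (hs : s = 1 ∨ s = -1) : P4 L R Ω (s * (Ω / 4)) ∧
    P4 L R Ω (s * (Ω / 4) + uu Ω) := by
  have h4 : 4 * (s * (Ω / 4)) ∈ L.lattice := by
    have h1 := hL.mem_mul 1
    rcases hs with rfl | rfl
    · convert h1 using 1
      push_cast
      ring
    · convert neg_mem h1 using 1
      push_cast
      ring
  have h5 := uu_two hR hL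
  refine ⟨⟨fun D r hD => ?_, h4⟩, ⟨fun D r hD => ?_, ?_⟩⟩
  · exact two_mul_notMem_of L (T1_notMem hR hL hs hD r)
  · intro h
    apply T1_notMem hR hL hs hD r
    have h6 := nsmul_mem h 2
    rw [nsmul_eq_mul] at h6
    have h7 := sub_mem h6 h5
    convert h7 using 1
    push_cast
    ring
  · have h6 := nsmul_mem h5 2
    rw [nsmul_eq_mul] at h6
    have h7 := add_mem h4 h6
    convert h7 using 1
    push_cast
    ring

include hR in
lemma p_uu (hL : IsLat L R Ω) {p : R} (hp : Pri p) : (p : ℂ) * uu Ω - uu Ω ∈ L.lattice := by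
  obtain ⟨a, b, hab⟩ := hp.coe hR
  have := hL.mem_mul (mkz hR (-2 * b) (2 * a))
  convert this using 1
  unfold uu
  rw [mkz_coe, hab]
  push_cast
  linear_combination (Ω * (a + b * I)) * Complex.I_sq + (2 * Ω * b) * Complex.I_sq

include hR in
/-- the action of a primary number on the points of order four -/
lemma p_T (hbasic : H_BASIC) (hL : IsLat L R Ω) {s : ℂ} (hs : s = 1 ∨ s = -1) {p : R}
    (hp : Pri p) :
    (zn p = 0 ∧ (p : ℂ) * (s * (Ω / 4)) - s * (Ω / 4) ∈ L.lattice) ∨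
    (zn p = 1 ∧ (p : ℂ) * (s * (Ω / 4)) - (s * (Ω / 4) + uu Ω) ∈ L.lattice) := by
  obtain ⟨a, b, hab⟩ := hp.coe hR
  have hz := (zn_eq hR hbasic hp hab).1
  rcases Int.even_or_odd' (a + b) with ⟨c, hc | hc⟩
  · left
    refine ⟨?_, ?_⟩
    · rw [hz, hc]
      push_cast
      have : (2 : ZMod 2) = 0 := by decide
      rw [this, zero_mul]
    · have hb : b = 2 * c - a := by omega
      have h1 : (p : ℂ) * (Ω / 4) - Ω / 4 = Ω * ((mkz hR (a - c) c : R) : ℂ) := by
        rw [mkz_coe, hab, hb]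
        push_cast
        linear_combination (Ω * (2 * c - a) / 2) * Complex.I_sq
      have h2 := hL.mem_mul (mkz hR (a - c) c)
      rw [← h1] at h2
      rcases hs with rfl | rfl
      · convert h2 using 1
        ring
      · convert neg_mem h2 using 1
        ring
  · right
    refine ⟨?_, ?_⟩
    · rw [hz, hc]
      push_cast
      have : (2 : ZMod 2) = 0 := by decide
      rw [this, zero_mul, zero_add]
    · have hb : b = 2 * c + 1 - a := by omega
      have h1 : (p : ℂ) * (Ω / 4) - (Ω / 4 + uu Ω) = Ω * ((mkz hR (a - c - 1) c : R) : ℂ) := by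
        unfold uu
        rw [mkz_coe, hab, hb]
        push_cast
        linear_combination (Ω * (2 * c + 1 - a) / 2) * Complex.I_sq
      have h2 := hL.mem_mul (mkz hR (a - c - 1) c)
      rw [← h1] at h2
      rcases hs with rfl | rfl
      · convert h2 using 1
        ring
      · have h3 := sub_mem (neg_mem h2) (uu_two hR hL)
        convert h3 using 1
        ring

/-- the difference at the points -/
noncomputable def Dx (L : PeriodPair) (q Ω s : ℂ) (e : ℕ) (D r : R) : ℂ :=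
  Df L q (uu Ω) e (s * (Ω / 4) + Ω * r / D)

lemma Dx_eq (s : ℂ) (e : ℕ) (D r : R) : Dx L q Ω s e D r =
    ek L 0 q e (s * (Ω / 4) + Ω * r / D) - ek L 0 q e (s * (Ω / 4) + uu Ω + Ω * r / D) := by
  unfold Dx Df
  congr 2
  ring

open Classical in
/-- the factor -/
noncomputable def cI (e : ℕ) (p : R) : ℂ := (if zn p = 1 then -1 else 1) * gm e (p : ℂ)

include hR hL hCM hq in
theorem ds_Dx (hbasic : H_BASIC) (e : ℕ) {s : ℂ} (hs : s = 1 ∨ s = -1) :
    DS (fun D r : R => Dx L q Ω s e D r) (cI e) := by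
  obtain ⟨b1, -⟩ := hbasic R I (qr hR)
  have hfin : ∀ D : R, Pri D → Finite (R ⧸ sp D) := fun D hD =>
    b1 _ (by rw [Ne, Ideal.span_singleton_eq_bot]; exact hD.ne hR)
  obtain ⟨hP, hP'⟩ := p4 hR hL hs
  refine ⟨hfin, fun D hD => hD.ne hR, fun D r t hD h => ?_, fun D p r hD hp => ?_,
    fun D p w hD hp => ?_⟩
  · have h1 := (lat_dm_iff hL D (hD.ne hR) _).2 h
    rw [Dx_eq, Dx_eq]
    congr 1
    · refine ek_per hq e (hP.nm D t hD) ?_
      convert h1 using 1
      push_cast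
      ring
    · refine ek_per hq e (hP'.nm D t hD) ?_
      convert h1 using 1
      push_cast
      ring
  · have h1 := coe_ne (hD.ne hR)
    have h2 := coe_ne (hp.ne hR)
    have : Ω * ((p * r : R) : ℂ) / ((D * p : R) : ℂ) = Ω * r / D := by
      push_cast
      field_simp
    unfold Dx
    rw [this]
  · have := hfin p hp
    have := Fintype.ofFinite (R ⧸ sp p)
    have hu := p_uu hR hL hp
    have h2u := uu_two hR hL
    simp only [Dx_eq]
    have hrs : rs p (fun y => ek L 0 q e (s * (Ω / 4) + Ω * ((w + D * y : R) : ℂ) /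
        ((D * p : R) : ℂ)) - ek L 0 q e (s * (Ω / 4) + uu Ω + Ω * ((w + D * y : R) : ℂ) /
        ((D * p : R) : ℂ))) = rs p (fun y => ek L 0 q e (s * (Ω / 4) +
        Ω * ((w + D * y : R) : ℂ) / ((D * p : R) : ℂ))) - rs p (fun y =>
        ek L 0 q e (s * (Ω / 4) + uu Ω + Ω * ((w + D * y : R) : ℂ) / ((D * p : R) : ℂ))) := by
      rw [rs_eq, rs_eq, rs_eq, Finset.sum_sub_distrib]
    rw [hrs]
    rcases p_T hR hbasic hL hs hp with ⟨hz, h3⟩ | ⟨hz, h3⟩
    · have h4 : (p : ℂ) * (s * (Ω / 4) + uu Ω) - (s * (Ω / 4) + uu Ω) ∈ L.lattice := by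
        have := add_mem h3 hu
        convert this using 1
        ring
      rw [ek_rs hR hL hCM hq hbasic e hP hP hD hp h3, ek_rs hR hL hCM hq hbasic e hP' hP' hD hp h4]
      unfold cI
      rw [if_neg (by rw [hz]; exact zero_ne_one)]
      ring
    · have h4 : (p : ℂ) * (s * (Ω / 4) + uu Ω) - s * (Ω / 4) ∈ L.lattice := by
        have := add_mem (add_mem h3 hu) h2u
        convert this using 1
        ring
      rw [ek_rs hR hL hCM hq hbasic e hP hP' hD hp h3, ek_rs hR hL hCM hq hbasic e hP' hP hD hp h4]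
      unfold cI
      rw [if_pos hz]
      ring

include hR hL hCM hq in
/-- the symmetry -/
lemma Dx_neg (e : ℕ) {D : R} (hD : Pri D) (r : R) :
    Dx L q Ω (-1) e D r = -Dx L q Ω 1 e D (-r) := by
  obtain ⟨hP, hP'⟩ := p4 hR hL (s := 1) (Or.inl rfl)
  obtain ⟨hN, hN'⟩ := p4 hR hL (s := -1) (Or.inr rfl)
  rw [Dx_eq, Dx_eq]
  have h1 := ek_neg (q := q) hCM e (hP.nm D (-r) hD)
  have h2 := ek_neg (q := q) hCM e (hP'.nm D (-r) hD)
  have e1 : -(1 * (Ω / 4) + Ω * ((-r : R) : ℂ) / D) = -1 * (Ω / 4) + Ω * r / D := by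
    push_cast; ring
  rw [e1] at h1
  have h3 : ek L 0 q e (-(1 * (Ω / 4) + uu Ω + Ω * ((-r : R) : ℂ) / D)) =
      ek L 0 q e (-1 * (Ω / 4) + uu Ω + Ω * r / D) := by
    refine ek_per hq e (hN'.nm D r hD) ?_
    have := neg_mem (uu_two hR hL)
    convert this using 1
    push_cast
    ring
  rw [h1, ← h3, h2]
  ring

/-- the normalised pair -/
noncomputable def Gp (K : ℂ) (L : PeriodPair) (q Ω : ℂ) (e : ℕ) (D r : R) : ℂ :=
  K * Dx L q Ω 1 e D r + -K * Dx L q Ω (-1) e D r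

include hR hL hCM hq in
theorem ds_Gp (hbasic : H_BASIC) (K : ℂ) (e : ℕ) :
    DS (fun D r : R => Gp K L q Ω e D r) (cI e) :=
  Pool.Agent.Helper26K9.XO.DS_lin (ds_Dx hR hL hCM hq hbasic e (Or.inl rfl))
    (ds_Dx hR hL hCM hq hbasic e (Or.inr rfl)) K (-K)

include hR hL hCM hq in
lemma Gp_pair (K : ℂ) (e : ℕ) {D : R} (hD : Pri D) (r : R) : Gp K L q Ω e D r =
    K * (Dx L q Ω 1 e D r + Dx L q Ω 1 e D (-r)) := by
  unfold Gp
  rw [Dx_neg hR hL hCM hq e hD]
  ring

include hR hL hCM hq in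
lemma Gp_neg (K : ℂ) (e : ℕ) {D : R} (hD : Pri D) (r : R) :
    Gp K L q Ω e D (-r) = Gp K L q Ω e D r := by
  rw [Gp_pair hR hL hCM hq K e hD, Gp_pair hR hL hCM hq K e hD, neg_neg, add_comm]

/-! ### the values -/

section val

variable (g2 : L.g₂ = -1) (hT : TP L q 1 (Ω / (2 + 2 * I))) {Γ : Type*}
  [LinearOrderedCommGroupWithZero Γ] {v : Valuation ℂ Γ} {ρ : ℂ}
  (hρ : ρ ^ 4 = 2) (hr : v ρ < 1)

include hR hL hCM hq g2 in
lemma hu2 : H2 L q (uu Ω) 0 := by
  obtain ⟨j, h⟩ := exists_H3 hR hL hCM g2 hq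
  exact h.a3

lemma pt_rel (Q : ℂ) : (1 + I) * (1 * (Ω / 4) + Q) = I * (Ω / (2 + 2 * I) + (1 - I) * Q) := by
  have h1 : (2 + 2 * I : ℂ) ≠ 0 := Pool.Agent.Y690.NV.one_ne
  have h2 : Ω / (2 + 2 * I) = Ω * (1 - I) / 4 := by
    rw [div_eq_div_iff h1 (by norm_num)]
    linear_combination (2 * Ω) * Complex.I_sq
  rw [h2]
  linear_combination (Ω / 4 + Q) * Complex.I_sq

include hR in
lemma OT_oneI (hL : IsLat L R Ω) {D : R} (h : Pri D) {r : R} (hr : r ∉ sp D) :
    OT L ((1 - I) * (Ω * r / D)) := by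
  obtain ⟨h1, N, hN, h2⟩ := OT_Q hR hL h hr
  have m1 := fun (l : ℂ) (hl : l ∈ L.lattice) => mul_memR hL hl (mkz hR 1 1)
  have m2 := fun (l : ℂ) (hl : l ∈ L.lattice) => mul_memR hL hl (mkz hR 1 (-1))
  simp only [mkz_coe] at m1 m2
  refine ⟨fun h3 => h1 ?_, N, hN, ?_⟩
  · have h4 := m1 _ h3
    obtain ⟨m, hm⟩ := hN
    have h5 := nsmul_mem h4 m
    rw [nsmul_eq_mul] at h5
    have h6 := sub_mem h2 h5
    convert h6 using 1
    rw [hm]
    push_cast
    linear_combination (-(m * (Ω * r / D))) * Complex.I_sq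
  · have h4 := m2 _ h2
    convert h4 using 1
    push_cast
    ring

include hR hL hCM hq g2 hT hρ hr in
theorem nd_pt {D : R} (hD : Pri D) (r : R) :
    ND v ρ (pi4 L q (1 * (Ω / 4) + Ω * r / D)) := by
  have hz := T1_notMem hR hL (s := 1) (Or.inl rfl) hD r
  have hTL : Ω / (2 + 2 * I) ∉ L.lattice := two_mul_notMem_of L hT.nm
  by_cases hr' : r ∈ sp D
  · have h1 := (lat_dm_iff hL D (hD.ne hR) _).2 hr'
    have h2 : (1 - I) * (Ω * r / D) ∈ L.lattice := by
      have := mul_memR hL h1 (mkz hR 1 (-1))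
      rw [mkz_coe] at this
      convert this using 1
      push_cast
      ring
    obtain ⟨a1, a2⟩ := Pool.Agent.Y690.AW.near_zero (v := v) (ρ := ρ) hT
    refine nd_of hρ hr hCM g2 (hu2 hR hL hCM hq g2) hz (pt_rel _) ?_ ?_
    · rw [Pool.Agent.W245.EB.wp_add_lattice L h2]
      exact a1
    · rw [E1_per' hq hTL (by rwa [add_sub_cancel_left])]
      exact a2
  · obtain ⟨a1, a2⟩ := Pool.Agent.Y690.AW.near_add (v := v) hρ hr hCM g2 hq hT
      (OT_oneI hR hL hD hr')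
    exact nd_of hρ hr hCM g2 (hu2 hR hL hCM hq g2) hz (pt_rel _) a1 a2

include hρ in
lemma scale_Df {u z : ℂ} (h : H2 L q u 0) (hCM : H667R3.CM L) (g2 : L.g₂ = -1)
    (hz : 2 * z ∉ L.lattice) (n : ℕ) :
    2 ^ n * (n.factorial : ℂ) * Df L q u n z = ev5 ρ (pi4 L q z) (Hs n) := by
  have h1 := Df_eval h hCM g2 hz n
  have h2 := (Jn_scale hρ n).1
  have h3 := congrArg (eval (pi4 L q z)) h2
  rw [map_mul, map_pow, eval_C] at h3
  have h4 : ev5 ρ (pi4 L q z) (Hs n) = eval (pi4 L q z) (κ5 ρ (Hs n)) := rfl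
  rw [h4, ← h3, ← h1]
  ring

include hR hL hCM hq g2 hT hρ hr in
/-- the values, even index -/
theorem Dx_even (k : ℕ) {D : R} (hD : Pri D) (r : R) :
    N1 v (2 ^ (2 * k) * ((2 * k).factorial : ℂ) * Dx L q Ω 1 (2 * k) D r) := by
  unfold Dx
  rw [scale_Df hρ (hu2 hR hL hCM hq g2) hCM g2 (T1_notMem hR hL (Or.inl rfl) hD r)]
  exact even_one hρ hr (nd_pt hR hL hCM hq g2 hT hρ hr hD r) k

include hR hL hCM hq g2 hT hρ hr in
/-- the values, odd index -/
theorem Dx_odd (k : ℕ) {D : R} (hD : Pri D) {r : R} (hr' : r ∉ sp D) :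
    N1 v (2 ^ (2 * k + 1) * ((2 * k + 1).factorial : ℂ) / 2 *
      (Dx L q Ω 1 (2 * k + 1) D r + Dx L q Ω 1 (2 * k + 1) D (-r))) := by
  have h1 := T1_notMem hR hL (s := 1) (Or.inl rfl) hD r
  have h2 := T1_notMem hR hL (s := 1) (Or.inl rfl) hD (-r)
  have key := odd_pair (v := v) hρ hr hCM g2 hq (hu2 hR hL hCM hq g2) hT (OT_oneI hR hL hD hr') h1 h2
    (pt_rel _) (by
      rw [pt_rel]
      push_cast
      ring) k
  rw [← scale_Df hρ (hu2 hR hL hCM hq g2) hCM g2 h1,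
    ← scale_Df hρ (hu2 hR hL hCM hq g2) hCM g2 h2] at key
  unfold Dx
  convert key using 1
  ring

end val

end Pool.Agent.Helper26K9.XI
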