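import Pool.Agent.Helper26K9.XI.Par

/-!
# The Hecke characters of the elliptic curves `i D y² = x³ - x`
-/

set_option autoImplicit false
set_option linter.unusedSectionVars false

namespace Pool.Agent.Helper26K9.XI

open H667R3 Pool.Agent.TH936.CW Pool.Agent.Y690.NV Pool.Agent.Y690.AW Pool.Agent.W192.HK
open Pool.Agent.TH936.CM (IsLat out_sub)
open Pool.Agent.Helper26K9.XO (card_form cop_ff_pri)
open Complex (I)

variable {R : Subring ℂ} (hR : ∀ z : ℂ, z ∈ R ↔ ∃ x y : ℤ, z = x + y * I)

open Classical in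
/-- the symbol of `i` -/
noncomputable def sI (α : R) : ℤ := if Nat.card (R ⧸ sp α) % 8 = 5 then -1 else 1

/-- the symbol of `i` as a complex number -/
noncomputable def kI (α : R) : ℂ := ((sI α : ℤ) : ℂ)

include hR in
open Classical in
lemma kI_eq (hbasic : H_BASIC) {x y : ℤ} {α : R} (h : α = 1 + ff hR * mkz hR x y) :
    kI α = if Even (x + y) then 1 else -1 := by
  have hP : Pri α := Pri.of_form hR h
  have h1 := card_form hR hbasic hP (a := x) (b := y) (by
    rw [h]
    push_cast
    rw [ff_coe, mkz_coe])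
  unfold kI sI
  set N := Nat.card (R ⧸ sp α) with hN
  have e : (1 : ℤ) + 4 * (x - y + (x - y) ^ 2 + (x + y) ^ 2) =
      1 + 4 * (x + y) + 8 * (x ^ 2 + y ^ 2 - y) := by ring
  rw [e] at h1
  rcases Int.even_or_odd' (x + y) with ⟨c, hc | hc⟩
  · rw [if_neg (by omega), if_pos ⟨c, by omega⟩, Int.cast_one]
  · rw [if_pos (by omega), if_neg (by rw [Int.not_even_iff_odd]; exact ⟨c, hc⟩)]
    push_cast
    rfl

lemma sI_pm (α : R) : sI α = 1 ∨ sI α = -1 := by
  unfold sI
  split_ifs
  · exact Or.inr rfl
  · exact Or.inl rfl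

lemma kI_sq (α : R) : kI α * kI α = 1 := by
  unfold kI
  rcases sI_pm α with h | h <;> rw [h] <;> norm_num

lemma kI_conj (α : R) : (starRingEnd ℂ) (kI α) = kI α := map_intCast _ _

include hR in
lemma kI_mul (hbasic : H_BASIC) {α β : R} (hα : α - 1 ∈ sp (ff hR)) (hβ : β - 1 ∈ sp (ff hR)) :
    kI (α * β) = kI α * kI β := by
  obtain ⟨x, y, h1⟩ := kp_form hR hα
  obtain ⟨x', y', h2⟩ := kp_form hR hβ
  have h3 : α * β = 1 + ff hR * mkz hR (x + x' + 2 * (x * x' - y * y' - x * y' - x' * y))
      (y + y' + 2 * (x * x' - y * y' + x * y' + x' * y)) := by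
    rw [h1, h2]
    unfold mkz ff
    push_cast
    linear_combination ((2 + 2 * ii hR) ^ 2 * (y : R) * y' +
      (2 + 2 * ii hR) * (2 * (x : R) * y' + 2 * x' * y)) * ii_sq hR
  rw [kI_eq hR hbasic h1, kI_eq hR hbasic h2, kI_eq hR hbasic h3]
  have key : Even (x + x' + 2 * (x * x' - y * y' - x * y' - x' * y) +
      (y + y' + 2 * (x * x' - y * y' + x * y' + x' * y))) ↔ (Even (x + y) ↔ Even (x' + y')) := by
    have e : x + x' + 2 * (x * x' - y * y' - x * y' - x' * y) +
      (y + y' + 2 * (x * x' - y * y' + x * y' + x' * y)) = (x + y) + (x' + y') +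
      2 * (2 * (x * x' - y * y')) := by ring
    rw [e, Int.even_add, Int.even_add (m := x + y)]
    have := even_two_mul (2 * (x * x' - y * y'))
    tauto
  by_cases hx : Even (x + y) <;> by_cases hx' : Even (x' + y')
  · rw [if_pos hx, if_pos hx', if_pos (by tauto), one_mul]
  · rw [if_pos hx, if_neg hx', if_neg (by tauto), one_mul]
  · rw [if_neg hx, if_pos hx', if_neg (by tauto), mul_one]
  · rw [if_neg hx, if_neg hx', if_pos (by tauto)]
    norm_num

include hR in
lemma kI_one (hbasic : H_BASIC) : kI (1 : R) = 1 := by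
  rw [kI_eq hR hbasic (x := 0) (y := 0) (by unfold mkz; push_cast; ring)]
  rw [if_pos (by decide)]

lemma four_ff : (4 : R) = ff hR * (1 - ii hR) := by
  unfold ff
  linear_combination (2 : R) * ii_sq hR

lemma four_ne' : (4 : R) ≠ 0 := by
  have h : (4 : R) = 2 * 2 := by norm_num
  rw [h]
  exact mul_ne_zero two_ne_zero two_ne_zero

lemma mem_four_ff {r : R} (h : r ∈ sp (4 : R)) : r ∈ sp (ff hR) := by
  rw [four_ff hR] at h
  exact mem_sp_mul_left h

include hR in
lemma kI_per (hbasic : H_BASIC) {α β : R} (hα : α - 1 ∈ sp (ff hR)) (h : α - β ∈ sp (4 : R)) :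
    kI α = kI β := by
  obtain ⟨x, y, h1⟩ := kp_form hR hα
  rw [Ideal.mem_span_singleton'] at h
  obtain ⟨c, hc⟩ := h
  obtain ⟨a, b, rfl⟩ := exists_xy hR c
  have h2 : β = 1 + ff hR * mkz hR (x - (a + b)) (y - (b - a)) := by
    have : β = α - mkz hR a b * 4 := by linear_combination hc
    rw [this, h1]
    unfold mkz ff
    push_cast
    linear_combination (2 * ((b : R) - a) - 4 * b * 0) * ii_sq hR
  rw [kI_eq hR hbasic h1, kI_eq hR hbasic h2]
  have : Even (x - (a + b) + (y - (b - a))) ↔ Even (x + y) := by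
    have e : x - (a + b) + (y - (b - a)) = (x + y) - 2 * b := by ring
    rw [e, Int.even_sub]
    have := even_two_mul b
    tauto
  by_cases hx : Even (x + y)
  · rw [if_pos hx, if_pos (this.mpr hx)]
  · rw [if_neg hx, if_neg (fun h3 => hx (this.mp h3))]

open Classical in
/-- the twisted character -/
noncomputable def tI (hR : ∀ z : ℂ, z ∈ R ↔ ∃ x y : ℤ, z = x + y * I) (n : ℕ) (S : Finset R)
    (J : Ideal R) : ℂ :=
  if h : ∃ α : R, J = sp α ∧ α - 1 ∈ sp (ff hR) then
    kI (Classical.choose h) * ((ch S (Classical.choose h) : ℤ) : ℂ) *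
      ((Classical.choose h : R) : ℂ) ^ n else 0

lemma tI_gen (n : ℕ) (S : Finset R) {α : R} (hα : α - 1 ∈ sp (ff hR)) :
    tI hR n S (sp α) = kI α * ((ch S α : ℤ) : ℂ) * (α : ℂ) ^ n := by
  have h : ∃ β : R, sp α = sp β ∧ β - 1 ∈ sp (ff hR) := ⟨α, rfl, hα⟩
  unfold tI
  rw [dif_pos h]
  obtain ⟨h1, h2⟩ := Classical.choose_spec h
  rw [← gen_uni hR h1 hα h2]

lemma tI_zero' (n : ℕ) (S : Finset R) {J : Ideal R} (h : ¬ (J ≠ ⊥ ∧ IsCoprime J (sp (ff hR)))) :
    tI hR n S J = 0 := by
  rw [← gen_iff hR] at h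
  unfold tI
  rw [dif_neg h]

lemma tI_zero (S : Finset R) (n : ℕ) {J : Ideal R}
    (hJ : ¬ ∃ α : R, α - 1 ∈ sp (ff hR) ∧ J = sp α) : tI hR n S J = 0 := by
  refine tI_zero' hR n S fun h => hJ ?_
  obtain ⟨α, h2, h3⟩ := (gen_iff hR J).mpr h
  exact ⟨α, h3, h2⟩

include hR in
lemma cop_four (J : Ideal R) : IsCoprime J (sp (4 : R)) ↔ IsCoprime J (sp (ff hR)) := by
  constructor
  · intro h
    have h1 : sp (4 : R) = sp (ff hR) * sp (1 - ii hR) := by
      rw [four_ff hR]
      exact (Ideal.span_singleton_mul_span_singleton _ _).symm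
    rw [h1] at h
    exact h.of_mul_right_left
  · intro h
    have h1 : sp (f2 hR) = sp (4 : R) * sp (1 + ii hR) := by
      have : f2 hR = 4 * (1 + ii hR) := by unfold f2 ff; ring
      rw [this]
      exact (Ideal.span_singleton_mul_span_singleton _ _).symm
    have h2 := (cop_f2 hR J).mpr h
    rw [h1] at h2
    exact h2.of_mul_right_left

include hR in
lemma cop_four_pri {p : R} (h : Pri p) : IsCoprime p (4 : R) := by
  rw [← Ideal.isCoprime_span_singleton_iff, cop_four hR, Ideal.isCoprime_span_singleton_iff]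
  exact cop_ff_pri hR h

open Classical in
theorem hc_tI (hbasic : H_BASIC) (n : ℕ) (S : Finset R)
    (hS : ∀ p ∈ S, Prime p ∧ Pri p) (hd : Dst S) :
    HC n (sp (4 * dd S)) (tI hR n S) := by
  have := pid hR
  have hQ : ∀ p ∈ S, QC p := fun p hp => mkQC hR hbasic (hS p hp).1 (hS p hp).2
  have hdd := dd_od hR hQ
  have hsp : sp (4 * dd S) = sp (4 : R) * sp (dd S) :=
    (Ideal.span_singleton_mul_span_singleton _ _).symm
  refine ⟨?_, ?_, ?_, ?_, ?_⟩
  · rw [Ne, Ideal.span_singleton_eq_bot]
    exact mul_ne_zero four_ne' (hdd.ne hR)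
  · intro A B
    by_cases hA : A ≠ ⊥ ∧ IsCoprime A (sp (ff hR))
    · by_cases hB : B ≠ ⊥ ∧ IsCoprime B (sp (ff hR))
      · obtain ⟨α, rfl, hα⟩ := (gen_iff hR A).mpr hA
        obtain ⟨β, rfl, hβ⟩ := (gen_iff hR B).mpr hB
        rw [Ideal.span_singleton_mul_span_singleton, tI_gen hR n S hα, tI_gen hR n S hβ, tI_gen,
          kI_mul hR hbasic hα hβ, ch_mul hQ]
        · push_cast
          rw [mul_pow]
          ring
        · have h := (sp (ff hR)).add_mem ((sp (ff hR)).mul_mem_left α hβ) hα
          convert h using 1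
          ring
      · rw [tI_zero' hR n S hB, mul_zero]
        refine tI_zero' hR n S fun h => hB ⟨?_, h.2.of_mul_left_right⟩
        rintro rfl
        exact h.1 (by rw [Ideal.mul_bot])
    · rw [tI_zero' hR n S hA, zero_mul]
      refine tI_zero' hR n S fun h => hA ⟨?_, h.2.of_mul_left_left⟩
      rintro rfl
      exact h.1 (by rw [Ideal.bot_mul])
  · intro A
    rw [hsp, IsCoprime.mul_right_iff, cop_four hR]
    by_cases hA : A ≠ ⊥ ∧ IsCoprime A (sp (ff hR))
    · obtain ⟨α, rfl, hα⟩ := (gen_iff hR A).mpr hA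
      rw [tI_gen hR n S hα, cop_dd hQ]
      have h0 : kI α ≠ 0 := left_ne_zero_of_mul_eq_one (kI_sq α)
      have h1 : (α : ℂ) ^ n ≠ 0 := pow_ne_zero _ (coe_ne (((pri_iff hR α).mp hα).ne hR))
      have h2 : (kI α * ((ch S α : ℤ) : ℂ) * (α : ℂ) ^ n = 0) ↔ ch S α = 0 := by
        constructor
        · intro h
          have h3 := (mul_eq_zero.mp h).resolve_right h1
          exact_mod_cast (mul_eq_zero.mp h3).resolve_left h0
        · intro h
          rw [h, Int.cast_zero, mul_zero, zero_mul]
      rw [h2, ch_zero hQ]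
      constructor
      · rintro ⟨p, hp, h3⟩
        exact Or.inr fun h4 => h4.2 p hp h3
      · rintro (h | h)
        · exact absurd h hA.1
        · by_contra hcon
          push Not at hcon
          exact h ⟨hA.2, hcon⟩
    · rw [tI_zero' hR n S hA]
      simp only [true_iff]
      tauto
  · intro α _ hα
    have h1 := mem_four_ff hR (mem_sp_mul_left hα)
    rw [tI_gen hR n S h1, kI_per hR hbasic h1 (β := 1) (mem_sp_mul_left hα), kI_one hR hbasic,
      ch_per hQ (mem_sp_mul_right hα), ch_one hQ, Int.cast_one, one_mul, one_mul]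
  · intro q' hq'
    obtain ⟨δ, rfl⟩ := (IsPrincipalIdealRing.principal q').principal
    have hle : 4 * dd S ∈ (Submodule.span R {δ} : Ideal R) :=
      hq'.le (Ideal.mem_span_singleton_self _)
    have hle' : 4 * dd S ∈ sp δ := hle
    rw [Ideal.mem_span_singleton] at hle'
    obtain ⟨ε, hε⟩ := hle'
    have hδq : δ ∈ (Submodule.span R {δ} : Ideal R) := Submodule.mem_span_singleton_self δ
    have hεu : ¬ IsUnit ε := by
      intro hu
      obtain ⟨w, hw⟩ := hu.exists_right_inv
      apply not_le_of_gt hq'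
      have h1 : δ ∈ sp (4 * dd S) := by
        rw [Ideal.mem_span_singleton]
        exact ⟨w, by rw [hε, mul_assoc, hw, mul_one]⟩
      exact (Ideal.span_singleton_le_iff_mem _).mpr h1
    have hfin : ∀ α : R, Pri α → α - 1 ∈ (Submodule.span R {δ} : Ideal R) →
        (∀ p ∈ S, α ∉ sp p) → kI α * ((ch S α : ℤ) : ℂ) = -1 →
        ∃ α : R, α ≠ 0 ∧ α - 1 ∈ (Submodule.span R {δ} : Ideal R) ∧
          IsCoprime (sp α) (sp (4 * dd S)) ∧ tI hR n S (sp α) ≠ (α : ℂ) ^ n := by
      intro α h1 h2 h3 h4
      refine ⟨α, h1.ne hR, h2, ?_, ?_⟩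
      · rw [hsp, IsCoprime.mul_right_iff, cop_dd hQ, Ideal.isCoprime_span_singleton_iff]
        exact ⟨cop_four_pri hR h1, h3⟩
      · rw [tI_gen hR n S (h1.ff hR), h4, neg_one_mul]
        intro h5
        have h6 : (α : ℂ) ^ n = 0 := by linear_combination (-1 / 2) * h5
        exact pow_ne_zero n (coe_ne (h1.ne hR)) h6
    by_cases hcase : ∃ p ∈ S, p ∣ ε
    · obtain ⟨p, hp, ε', hε'⟩ := hcase
      obtain ⟨u, hu⟩ := nonres hR hbasic (hS p hp).1 (hS p hp).2
      set m := 4 * dd (S.erase p) with hm
      have hp0 := (hS p hp).2.ne hR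
      have hmm : 4 * dd S = m * p := by
        rw [hm]
        unfold dd
        rw [← Finset.mul_prod_erase S (fun x => x) hp]
        ring
      have hmδ : m = δ * ε' := by
        refine mul_right_cancel₀ hp0 ?_
        rw [← hmm, hε, hε']
        ring
      have hcop : IsCoprime m p := by
        rw [hm]
        refine IsCoprime.mul_left (cop_four_pri hR (hS p hp).2).symm ?_
        refine IsCoprime.prod_left fun s hs => ?_
        rw [Finset.mem_erase] at hs
        rw [← Ideal.isCoprime_span_singleton_iff]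
        have h5 := (cop_dd (S := {p}) (fun x hx => by
          rw [Finset.mem_singleton] at hx
          rw [hx]
          exact hQ p hp) s).mpr (fun x hx => by
          rw [Finset.mem_singleton] at hx
          rw [hx]
          exact hd s hs.2 p hp hs.1)
        have h6 : dd ({p} : Finset R) = p := Finset.prod_singleton _ _
        rwa [h6] at h5
      obtain ⟨a, b, hab⟩ := hcop
      set α := 1 + m * (a * (u - 1)) with hα
      have h1 : α - 1 ∈ sp m := by
        rw [hα, add_sub_cancel_left]
        exact (sp m).mul_mem_right _ (Ideal.mem_span_singleton_self m)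
      have h2 : α - u ∈ sp p := by
        have : α - u = p * (-(b * (u - 1))) := by
          rw [hα]
          linear_combination (u - 1) * hab
        rw [this]
        exact (sp p).mul_mem_right _ (Ideal.mem_span_singleton_self p)
      have h3 : α - 1 ∈ sp (4 : R) := mem_sp_mul_left h1
      have h4 := mem_four_ff hR h3
      have hup : u ∉ sp p := by
        intro h5
        rw [((hQ p hp).zero u).mpr h5] at hu
        norm_num at hu
      refine hfin α ((pri_iff hR α).mp h4) ?_ ?_ ?_
      · have h5 : δ * (ε' * (a * (u - 1))) ∈ (Submodule.span R {δ} : Ideal R) :=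
          Ideal.mul_mem_right _ _ hδq
        convert h5 using 1
        rw [hα, hmδ]
        ring
      · intro s hs h5
        by_cases hsp' : s = p
        · rw [hsp'] at h5
          have := (sp p).sub_mem h5 h2
          rw [sub_sub_cancel] at this
          exact hup this
        · have h6 : α - 1 ∈ sp s := mem_dd (Finset.mem_erase.mpr ⟨hsp', hs⟩) (mem_sp_mul_right h1)
          have := (sp s).sub_mem h5 h6
          rw [sub_sub_cancel] at this
          exact (hQ s hs).max.ne_top ((Ideal.eq_top_iff_one _).mpr this)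
      · have h5 : ch S α = -1 := by
          unfold ch
          rw [← Finset.mul_prod_erase S (fun x => qs x α) hp, (hQ p hp).per α u h2, hu,
            Finset.prod_eq_one, mul_one]
          intro s hs
          rw [(hQ s (Finset.mem_of_mem_erase hs)).per α 1 (mem_dd hs (mem_sp_mul_right h1)),
            (hQ s (Finset.mem_of_mem_erase hs)).one]
        rw [h5, kI_per hR hbasic h4 (β := 1) h3, kI_one hR hbasic]
        push_cast
        ring
    · push Not at hcase
      have hεdd : IsCoprime ε (dd S) := by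
        rw [← Ideal.isCoprime_span_singleton_iff, cop_dd hQ]
        intro p hp h5
        exact hcase p hp (Ideal.mem_span_singleton.mp h5)
      have hεf : ε ∣ 4 := hεdd.dvd_of_dvd_mul_right ⟨δ, by rw [hε]; ring⟩
      rcases even_or hR ε with ⟨a, b, hab, hmk⟩ | ⟨z, hz⟩
      · exfalso
        obtain ⟨j, -, hj⟩ := odd_unit hR a b hab
        rw [← hmk] at hj
        have h5 := cop_four_pri hR ((pri_iff hR _).mp hj)
        have h6 : IsCoprime ε (4 : R) := h5.of_mul_left_right
        exact hεu (h6.isUnit_of_dvd' dvd_rfl hεf)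
      · obtain ⟨d, hdd'⟩ := hdd.form hR
        obtain ⟨x, y, hxy⟩ := exists_xy hR d
        set α := 1 + ff hR * dd S with hα
        have h1 : α = 1 + ff hR * mkz hR (1 + 2 * (x - y)) (2 * (x + y)) := by
          rw [hα, hdd', hxy]
          unfold ff mkz
          push_cast
          linear_combination (2 * (2 + 2 * ii hR) * (y : R)) * ii_sq hR
        have h2 : ff hR * dd S = δ * (ii hR * z) := by
          have h3 : (1 + ii hR) ≠ 0 := by
            intro h4
            apply ffn hR
            rw [ff_eq, h4, zero_mul]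
          refine mul_left_cancel₀ h3 ?_
          have h4 : (1 + ii hR) * (ff hR * dd S) = ii hR * (4 * dd S) := by
            unfold ff
            linear_combination (2 * dd S) * ii_sq hR
          rw [h4, hε, hz]
          ring
        have h3 : α - 1 ∈ sp (dd S) := by
          rw [hα, add_sub_cancel_left]
          exact (sp (dd S)).mul_mem_left (ff hR) (Ideal.mem_span_singleton_self _)
        have h4 : α - 1 ∈ sp (ff hR) := by
          rw [hα, add_sub_cancel_left]
          exact (sp (ff hR)).mul_mem_right (dd S) (Ideal.mem_span_singleton_self _)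
        refine hfin α ((pri_iff hR α).mp h4) ?_ ?_ ?_
        · rw [hα, add_sub_cancel_left, h2]
          exact Ideal.mul_mem_right _ _ hδq
        · intro s hs h5
          have := (sp s).sub_mem h5 (mem_dd hs h3)
          rw [sub_sub_cancel] at this
          exact (hQ s hs).max.ne_top ((Ideal.eq_top_iff_one _).mpr this)
        · rw [kI_eq hR hbasic h1, if_neg, ch_per hQ h3, ch_one hQ]
          · push_cast
            ring
          · rw [Int.not_even_iff_odd]
            exact ⟨2 * x, by ring⟩

end Pool.Agent.Helper26K9.XI
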