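import Pool.Agent.Helper26K9.XI.Hc
import Pool.Agent.Y690.W.Main1

/-!
# The nonvanishing of the central values
-/

set_option autoImplicit false
set_option linter.unusedSectionVars false

open Filter
open scoped Topology PeriodPair

namespace Pool.Agent.Helper26K9.XI

open H667R3 Pool.Agent.TH936.CW Pool.Agent.Y690.NV Pool.Agent.Y690.AW Pool.Agent.W192.HK
open Pool.Agent.TH936.CM (IsLat out_sub)
open Pool.Agent.Helper26K9.XO (card_form cop_ff_pri)
open Complex (I)

variable {R : Subring ℂ} (hR : ∀ z : ℂ, z ∈ R ↔ ∃ x y : ℤ, z = x + y * I)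

/-- the classes modulo `1 - i` -/
lemma sum_pi [Fintype (R ⧸ sp (1 - ii hR))] (h : R → ℂ)
    (hper : ∀ a b : R, a - b ∈ sp (1 - ii hR) → h a = h b) :
    ∑ x : R ⧸ sp (1 - ii hR), h x.out = h 0 + h 1 := by
  set vv : Fin 2 → R := ![0, 1] with hvv
  have v0 : vv 0 = mkz hR 0 0 := by
    have : vv 0 = 0 := rfl
    rw [this]; unfold mkz; push_cast; ring
  have v1 : vv 1 = mkz hR 1 0 := by
    have : vv 1 = 1 := rfl
    rw [this]; unfold mkz; push_cast; ring
  have mem : ∀ x y : ℤ, mkz hR x y ∈ sp (1 - ii hR) ↔ 2 ∣ x + y := by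
    intro x y
    rw [Ideal.mem_span_singleton']
    constructor
    · rintro ⟨c, hc⟩
      obtain ⟨a, b, rfl⟩ := exists_xy hR c
      have h2 := congrArg Subtype.val hc
      have h3 : ((mkz hR a b * (1 - ii hR) : R) : ℂ) = ((a + b : ℤ) : ℂ) + ((b - a : ℤ) : ℂ) * I := by
        push_cast
        rw [mkz_coe, ii_coe]
        linear_combination (-(b : ℂ)) * Complex.I_sq
      rw [h3, mkz_coe] at h2
      obtain ⟨h4, h5⟩ := mkz_inj h2
      omega
    · rintro ⟨c, hc⟩
      refine ⟨mkz hR (x - c) c, ?_⟩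
      have hy : y = 2 * c - x := by omega
      rw [hy]
      unfold mkz
      push_cast
      linear_combination (-(c : R)) * ii_sq hR
  have key : ∑ p : Fin 2, h (vv p) = ∑ x : R ⧸ sp (1 - ii hR), h x.out := by
    refine Fintype.sum_bijective (fun p : Fin 2 => Ideal.Quotient.mk (sp (1 - ii hR)) (vv p)) ⟨?_, ?_⟩
      _ _ ?_
    · intro p p' hpp
      have h1 : vv p - vv p' ∈ sp (1 - ii hR) := (Ideal.Quotient.mk_eq_mk_iff_sub_mem _ _).mp hpp
      fin_cases p <;> fin_cases p' <;> simp only [Fin.zero_eta, Fin.mk_one, v0, v1,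
        mkz_sub] at h1 ⊢ <;> have h2 := (mem _ _).mp h1 <;> omega
    · intro x
      obtain ⟨a, b, hab⟩ := exists_xy hR x.out
      have h1 : Ideal.Quotient.mk (sp (1 - ii hR)) x.out = x := Ideal.Quotient.mk_out x
      rcases Int.emod_two_eq_zero_or_one (a + b) with ha | ha
      · refine ⟨0, ?_⟩
        simp only
        rw [← h1, Ideal.Quotient.mk_eq_mk_iff_sub_mem, v0, hab, mkz_sub]
        exact (mem _ _).mpr (by omega)
      · refine ⟨1, ?_⟩
        simp only
        rw [← h1, Ideal.Quotient.mk_eq_mk_iff_sub_mem, v1, hab, mkz_sub]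
        exact (mem _ _).mpr (by omega)
    · intro p
      refine hper _ _ ?_
      have := (sp (1 - ii hR)).neg_mem (mk_out_sub (1 - ii hR) (vv p))
      rwa [neg_sub] at this
  rw [← key, Fin.sum_univ_two]
  rfl

/-- the classes modulo `m D` -/
lemma sum_crt' {m D d : R} (hd : D = 1 + m * d) [Fintype (R ⧸ sp D)] [Fintype (R ⧸ sp m)]
    [Fintype (R ⧸ sp (m * D))] (h : R → ℂ)
    (hper : ∀ a b : R, a - b ∈ sp (m * D) → h a = h b) :
    ∑ x : R ⧸ sp (m * D), h x.out =
      ∑ u : R ⧸ sp m, ∑ w : R ⧸ sp D, h (D * u.out + m * w.out) := by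
  rw [← Fintype.sum_prod_type
    (f := fun z : (R ⧸ sp m) × (R ⧸ sp D) => h (D * z.1.out + m * z.2.out))]
  symm
  refine Fintype.sum_bijective (fun z : (R ⧸ sp m) × (R ⧸ sp D) =>
    Ideal.Quotient.mk (sp (m * D)) (D * z.1.out + m * z.2.out)) ⟨?_, ?_⟩ _ _ ?_
  · rintro ⟨u, w⟩ ⟨u', w'⟩ h1
    have h2 : (D * u.out + m * w.out) - (D * u'.out + m * w'.out) ∈ sp (m * D) :=
      (Ideal.Quotient.mk_eq_mk_iff_sub_mem _ _).mp h1
    have hu : u = u' := by
      refine eq_of_out ?_
      have h3 := (sp m).sub_mem (mem_sp_mul_left h2)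
        ((sp m).mul_mem_right (w.out - w'.out + d * (u.out - u'.out))
          (Ideal.mem_span_singleton_self m))
      convert h3 using 1
      linear_combination (-(u.out - u'.out)) * hd
    have hw : w = w' := by
      refine eq_of_out ?_
      have h3 := (sp D).sub_mem ((sp D).mul_mem_right (w.out - w'.out + d * (u.out - u'.out))
          (Ideal.mem_span_singleton_self D))
        ((sp D).mul_mem_left d (mem_sp_mul_right h2))
      convert h3 using 1
      linear_combination (-(w.out - w'.out)) * hd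
    rw [hu, hw]
  · intro x
    set y := x.out with hy
    have h1 := mk_out_sub m y
    have h2 := mk_out_sub D (-d * y)
    rw [Ideal.mem_span_singleton'] at h1 h2
    obtain ⟨a, ha⟩ := h1
    obtain ⟨b, hb⟩ := h2
    refine ⟨(Ideal.Quotient.mk (sp m) y, Ideal.Quotient.mk (sp D) (-d * y)), ?_⟩
    simp only
    have h3 : Ideal.Quotient.mk (sp (m * D)) x.out = x := Ideal.Quotient.mk_out x
    conv_rhs => rw [← h3]
    rw [Ideal.Quotient.mk_eq_mk_iff_sub_mem, Ideal.mem_span_singleton', ← hy]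
    refine ⟨a + b, ?_⟩
    linear_combination D * ha + m * hb - y * hd
  · rintro ⟨u, w⟩
    refine hper _ _ ?_
    have := (sp (m * D)).neg_mem (mk_out_sub (m * D) (D * u.out + m * w.out))
    rwa [neg_sub] at this

/-- the nonvanishing of the central value follows from that of the finite sum -/
theorem nonvanI (hbasic : H_BASIC) (hfp : H_FP) (hcnt : H_CNT) (hdec : H_DEC) (hafe : H_AFE)
    {L : PeriodPair} {Ω q : ℂ} (hL : IsLat L R Ω) (hCM : H667R3.CM L)
    (hq : ∀ l ∈ L.lattice, eta L l = 0 * l + q * (starRingEnd ℂ) l)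
    {D : R} (hD : Pri D) {e : ℕ}
    {θ : Ideal R → ℂ} (hθ : HC (2 * e + 1) (sp (4 * D)) θ) {χ : R → ℤ}
    (hχ : ∀ r : R, r - 1 ∈ sp (ff hR) → θ (sp r) = (kI r * ((χ r : ℤ) : ℂ)) * (r : ℂ) ^ (2 * e + 1))
    (hper : ∀ r s : R, r - s ∈ sp D → χ r = χ s) (hmul : ∀ r s : R, χ (r * s) = χ r * χ s)
    (hf2 : χ 4 ≠ 0)
    (hne : Ts (fun D r : R => Dx L q Ω 1 e D r) D (fun r => ((χ r : ℤ) : ℂ)) ≠ 0) :
    ∃ F : ℂ → ℂ, Differentiable ℂ F ∧
      (∀ z : ℂ, ((e + 1 : ℕ) : ℝ) + 1 / 2 < z.re →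
        HasSum (fun J : Ideal R => θ J * (nm J : ℂ) ^ (-z)) (F z)) ∧
      F ((e + 1 : ℕ) : ℂ) ≠ 0 := by
  classical
  have hD0 := hD.ne hR
  have hDC := coe_ne hD0
  set μ : R := 4 * D with hμdef
  have hμ : μ ≠ 0 := mul_ne_zero four_ne' hD0
  have hμC := coe_ne hμ
  have hQR := qr hR
  have hpi0 : (1 - ii hR) ≠ 0 := by
    intro h
    have := four_ff hR
    rw [h, mul_zero] at this
    exact four_ne' this
  obtain ⟨b1, b2, b3, b4, b5, b6, b7, -, -⟩ := hbasic R I hQR
  have hspne : sp μ ≠ ⊥ := by rwa [Ne, Ideal.span_singleton_eq_bot]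
  have := b1 (sp μ) hspne
  have := Fintype.ofFinite (R ⧸ sp μ)
  have := b1 (sp D) (by rwa [Ne, Ideal.span_singleton_eq_bot])
  have := Fintype.ofFinite (R ⧸ sp D)
  have := b1 (sp (1 - ii hR)) (by rw [Ne, Ideal.span_singleton_eq_bot]; exact hpi0)
  have := Fintype.ofFinite (R ⧸ sp (1 - ii hR))
  have := b1 (sp ((1 - ii hR) * D)) (by
    rw [Ne, Ideal.span_singleton_eq_bot]; exact mul_ne_zero hpi0 hD0)
  have := Fintype.ofFinite (R ⧸ sp ((1 - ii hR) * D))
  obtain ⟨T, hS⟩ := sys_one hR hμ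
  obtain ⟨F, hF1, hF2, hF3⟩ := lim_LK hbasic hfp hcnt hdec hafe hQR hθ hS
  refine ⟨F, hF1, hF2, fun hF0 => ?_⟩
  have hffμ : ∀ {a : R}, a ∈ sp μ → a ∈ sp (ff hR) := fun h => mem_four_ff hR (mem_sp_mul_left h)
  have hqt : sp μ ≠ ⊤ := by
    intro h
    refine one_notMem hR (hffμ ?_)
    rw [h]
    exact Submodule.mem_top
  obtain ⟨f1, f2', f3, f4, f5⟩ := hfp R I hQR (2 * e + 1) (sp μ) θ hθ hqt
  have hθ1 : θ ⊤ = 1 := by
    have h1 := hθ.princ 1 one_ne_zero (by rw [sub_self]; exact (sp _).zero_mem)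
    have h2 : sp (1 : R) = ⊤ := Ideal.span_singleton_one
    rw [h2] at h1
    rw [h1]
    have h3 : ((1 : R) : ℂ) = 1 := rfl
    rw [h3, one_pow]
  have hnm : nm (⊤ : Ideal R) = 1 := (b7 ⊤).mpr rfl
  rw [hF0, map_zero, mul_zero] at hF3
  have hlim : Tendsto (fun δ : ℝ => SK e (ck e θ ⊤) δ) (𝓝[>] 0) (𝓝 0) := by
    refine hF3.congr fun δ => ?_
    rw [Finset.sum_singleton, hθ1, hnm]
    simp
  set c : R → ℂ := ck e θ ⊤ with hc
  have hcv : ∀ r : R, c r = (starRingEnd ℂ) (fp (2 * e + 1) θ r) := by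
    intro r
    rw [hc]
    unfold ck
    rw [if_pos Submodule.mem_top]
  have hcper : ∀ a b : R, a - b ∈ sp μ → c a = c b := by
    intro a b h
    rw [hcv, hcv, f5 a b h]
  have hc0' : ∀ r : R, ¬ IsCoprime (sp r) (sp μ) → c r = 0 := by
    intro r h
    rw [hcv, (f3 r).mpr h, map_zero]
  have hc0 : ∀ a ∈ sp μ, c a = 0 := by
    intro a ha
    refine hc0' a fun h => hqt ?_
    have h1 : sp a ≤ sp μ := (Ideal.span_singleton_le_iff_mem _).mpr ha
    have h2 := Ideal.isCoprime_iff_sup_eq.mp h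
    rwa [sup_eq_right.mpr h1] at h2
  have hc1 : ∀ a : R, ‖c a‖ ≤ 1 := by
    intro a
    by_cases h : IsCoprime (sp a) (sp μ)
    · rw [hcv, RCLike.norm_conj, f4 a h]
    · rw [hc0' a h, norm_zero]
      exact zero_le_one
  have hval := value hCM hq hbasic hQR hL e μ hμ c hcper hc0 hc1 hlim
  have hΩ := hL.ne
  have hκ : gg e ((starRingEnd ℂ) ((μ : ℂ) / Ω)) ((μ : ℂ) / Ω) ≠ 0 := by
    have h : (μ : ℂ) / Ω ≠ 0 := div_ne_zero hμC hΩ
    unfold gg
    exact mul_ne_zero (pow_ne_zero _ ((map_ne_zero _).2 h)) (pow_ne_zero _ (inv_ne_zero h))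
  have hqe : (q ^ e)⁻¹ ≠ 0 := inv_ne_zero (pow_ne_zero _ (q_ne hq))
  have hs : ∑ x : R ⧸ sp μ, c x.out * ek L 0 q e (Ω * x.out / μ) = 0 := by
    have h1 := (mul_eq_zero.1 hval.symm).resolve_left hκ
    exact (mul_eq_zero.1 h1).resolve_left hqe
  -- the invariance
  have hinv : ∀ r, c (ii hR * r) * ek L 0 q e (Ω * ((ii hR * r : R) : ℂ) / μ) =
      c r * ek L 0 q e (Ω * r / μ) := by
    intro r
    by_cases hr : r ∈ sp μ
    · rw [hc0 r hr, hc0 _ ((sp μ).mul_mem_left _ hr), zero_mul, zero_mul]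
    · have hz : Ω * r / μ ∉ L.lattice := fun h => hr ((lat_dm_iff hL μ hμ _).1 h)
      have e1 : Ω * ((ii hR * r : R) : ℂ) / μ = I * (Ω * r / μ) := by
        push_cast
        rw [ii_coe]
        ring
      have e2 : θ (sp (ii hR)) = 1 := by
        have h1 : sp (ii hR) = ⊤ := by
          have := sp_ii hR 1 (1 : R)
          rw [pow_one, mul_one] at this
          rw [this]
          exact Ideal.span_singleton_one
        rw [h1, hθ1]
      rw [e1, ek_I hCM e hz, hcv, hcv, f2', map_mul]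
      have e3 : (starRingEnd ℂ) (fp (2 * e + 1) θ (ii hR)) * (-I) ^ (2 * e + 1) = 1 := by
        unfold fp
        rw [e2, ii_coe, map_div₀, map_one, map_pow, Complex.conj_I, one_div]
        exact inv_mul_cancel₀ (pow_ne_zero _ (neg_ne_zero.mpr Complex.I_ne_zero))
      linear_combination ((starRingEnd ℂ) (fp (2 * e + 1) θ r) * ek L 0 q e (Ω * r / μ)) * e3
  set g : R → ℂ := fun r => c r * ek L 0 q e (Ω * r / μ) with hg
  have hgper : ∀ a b : R, a - b ∈ sp μ → g a = g b := by
    intro a b hab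
    simp only [hg]
    by_cases hb : b ∈ sp μ
    · have ha : a ∈ sp μ := by
        have := (sp μ).add_mem hab hb
        rwa [sub_add_cancel] at this
      rw [hc0 a ha, hc0 b hb, zero_mul, zero_mul]
    · rw [hcper a b hab]
      congr 1
      have hz : Ω * b / μ ∉ L.lattice := fun h => hb ((lat_dm_iff hL μ hμ _).1 h)
      refine ek_per hq e hz ?_
      have := (lat_dm_iff hL μ hμ (a - b)).2 hab
      convert this using 1
      push_cast
      ring
  have hμ2 : μ = ff hR * ((1 - ii hR) * D) := by rw [hμdef, four_ff hR]; ring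
  have hDff := hD.ff hR
  have hself : ∀ r : R, ff hR * r ∈ sp (ff hR) := fun r =>
    (sp (ff hR)).mul_mem_right r (Ideal.mem_span_singleton_self _)
  -- the values
  have gval : ∀ (x : ℤ) (w : R), (x = 0 ∨ x = 1) →
      g (D + ff hR * (D * mkz hR x 0 + (1 - ii hR) * w)) =
      kI D * ((χ 4 : ℤ) : ℂ) * (((χ w : ℤ) : ℂ) * ((if Even x then (1 : ℂ) else -1) *
        ek L 0 q e (1 * (Ω / 4) + (x : ℂ) * uu Ω + Ω * w / D))) := by
    intro x w hx01
    set r : R := D + ff hR * (D * mkz hR x 0 + (1 - ii hR) * w) with hr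
    have hr1 : r - 1 ∈ sp (ff hR) := by
      have := (sp (ff hR)).add_mem hDff (hself (D * mkz hR x 0 + (1 - ii hR) * w))
      convert this using 1
      rw [hr]
      ring
    have hr0 : r ≠ 0 := by
      intro h
      rw [h, zero_sub] at hr1
      have := (sp (ff hR)).neg_mem hr1
      rw [neg_neg] at this
      exact one_notMem hR this
    have hu1 : (1 + ff hR * mkz hR x 0) - 1 ∈ sp (ff hR) := by
      rw [add_sub_cancel_left]
      exact hself _
    have h7 : kI r = kI D * (if Even x then (1 : ℂ) else -1) := by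
      rw [kI_per hR hbasic hr1 (β := D * (1 + ff hR * mkz hR x 0)), kI_mul hR hbasic hDff hu1,
        kI_eq hR hbasic (x := x) (y := 0) rfl, add_zero]
      have : r - D * (1 + ff hR * mkz hR x 0) = w * 4 := by
        rw [hr]
        linear_combination (-w) * four_ff hR
      rw [this]
      exact (sp (4 : R)).mul_mem_left w (Ideal.mem_span_singleton_self _)
    have h8 : χ r = χ 4 * χ w := by
      rw [← hmul]
      refine hper _ _ ?_
      have : r - 4 * w = D * (1 + ff hR * mkz hR x 0) := by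
        rw [hr]
        linear_combination (-w) * four_ff hR
      rw [this]
      exact (sp D).mul_mem_right _ (Ideal.mem_span_singleton_self _)
    have h9 : c r = kI r * ((χ r : ℤ) : ℂ) := by
      rw [hcv]
      unfold fp
      rw [hχ _ hr1, mul_div_cancel_right₀ _ (pow_ne_zero _ (coe_ne hr0)), map_mul, kI_conj,
        map_intCast]
    have h10 : Ω * (r : ℂ) / μ = 1 * (Ω / 4) + (x : ℂ) * uu Ω + Ω * w / D := by
      have h2 : ((4 : R) : ℂ) = 4 := rfl
      have h3 : (r : ℂ) = D + (2 + 2 * I) * (D * x) + 4 * w := by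
        rw [hr]
        push_cast
        rw [ff_coe, mkz_coe, ii_coe]
        push_cast
        linear_combination (-2 * (w : ℂ)) * Complex.I_sq
      rw [h3, hμdef]
      push_cast
      rw [h2]
      unfold uu
      field_simp
      ring
    simp only [hg]
    rw [h9, h7, h8, h10]
    push_cast
    ring
  have hs' : rs μ g = 0 := by rw [rs_eq]; exact hs
  rw [hμ2] at hs'
  rw [hμ2] at hgper
  have := b1 (sp (ff hR * ((1 - ii hR) * D))) (by rw [← hμ2]; exact hspne)
  have := Fintype.ofFinite (R ⧸ sp (ff hR * ((1 - ii hR) * D)))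
  obtain ⟨d0, hd0⟩ := hD.form hR
  have hd : D = 1 + (1 - ii hR) * (ii hR * 2 * d0) := by
    rw [hd0]
    unfold ff
    linear_combination (2 * d0) * ii_sq hR
  rw [rs_eq, sum_four' hR hDff g hgper hinv] at hs'
  · have h4 : (4 : ℂ) ≠ 0 := by norm_num
    have h5 := (mul_eq_zero.1 hs').resolve_left h4
    rw [sum_crt' hd (fun y => g (D + ff hR * y)) (fun a b hab => hgper _ _ (by
      have := mul_mem_sp (D := ff hR) hab
      convert this using 1
      ring)), Finset.sum_comm] at h5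
    have h6 : ∀ w : R ⧸ sp D, ∑ u : R ⧸ sp (1 - ii hR),
        g (D + ff hR * (D * u.out + (1 - ii hR) * w.out)) =
        kI D * ((χ 4 : ℤ) : ℂ) * (((χ w.out : ℤ) : ℂ) * Dx L q Ω 1 e D w.out) := by
      intro w
      rw [sum_pi hR (fun u => g (D + ff hR * (D * u + (1 - ii hR) * w.out))) (fun a b hab =>
        hgper _ _ (by
        have h7 : a - b ∈ sp (1 - ii hR) := hab
        have h8 := mul_mem_sp (D := ff hR) (mul_mem_sp' (p := D) h7)
        convert h8 using 1
        ring))]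
      have m0 : (0 : R) = mkz hR 0 0 := by unfold mkz; push_cast; ring
      have g0 := gval 0 w.out (Or.inl rfl)
      have g1 := gval 1 w.out (Or.inr rfl)
      rw [← m0] at g0
      rw [← mkz_one hR] at g1
      rw [g0, g1, Dx_eq, if_pos (by decide : Even (0 : ℤ)),
        if_neg (by decide : ¬ Even (1 : ℤ))]
      have a0 : 1 * (Ω / 4) + ((0 : ℤ) : ℂ) * uu Ω + Ω * w.out / D =
          1 * (Ω / 4) + Ω * w.out / D := by push_cast; ring
      have a1 : 1 * (Ω / 4) + ((1 : ℤ) : ℂ) * uu Ω + Ω * w.out / D =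
          1 * (Ω / 4) + uu Ω + Ω * w.out / D := by push_cast; ring
      rw [a0, a1]
      ring
    rw [Finset.sum_congr rfl (fun w _ => h6 w), ← Finset.mul_sum] at h5
    apply hne
    unfold Ts
    rw [rs_eq]
    refine (mul_eq_zero.1 h5).resolve_left (mul_ne_zero ?_ ?_)
    · exact left_ne_zero_of_mul_eq_one (kI_sq D)
    · exact_mod_cast hf2
  · intro r hr
    have : c r = 0 := by
      refine hc0' r fun h => hr ?_
      have h1 : sp μ = sp (4 : R) * sp D := (Ideal.span_singleton_mul_span_singleton _ _).symm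
      rw [h1] at h
      exact (cop_four hR _).mp h.of_mul_right_left
    simp only [hg]
    rw [this, zero_mul]

end Pool.Agent.Helper26K9.XI
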