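import Pool.Agent.Helper26K9.XI.Val

/-!
# The sums of the values at the points `Ω / 4 ± Q` for odd indices
-/

set_option autoImplicit false
set_option linter.unusedSectionVars false
set_option linter.unusedSimpArgs false

open scoped PeriodPair

namespace Pool.Agent.Helper26K9.XI

open H667R3 Pool.Agent.TH936.CW MvPolynomial Pool.Agent.Y690.NV
open Pool.Agent.Y690.AW (H2 sl tr N1 two_lt v_j v_one_add_j)
open Pool.Agent.Helper26K9.XO (N1_inv rho_ne lt_pow le_mul_of v_add_le v_add_lt v_mul_le N1_eta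
  N1_sig)
open Complex (I)

section val

variable {Γ : Type*} [LinearOrderedCommGroupWithZero Γ] {v : Valuation ℂ Γ} {ρ : ℂ}
  (hρ : ρ ^ 4 = 2) (hr : v ρ < 1)

lemma v_sub_le {a b : ℂ} {g : Γ} (ha : v a ≤ g) (hb : v b ≤ g) : v (a - b) ≤ g :=
  (v.map_sub _ _).trans (max_le ha hb)

lemma pow_sub_le {x y : ℂ} (hx : v x ≤ 1) (hy : v y ≤ 1) (k : ℕ) :
    v (x ^ k - y ^ k) ≤ v (x - y) := by
  induction k with
  | zero => rw [pow_zero, pow_zero, sub_self, map_zero]; exact zero_le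
  | succ k ih =>
    have e : x ^ (k + 1) - y ^ (k + 1) = x * (x ^ k - y ^ k) + (x - y) * y ^ k := by
      rw [pow_succ, pow_succ]; ring
    rw [e]
    refine v_add_le ?_ ?_
    · rw [map_mul]
      exact (mul_le_of_le_one_left' hx).trans ih
    · rw [map_mul, map_pow]
      exact mul_le_of_le_one_right' (pow_le_one' hy k)

/-- the coordinates of `T + Q` -/
theorem coordsT {L : PeriodPair} {q : ℂ} (g2 : L.g₂ = -1) {T Q : ℂ} (hT : TP L q 1 T)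
    (hQ : Q ∉ L.lattice) (h1 : T + Q ∉ L.lattice) (h2 : T - Q ∉ L.lattice) {c : ℂ}
    (hc : c * (Xi L Q - 1) = 1) :
    Xi L (T + Q) = 1 + 4 * c ^ 2 * (Xi L Q + ℘'[L] Q) ∧
    2 * E1 L 0 q (T + Q) = 1 + 2 * E1 L 0 q Q + 2 * c * (1 + ℘'[L] Q) ∧
    ℘'[L] (T + Q) = -((1 + 2 * c) * ((1 + 2 * c) ^ 2 + 4 * ℘'[L] Q * c ^ 2)) := by
  have hne : Xi L Q - 1 ≠ 0 := by
    intro h
    rw [h, mul_zero] at hc
    exact zero_ne_one hc
  have hcc : 1 / (Xi L Q - 1) = c := by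
    rw [div_eq_iff hne]
    exact hc.symm
  have a1 := evU_ps g2 (Or.inl rfl) hT hQ h1 h2 vX
  have a2 := evU_ps g2 (Or.inl rfl) hT hQ h1 h2 vE
  have a3 := evU_ps g2 (Or.inl rfl) hT hQ h1 h2 vY
  rw [evU_X, ps_X] at a1
  rw [evU_E, ps_E] at a2
  rw [evU_Y, ps_Y] at a3
  have h0 : Xx L 0 q ((starRingEnd ℂ) (T + Q)) (T + Q) = E1 L 0 q (T + Q) := rfl
  rw [h0] at a2
  unfold pX aB aX aH aT pt at a1
  unfold pE aE aH aT pt at a2
  unfold pY aB aH aT pt at a3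
  simp only [map_add, map_mul, map_pow, map_one, map_ofNat, eval_X, eval_C, map_neg] at a1 a2 a3
  simp only [Matrix.cons_val] at a1 a2 a3
  refine ⟨?_, ?_, ?_⟩
  · have e0 : Xi L (T + Q) = 2 * ℘[L] (T + Q) := rfl
    rw [e0, a1, hcc]
    ring
  · rw [a2, hcc]
    ring
  · have a4 : ℘'[L] (T + Q) = 2 * (℘'[L] (T + Q) / 2) := by ring
    rw [a4, a3, hcc]
    ring

/-- the algebraic core -/
structure Core (ρ σ ξ η ε x x' e e' y y' : ℂ) : Prop where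
  x1 : x = 1 + ρ ^ 2 * σ ^ 2 * (ξ + η)
  x2 : x' = 1 + ρ ^ 2 * σ ^ 2 * (ξ - η)
  e1 : e = 1 + ρ ^ 2 * ε + ρ * σ * (1 + η)
  e2 : e' = 1 - ρ ^ 2 * ε + ρ * σ * (1 - η)
  y1 : y = -((1 + ρ * σ) * ((1 + ρ * σ) ^ 2 + ρ ^ 2 * σ ^ 2 * η))
  y2 : y' = -((1 + ρ * σ) * ((1 + ρ * σ) ^ 2 - ρ ^ 2 * σ ^ 2 * η))
  xx : x * x' = 1

include hρ in
theorem core_of {L : PeriodPair} {q : ℂ} (hL : CM L) (g2 : L.g₂ = -1) {T Q : ℂ} (hT : TP L q 1 T)
    (hQ : OT L Q) (hne : Xi L Q - 1 ≠ 0) :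
    Core ρ (ρ ^ 3 / (Xi L Q - 1)) (Xi L Q) (℘'[L] Q) (ρ ^ 2 * E1 L 0 q Q) (Xi L (T + Q))
      (Xi L (T - Q)) (2 * E1 L 0 q (T + Q)) (2 * E1 L 0 q (T - Q)) (℘'[L] (T + Q))
      (℘'[L] (T - Q)) := by
  have hρ0 := rho_ne hρ
  have h1 := hT.add hQ
  have h2 := hT.sub hQ
  have hcv := curve hL g2 hQ.1
  set c : ℂ := (Xi L Q - 1)⁻¹ with hcd
  have hc : c * (Xi L Q - 1) = 1 := inv_mul_cancel₀ hne
  obtain ⟨a1, a2, a3⟩ := coordsT g2 hT hQ.1 h1 h2 hc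
  have hQn := hQ.neg
  have e0 : Xi L (-Q) = Xi L Q := by unfold Xi; rw [L.weierstrassP_neg]
  obtain ⟨b1, b2, b3⟩ := coordsT g2 hT hQn.1 (by rw [← sub_eq_add_neg]; exact h2)
    (by rw [sub_neg_eq_add]; exact h1) (c := c) (by rw [e0]; exact hc)
  rw [← sub_eq_add_neg, e0, L.derivWeierstrassP_neg] at b1
  rw [← sub_eq_add_neg, L.derivWeierstrassP_neg, E1_neg] at b2
  rw [← sub_eq_add_neg, L.derivWeierstrassP_neg] at b3
  have hs : ρ ^ 3 / (Xi L Q - 1) = ρ ^ 3 * c := by rw [hcd]; exact div_eq_mul_inv _ _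
  rw [hs]
  generalize Xi L Q = ξ at *
  generalize ℘'[L] Q = η at *
  generalize E1 L 0 q Q = ε at *
  have hx : Xi L (T + Q) * Xi L (T - Q) = 1 := by
    rw [a1, b1]
    linear_combination (-(8 * c ^ 4)) * hcv - 8 * c ^ 2 * ξ * (c * (ξ - 1) + 1) * hc
  refine ⟨?_, ?_, ?_, ?_, ?_, ?_, hx⟩
  · rw [a1]
    linear_combination (-(c ^ 2 * (ξ + η) * (ρ ^ 4 + 2))) * hρ
  · rw [b1]
    linear_combination (-(c ^ 2 * (ξ - η) * (ρ ^ 4 + 2))) * hρ
  · rw [a2]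
    linear_combination (-(ε + c * (1 + η))) * hρ
  · rw [b2]
    linear_combination (-(-ε + c * (1 - η))) * hρ
  · rw [a3]
    have e1 : ρ * (ρ ^ 3 * c) = 2 * c := by linear_combination c * hρ
    have e2 : ρ ^ 2 * (ρ ^ 3 * c) ^ 2 = 4 * c ^ 2 := by
      have : ρ ^ 2 * (ρ ^ 3 * c) ^ 2 = (ρ * (ρ ^ 3 * c)) ^ 2 := by ring
      rw [this, e1]; ring
    rw [e1, e2]
    ring
  · rw [b3]
    have e1 : ρ * (ρ ^ 3 * c) = 2 * c := by linear_combination c * hρ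
    have e2 : ρ ^ 2 * (ρ ^ 3 * c) ^ 2 = 4 * c ^ 2 := by
      have : ρ ^ 2 * (ρ ^ 3 * c) ^ 2 = (ρ * (ρ ^ 3 * c)) ^ 2 := by ring
      rw [this, e1]; ring
    rw [e1, e2]
    ring

variable {σ ξ η ε x x' e e' y y' : ℂ}

include hρ hr in
/-- the main estimate -/
theorem core_est (h : Core ρ σ ξ η ε x x' e e' y y') (hσ : N1 v σ) (hξ : N1 v ξ) (hη : N1 v η)
    (hε : v ε ≤ 1) {s s' δ δ' : ℂ} (hs : N1 v s) (hs' : N1 v s') (hs2 : s ^ 2 = -I * x)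
    (hs2' : s' ^ 2 = -I * x') (hδ : s * δ = -(e * y + x ^ 2))
    (hδ' : s' * δ' = -(e' * y' + x' ^ 2)) :
    N1 v ((δ + δ') / 2) ∧ v (x * e ^ 2 - x' * e' ^ 2) ≤ v ρ ^ 5 := by
  have h2 := two_lt hρ hr
  have hρ0 := rho_ne hρ
  have hp := rho_pos (v := v) hρ
  have vσ := hσ.val.le
  have vξ := hξ.val.le
  have vη := hη.val.le
  have hk : ∀ (k : ℕ) (w : ℂ), v w ≤ 1 → v (ρ ^ k * w) ≤ v ρ ^ k := by
    intro k w hw
    rw [map_mul, map_pow]
    exact mul_le_of_le_one_right' hw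
  have hρk : ∀ k : ℕ, v (ρ ^ k) ≤ 1 := fun k => by rw [map_pow]; exact pow_le_one' hr.le k
  have v1 : v (1 : ℂ) ≤ 1 := by rw [map_one]
  have v21 : v (2 : ℂ) ≤ 1 := h2.le
  have v31 : v (3 : ℂ) ≤ 1 := by exact_mod_cast v_nat v 3
  have v41 : v (4 : ℂ) ≤ 1 := by exact_mod_cast v_nat v 4
  have vρ : v ρ ≤ 1 := hr.le
  have hle : ∀ k : ℕ, 5 ≤ k → v ρ ^ k ≤ v ρ ^ 5 := fun k hk => pow_le_pow_right_of_le_one' hr.le hk
  have pw : ∀ (w : ℂ) (n : ℕ), v w ≤ 1 → v (w ^ n) ≤ 1 := fun w n hw => by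
    rw [map_pow]; exact pow_le_one' hw n
  -- integrality
  have vx : v x ≤ 1 := by
    rw [h.x1]
    exact v_add_le v1 (v_mul_le (v_mul_le (hρk 2) (pw _ 2 vσ)) (v_add_le vξ vη))
  have vx' : v x' ≤ 1 := by
    rw [h.x2]
    exact v_add_le v1 (v_mul_le (v_mul_le (hρk 2) (pw _ 2 vσ)) (v_sub_le vξ vη))
  have ve : v e ≤ 1 := by
    rw [h.e1]
    exact v_add_le (v_add_le v1 (v_mul_le (hρk 2) hε)) (v_mul_le (v_mul_le vρ vσ) (v_add_le v1 vη))
  have ve' : v e' ≤ 1 := by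
    rw [h.e2]
    exact v_add_le (v_sub_le v1 (v_mul_le (hρk 2) hε)) (v_mul_le (v_mul_le vρ vσ) (v_sub_le v1 vη))
  have vy : v y ≤ 1 := by
    rw [h.y1, Valuation.map_neg]
    exact v_mul_le (v_add_le v1 (v_mul_le vρ vσ)) (v_add_le (pw _ 2 (v_add_le v1 (v_mul_le vρ vσ)))
      (v_mul_le (v_mul_le (hρk 2) (pw _ 2 vσ)) vη))
  -- the differences
  have dx : v (x - x') ≤ v ρ ^ 5 := by
    have e0 : x - x' = ρ ^ 6 * (σ ^ 2 * η) := by
      rw [h.x1, h.x2]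
      linear_combination (-(ρ ^ 2 * σ ^ 2 * η)) * hρ
    rw [e0]
    exact (hk 6 _ (v_mul_le (pw _ 2 vσ) vη)).trans (hle 6 (by norm_num))
  have de : v (e - e') ≤ v ρ ^ 5 := by
    have e0 : e - e' = ρ ^ 5 * (ρ * ε + σ * η) := by
      rw [h.e1, h.e2]
      linear_combination (-(ρ ^ 2 * ε + ρ * σ * η)) * hρ
    rw [e0]
    exact hk 5 _ (v_add_le (v_mul_le vρ hε) (v_mul_le vσ vη))
  have dy : v (y - y') ≤ v ρ ^ 5 := by
    have e0 : y - y' = ρ ^ 5 * (-(ρ * ((1 + ρ * σ) * (σ ^ 2 * η)))) := by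
      rw [h.y1, h.y2]
      linear_combination (ρ ^ 2 * ((1 + ρ * σ) * (σ ^ 2 * η))) * hρ
    rw [e0]
    refine hk 5 _ ?_
    rw [Valuation.map_neg]
    exact v_mul_le vρ (v_mul_le (v_add_le v1 (v_mul_le vρ vσ)) (v_mul_le (pw _ 2 vσ) vη))
  have mle : ∀ {a b : ℂ}, v a ≤ v ρ ^ 5 → v b ≤ 1 → v (a * b) ≤ v ρ ^ 5 := by
    intro a b ha hb
    rw [map_mul]
    exact (mul_le_of_le_one_right' hb).trans ha
  refine ⟨?_, ?_⟩
  · -- the second factor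
    set R : ℂ := e * y + x ^ 2 with hR
    set R' : ℂ := e' * y' + x' ^ 2 with hR'
    have dR : v (R' - R) ≤ v ρ ^ 5 := by
      have e0 : R' - R = -((e - e') * y + (y - y') * e' + (x - x') * (x + x')) := by
        rw [hR, hR']; ring
      rw [e0, Valuation.map_neg]
      exact v_add_le (v_add_le (mle de vy) (mle dy ve')) (mle dx (v_add_le vx vx'))
    have n1 : N1 v (R / ρ) := by
      have h1η : v (1 + η) < 1 := by
        have e0 : 1 + η = (η - 1) + 2 := by ring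
        rw [e0]
        exact v_add_lt hη h2
      have e0 : R / ρ = (1 - 3 * (σ - 1) - 4) + (σ * (1 + η) * y + ρ * (ε * y -
          3 * σ ^ 2 - ρ * σ ^ 3 - (1 + ρ * σ) * (σ ^ 2 * η) + 2 * σ ^ 2 * (ξ + η) +
          ρ ^ 2 * (σ ^ 4 * (ξ + η) ^ 2))) := by
        rw [div_eq_iff hρ0, hR]
        have e3 : e * y = y + (ρ ^ 2 * ε + ρ * σ * (1 + η)) * y := by rw [h.e1]; ring
        have e4 : y = -1 - 3 * (ρ * σ) - 3 * (ρ * σ) ^ 2 - (ρ * σ) ^ 3 -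
            (1 + ρ * σ) * (ρ ^ 2 * σ ^ 2 * η) := by rw [h.y1]; ring
        rw [e3, h.x1]
        linear_combination e4
      rw [e0]
      have n0 : N1 v (1 - 3 * (σ - 1) - 4) := by
        have e5 : (1 : ℂ) - 3 * (σ - 1) - 4 = 1 + -(3 * (σ - 1) + 2 * 2) := by ring
        rw [e5]
        refine Pool.Agent.Y690.AW.N1.one.add ?_
        rw [Valuation.map_neg]
        refine v_add_lt ?_ ?_
        · rw [map_mul, mul_comm]
          exact mul_lt_one_of_lt_of_le hσ v31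
        · rw [map_mul]
          exact mul_lt_one_of_lt_of_le h2 v21
      refine n0.add (v_add_lt ?_ ?_)
      · rw [map_mul, map_mul, mul_comm (v σ), mul_assoc]
        exact mul_lt_one_of_lt_of_le h1η (mul_le_one' vσ vy)
      · rw [map_mul]
        refine mul_lt_one_of_lt_of_le hr ?_
        refine v_add_le (v_add_le (v_sub_le (v_sub_le (v_sub_le (v_mul_le hε vy)
          (v_mul_le v31 (pw _ 2 vσ))) (v_mul_le vρ (pw _ 3 vσ))) (v_mul_le (v_add_le v1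
          (v_mul_le vρ vσ)) (v_mul_le (pw _ 2 vσ) vη))) (v_mul_le (v_mul_le v21 (pw _ 2 vσ))
          (v_add_le vξ vη))) ?_
        exact v_mul_le (hρk 2) (v_mul_le (pw _ 4 vσ) (pw _ 2 (v_add_le vξ vη)))
    -- the sum of the slopes
    have hm : (s * s') ^ 2 = -1 := by
      have : (s * s') ^ 2 = s ^ 2 * s' ^ 2 := by ring
      rw [this, hs2, hs2']
      linear_combination (x * x') * Complex.I_sq - h.xx
    have hm2 : s * s' = I ∨ s * s' = -I := by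
      have : (s * s' - I) * (s * s' + I) = 0 := by
        linear_combination hm - Complex.I_sq
      rcases mul_eq_zero.mp this with h3 | h3
      · exact Or.inl (by linear_combination h3)
      · exact Or.inr (by linear_combination h3)
    have n2 : N1 v ((s + s') / ρ ^ 3) := by
      refine Pool.Agent.Y690.AW.N1.of_sq h2 ?_
      have e6 : (s + s') ^ 2 = -(2 * I) - 2 * I * (ρ ^ 2 * σ ^ 2 * ξ) + 2 * (s * s') := by
        have : (s + s') ^ 2 = s ^ 2 + s' ^ 2 + 2 * (s * s') := by ring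
        rw [this, hs2, hs2', h.x1, h.x2]
        ring
      have nm : N1 v (-I * (σ ^ 2 * ξ)) := (N1_negI hρ hr).mul ((hσ.pow 2).mul hξ)
      rw [div_pow, e6]
      rcases hm2 with h3 | h3
      · have e7 : (-(2 * I) - 2 * I * (ρ ^ 2 * σ ^ 2 * ξ) + 2 * (s * s')) / (ρ ^ 3) ^ 2 =
            -I * (σ ^ 2 * ξ) := by
          rw [h3, div_eq_iff (pow_ne_zero _ (pow_ne_zero _ hρ0))]
          linear_combination (I * (ρ ^ 2 * σ ^ 2 * ξ)) * hρ
        rw [e7]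
        exact nm
      · have e7 : (-(2 * I) - 2 * I * (ρ ^ 2 * σ ^ 2 * ξ) + 2 * (s * s')) / (ρ ^ 3) ^ 2 =
            -I * (σ ^ 2 * ξ) + ρ ^ 2 * -I := by
          rw [h3, div_eq_iff (pow_ne_zero _ (pow_ne_zero _ hρ0))]
          linear_combination (I * (ρ ^ 2 * σ ^ 2 * ξ) + I * (ρ ^ 4 + 2)) * hρ
        rw [e7]
        refine nm.add ?_
        rw [map_mul, map_pow]
        exact mul_lt_one_of_lt_of_le (pow_lt_one' hr (by norm_num)) (N1_negI hρ hr).val.le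
    have hs0 : s ≠ 0 := by
      intro h0
      have := hs.val
      rw [h0, map_zero] at this
      exact zero_ne_one this
    have hs0' : s' ≠ 0 := by
      intro h0
      have := hs'.val
      rw [h0, map_zero] at this
      exact zero_ne_one this
    have e8 : (δ + δ') / 2 = -((R / ρ * ((s + s') / ρ ^ 3) + (R' - R) / ρ ^ 4 * s) *
        (s⁻¹ * s'⁻¹)) := by
      have d1 : δ = -R * s⁻¹ := by
        field_simp
        linear_combination hδ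
      have d2 : δ' = -R' * s'⁻¹ := by
        field_simp
        linear_combination hδ'
      rw [d1, d2, ← hρ]
      field_simp
      ring
    rw [e8]
    refine Pool.Agent.Y690.AW.N1.neg h2 (((n1.mul n2).add ?_).mul ((N1_inv hs).mul (N1_inv hs')))
    rw [map_mul, hs.val, mul_one, map_div₀, map_pow, div_lt_one₀ (pow_pos hp 4)]
    exact dR.trans_lt (lt_pow hρ hr (by norm_num))
  · have e0 : x * e ^ 2 - x' * e' ^ 2 = (x - x') * e ^ 2 + (e - e') * ((e + e') * x') := by ring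
    rw [e0]
    exact v_add_le (mle dx (pw _ 2 ve)) (mle de (v_mul_le (v_add_le ve ve') vx'))

include hρ hr in
/-- **the pair** -/
theorem odd_pair {L : PeriodPair} {q : ℂ} (hL : CM L) (g2 : L.g₂ = -1)
    (hq : ∀ l ∈ L.lattice, eta L l = 0 * l + q * (starRingEnd ℂ) l) {u T Q z z' : ℂ}
    (hu : H2 L q u 0) (hT : TP L q 1 T) (hQ : OT L Q) (hz : 2 * z ∉ L.lattice)
    (hz' : 2 * z' ∉ L.lattice) (h1 : (1 + I) * z = I * (T + Q)) (h2 : (1 + I) * z' = I * (T - Q))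
    (k : ℕ) : N1 v ((ev5 ρ (pi4 L q z) (Hs (2 * k + 1)) +
      ev5 ρ (pi4 L q z') (Hs (2 * k + 1))) / 2) := by
  have h22 := two_lt hρ hr
  have hξ3 := Xi_sub (v := v) hL g2 hρ hr hQ
  have hp := rho_pos (v := v) hρ
  have hne : Xi L Q - 1 ≠ 0 := by
    intro h0
    rw [h0, map_zero] at hξ3
    exact (pow_pos hp 3).ne hξ3
  have hcore := core_of (ρ := ρ) hρ hL g2 hT hQ hne
  have hσ := N1_sig (v := v) hL g2 hρ hr hQ
  have hη := N1_eta (v := v) hL g2 hρ hr hQ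
  have hε := E1_le (v := v) hL g2 hρ hr hq hQ
  have hξ : N1 v (Xi L Q) := by
    unfold Pool.Agent.Y690.AW.N1
    rw [hξ3]
    exact pow_lt_one' hr (by norm_num)
  obtain ⟨a1, a2⟩ := Pool.Agent.Y690.AW.near_add (v := v) hρ hr hL g2 hq hT hQ
  obtain ⟨b1, b2⟩ := Pool.Agent.Y690.AW.near_add (v := v) hρ hr hL g2 hq hT hQ.neg
  rw [← sub_eq_add_neg] at b1 b2
  have nd := nd_of hρ hr hL g2 hu hz h1 a1 a2
  have nd' := nd_of hρ hr hL g2 hu hz' h2 b1 b2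
  obtain ⟨c1, c2, c3⟩ := coords (q := q) hL g2 hz h1
  obtain ⟨c1', c2', c3'⟩ := coords (q := q) hL g2 hz' h2
  have hδe : ∀ w : Fin 4 → ℂ, ev5 ρ w zδ = w 0 * w 3 + w 1 ^ 3 := by
    intro w
    unfold zδ
    rw [map_add, map_mul, map_pow, ev5_a, ev5_b, ev5_s]
    linear_combination (w 0 * w 3 / 2) * hρ
  have hqe : ∀ w : Fin 4 → ℂ, ev5 ρ w zq = 2 * (w 1 ^ 2 * w 0 ^ 2) := by
    intro w
    unfold zq
    rw [map_pow, map_mul, ev5_s, ev5_a]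
    linear_combination (w 1 ^ 2 * w 0 ^ 2) * hρ
  set w := pi4 L q z with hw
  set w' := pi4 L q z' with hw'
  have w0 : w 0 = 2 * E1 L 0 q z + sl L 0 z := rfl
  have w1 : w 1 = sl L 0 z := rfl
  have w3 : w 3 = 2 * ℘[L] z - sl L 0 z ^ 2 := rfl
  have w0' : w' 0 = 2 * E1 L 0 q z' + sl L 0 z' := rfl
  have w1' : w' 1 = sl L 0 z' := rfl
  have w3' : w' 3 = 2 * ℘[L] z' - sl L 0 z' ^ 2 := rfl
  replace c1 : w 1 ^ 2 = -I * Xi L (T + Q) := c1
  replace c2 : w 0 = (1 - I) * E1 L 0 q (T + Q) := c2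
  replace c3 : w 1 * w 3 = -(1 + I) * ℘'[L] (T + Q) := c3
  replace c1' : w' 1 ^ 2 = -I * Xi L (T - Q) := c1'
  replace c2' : w' 0 = (1 - I) * E1 L 0 q (T - Q) := c2'
  replace c3' : w' 1 * w' 3 = -(1 + I) * ℘'[L] (T - Q) := c3'
  obtain ⟨hp1, hp2⟩ := core_est hρ hr hcore hσ hξ hη hε (s := w 1) (s' := w' 1)
    (δ := w 0 * w 3 + w 1 ^ 3) (δ' := w' 0 * w' 3 + w' 1 ^ 3) nd.s nd'.s c1 c1'
    (by
      have e0 : w 1 * (w 0 * w 3 + w 1 ^ 3) = w 0 * (w 1 * w 3) + (w 1 ^ 2) ^ 2 := by ring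
      rw [e0, c2, c3, c1]
      linear_combination (E1 L 0 q (T + Q) * ℘'[L] (T + Q) + Xi L (T + Q) ^ 2) * Complex.I_sq)
    (by
      have e0 : w' 1 * (w' 0 * w' 3 + w' 1 ^ 3) = w' 0 * (w' 1 * w' 3) + (w' 1 ^ 2) ^ 2 := by ring
      rw [e0, c2', c3', c1']
      linear_combination (E1 L 0 q (T - Q) * ℘'[L] (T - Q) + Xi L (T - Q) ^ 2) * Complex.I_sq)
  obtain ⟨iA, -, -⟩ := St_all k
  obtain ⟨a, b, hab⟩ := mem_JJ.mp iA
  have ex : ∀ w : Fin 4 → ℂ, ev5 ρ w (Hs (2 * k + 1)) =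
      2 * ev5 ρ w a - ev5 ρ w zq ^ k * ev5 ρ w zδ := by
    intro w
    have h3 := congrArg (ev5 ρ w) hab
    rw [map_add, map_add, map_mul, map_mul, map_mul, map_pow, ev5_r hρ, map_ofNat] at h3
    linear_combination -h3
  have cq : ev5 ρ w zq = -(Xi L (T + Q) * (2 * E1 L 0 q (T + Q)) ^ 2) := by
    rw [hqe, c1, c2]
    linear_combination (4 * Xi L (T + Q) * E1 L 0 q (T + Q) ^ 2 -
      2 * I * Xi L (T + Q) * E1 L 0 q (T + Q) ^ 2) * Complex.I_sq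
  have cq' : ev5 ρ w' zq = -(Xi L (T - Q) * (2 * E1 L 0 q (T - Q)) ^ 2) := by
    rw [hqe, c1', c2']
    linear_combination (4 * Xi L (T - Q) * E1 L 0 q (T - Q) ^ 2 -
      2 * I * Xi L (T - Q) * E1 L 0 q (T - Q) ^ 2) * Complex.I_sq
  have nq : N1 v (ev5 ρ w zq) := by
    refine N1_of_odd hρ hr nd (m := 0) ?_
    unfold zq
    rw [map_pow, map_mul, c5_s, c5_a]
    norm_num
  have nq' : N1 v (ev5 ρ w' zq) := by
    refine N1_of_odd hρ hr nd' (m := 0) ?_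
    unfold zq
    rw [map_pow, map_mul, c5_s, c5_a]
    norm_num
  have dq : v (ev5 ρ w' zq ^ k - ev5 ρ w zq ^ k) ≤ v ρ ^ 5 := by
    refine (pow_sub_le nq'.val.le nq.val.le k).trans ?_
    rw [cq, cq']
    have e0 : -(Xi L (T - Q) * (2 * E1 L 0 q (T - Q)) ^ 2) -
        -(Xi L (T + Q) * (2 * E1 L 0 q (T + Q)) ^ 2) =
        Xi L (T + Q) * (2 * E1 L 0 q (T + Q)) ^ 2 - Xi L (T - Q) * (2 * E1 L 0 q (T - Q)) ^ 2 := by
      ring
    rw [e0]
    exact hp2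
  have e9 : (ev5 ρ w (Hs (2 * k + 1)) + ev5 ρ w' (Hs (2 * k + 1))) / 2 =
      -(ev5 ρ w zq ^ k * ((w 0 * w 3 + w 1 ^ 3 + (w' 0 * w' 3 + w' 1 ^ 3)) / 2)) +
      (-((ev5 ρ w' zq ^ k - ev5 ρ w zq ^ k) / 2 * ev5 ρ w' zδ) +
        ((ev5 ρ w a - ((eval c5 a : ℤ) : ℂ)) + (ev5 ρ w' a - ((eval c5 a : ℤ) : ℂ)) +
          2 * ((eval c5 a : ℤ) : ℂ))) := by
    rw [ex, ex, hδe, hδe]
    ring
  rw [e9]
  refine (((nq.pow k).mul hp1).neg h22).add (v_add_lt ?_ (v_add_lt (v_add_lt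
    (ev5_res hρ hr nd a) (ev5_res hρ hr nd' a)) ?_))
  · rw [Valuation.map_neg, map_mul, map_div₀]
    refine mul_lt_one_of_lt_of_le ?_ (ev5_le hρ hr nd' zδ)
    have h2p : 0 < v (2 : ℂ) := by rw [v_two hρ]; exact pow_pos hp 4
    rw [div_lt_one₀ h2p, v_two hρ]
    exact dq.trans_lt (lt_pow hρ hr (by norm_num))
  · rw [map_mul]
    exact mul_lt_one_of_lt_of_le h22 (v_int v _)

end val

end Pool.Agent.Helper26K9.XI
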