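import Pool.Agent.Helper26K9.XO.Rec
import Mathlib.LinearAlgebra.Matrix.Adjugate

/-!
# The recursion for the weighted cofactors
-/

set_option autoImplicit false
set_option linter.unusedSectionVars false

namespace Pool.Agent.Helper26K9.XI

open Matrix Pool.Agent.Y690.AW
open Pool.Agent.Helper26K9.XO (rt)

variable {α : Type*} [DecidableEq α] (a : α → α → ZMod 2) (z : α → ZMod 2)

/-- the cofactor -/
def mc (p0 : α) (V : Finset α) : ZMod 2 :=
  (Mx (fun p => z p + rt p0 p) a V).det + (Mx z a V).det

/-- the weighted sum of the cofactors -/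
def fz (V : Finset α) : ZMod 2 := ∑ p0 ∈ V, z p0 * mc a z p0 V

lemma Mx_congr {t t' : α → ZMod 2} {V : Finset α} (h : ∀ p ∈ V, t p = t' p) :
    Mx t a V = Mx t' a V := by
  ext i j
  rw [Mx_apply, Mx_apply, h i i.2]

lemma mc_single (p0 : α) : mc a z p0 {p0} = 1 := by
  unfold mc
  have key : ∀ t : α → ZMod 2, (Mx t a {p0}).det = t p0 := by
    intro t
    have : Mx t a {p0} = Matrix.diagonal (fun _ => t p0) := by
      ext i j
      have hi : (i : α) = p0 := Finset.mem_singleton.mp i.2
      have hj : (j : α) = p0 := Finset.mem_singleton.mp j.2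
      have hij : i = j := Subtype.ext (hi.trans hj.symm)
      subst hij
      rw [Mx_apply, if_pos rfl, Matrix.diagonal_apply_eq, Finset.sum_singleton, hi, add_assoc,
        two_zero, add_zero]
    rw [this, Matrix.det_diagonal, Finset.prod_const]
    have : (Finset.univ : Finset ({p0} : Finset α)).card = 1 := by
      rw [Finset.card_univ, Fintype.card_coe, Finset.card_singleton]
    rw [this, pow_one]
  rw [key, key]
  unfold rt
  rw [if_pos rfl]
  have : z p0 + 1 + z p0 = 1 + (z p0 + z p0) := by ring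
  rw [this, two_zero, add_zero]

lemma fz_single (p0 : α) : fz a z {p0} = z p0 := by
  unfold fz
  rw [Finset.sum_singleton, mc_single, mul_one]

lemma fz_empty : fz a z ∅ = 0 := by
  unfold fz
  rw [Finset.sum_empty]

/-- the recursion for one root -/
lemma mc_rec {p0 : α} {W : Finset α} (h0 : p0 ∈ W) (hW : 2 ≤ W.card) :
    ∑ V ∈ W.powerset.filter (fun V => p0 ∈ V), (∏ p ∈ W \ V, (z p + ∑ l ∈ V, a p l)) *
      mc a z p0 V = 0 := by
  have hne : W.Nonempty := ⟨p0, h0⟩
  have h1 := det_rec (fun p => z p + rt p0 p) a hne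
  have h2 := det_rec z a hne
  have hE : (W.erase p0).Nonempty := by
    rw [← Finset.card_pos, Finset.card_erase_of_mem h0]
    omega
  have h3 := det_rec z a hE
  rw [← Finset.sum_filter_add_sum_filter_not _ (fun V => p0 ∈ V)] at h1 h2
  have e1 : ∑ V ∈ W.powerset.filter (fun V => p0 ∈ V),
      (∏ p ∈ W \ V, ((z p + rt p0 p) + ∑ l ∈ V, a p l)) * (Mx (fun p => z p + rt p0 p) a V).det =
      ∑ V ∈ W.powerset.filter (fun V => p0 ∈ V),
      (∏ p ∈ W \ V, (z p + ∑ l ∈ V, a p l)) * (Mx (fun p => z p + rt p0 p) a V).det := by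
    refine Finset.sum_congr rfl fun V hV => ?_
    rw [Finset.mem_filter, Finset.mem_powerset] at hV
    congr 1
    refine Finset.prod_congr rfl fun p hp => ?_
    rw [Finset.mem_sdiff] at hp
    have : rt p0 p = 0 := by
      unfold rt
      rw [if_neg]
      rintro rfl
      exact hp.2 hV.2
    rw [this, add_zero]
  have e2 : ∑ V ∈ W.powerset.filter (fun V => ¬ p0 ∈ V),
      (∏ p ∈ W \ V, ((z p + rt p0 p) + ∑ l ∈ V, a p l)) * (Mx (fun p => z p + rt p0 p) a V).det =
      ∑ V ∈ W.powerset.filter (fun V => ¬ p0 ∈ V),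
      (∏ p ∈ W \ V, (z p + ∑ l ∈ V, a p l)) * (Mx z a V).det +
      ∑ V ∈ (W.erase p0).powerset,
      (∏ p ∈ (W.erase p0) \ V, (z p + ∑ l ∈ V, a p l)) * (Mx z a V).det := by
    have hf : W.powerset.filter (fun V => ¬ p0 ∈ V) = (W.erase p0).powerset := by
      ext V
      rw [Finset.mem_filter, Finset.mem_powerset, Finset.mem_powerset, Finset.subset_erase]
    rw [hf, ← Finset.sum_add_distrib]
    refine Finset.sum_congr rfl fun V hV => ?_
    rw [Finset.mem_powerset, Finset.subset_erase] at hV
    have hM : Mx (fun p => z p + rt p0 p) a V = Mx z a V := by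
      refine Mx_congr a fun p hp => ?_
      unfold rt
      rw [if_neg, add_zero]
      rintro rfl
      exact hV.2 hp
    rw [hM, ← add_mul]
    congr 1
    have hmem : p0 ∈ W \ V := Finset.mem_sdiff.mpr ⟨h0, hV.2⟩
    have hse : (W \ V).erase p0 = (W.erase p0) \ V := by
      ext x
      simp only [Finset.mem_erase, Finset.mem_sdiff]
      tauto
    rw [← Finset.mul_prod_erase _ _ hmem, ← Finset.mul_prod_erase _ (fun p => z p + ∑ l ∈ V, a p l)
      hmem, hse]
    have e3 : ∏ p ∈ (W.erase p0) \ V, ((z p + rt p0 p) + ∑ l ∈ V, a p l) =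
        ∏ p ∈ (W.erase p0) \ V, (z p + ∑ l ∈ V, a p l) := by
      refine Finset.prod_congr rfl fun p hp => ?_
      rw [Finset.mem_sdiff, Finset.mem_erase] at hp
      unfold rt
      rw [if_neg hp.1.1, add_zero]
    have e4 : rt p0 p0 = 1 := by unfold rt; rw [if_pos rfl]
    rw [e3, e4]
    ring
  rw [e1, e2] at h1
  rw [h3, add_zero] at h1
  have h4 := congrArg₂ (· + ·) h1 h2
  simp only at h4
  unfold mc
  simp only [mul_add, Finset.sum_add_distrib]
  have key : ∀ x y w : ZMod 2, x + y + (w + y) = 0 + 0 → x + w = 0 := by decide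
  exact key _ _ _ h4

/-- the recursion -/
theorem fz_rec {W : Finset α} (hW : 2 ≤ W.card) :
    ∑ V ∈ W.powerset, (∏ p ∈ W \ V, (z p + ∑ l ∈ V, a p l)) * fz a z V = 0 := by
  have h1 : ∀ V ∈ W.powerset, (∏ p ∈ W \ V, (z p + ∑ l ∈ V, a p l)) * fz a z V =
      ∑ p0 ∈ W, if p0 ∈ V then z p0 * ((∏ p ∈ W \ V, (z p + ∑ l ∈ V, a p l)) * mc a z p0 V)
        else 0 := by
    intro V hV
    rw [Finset.mem_powerset] at hV
    unfold fz
    rw [Finset.mul_sum, ← Finset.sum_filter]
    have e : W.filter (fun p0 => p0 ∈ V) = V := by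
      ext x
      rw [Finset.mem_filter]
      exact ⟨fun h => h.2, fun h => ⟨hV h, h⟩⟩
    rw [e]
    refine Finset.sum_congr rfl fun p0 _ => ?_
    ring
  rw [Finset.sum_congr rfl h1, Finset.sum_comm]
  refine Finset.sum_eq_zero fun p0 hp0 => ?_
  rw [← Finset.sum_filter, ← Finset.mul_sum, mc_rec a z hp0 hW, mul_zero]

/-! ### the value for symmetric matrices -/

/-- the quadratic form of a symmetric matrix -/
lemma quad {n : Type*} [Fintype n] [DecidableEq n] (A : Matrix n n (ZMod 2))
    (hA : ∀ i j, A i j = A j i) (x : n → ZMod 2) :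
    ∑ i, x i * ∑ j, A i j * x j = ∑ i, x i * A i i := by
  have h1 : ∑ i, x i * ∑ j, A i j * x j = ∑ p : n × n, x p.1 * (A p.1 p.2 * x p.2) := by
    rw [Fintype.sum_prod_type]
    exact Finset.sum_congr rfl fun i _ => Finset.mul_sum _ _ _
  rw [h1, ← Finset.sum_filter_add_sum_filter_not _ (fun p : n × n => p.1 = p.2)]
  have h2 : ∑ p ∈ (Finset.univ : Finset (n × n)).filter (fun p => ¬ p.1 = p.2),
      x p.1 * (A p.1 p.2 * x p.2) = 0 := by
    refine Finset.sum_involution (fun p _ => (p.2, p.1)) ?_ ?_ ?_ ?_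
    · intro p _
      rw [hA p.2 p.1]
      have : x p.1 * (A p.1 p.2 * x p.2) + x p.2 * (A p.1 p.2 * x p.1) =
          x p.1 * (A p.1 p.2 * x p.2) + x p.1 * (A p.1 p.2 * x p.2) := by ring
      rw [this, two_zero]
    · intro p hp _ h3
      rw [Finset.mem_filter] at hp
      apply hp.2
      have := congrArg Prod.snd h3
      exact this
    · intro p hp
      rw [Finset.mem_filter] at hp ⊢
      exact ⟨Finset.mem_univ _, fun h => hp.2 h.symm⟩
    · intro p _
      rfl
  rw [h2, add_zero]
  have h3 : (Finset.univ : Finset (n × n)).filter (fun p => p.1 = p.2) =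
      Finset.univ.image (fun i : n => (i, i)) := by
    ext p
    simp only [Finset.mem_filter, Finset.mem_univ, true_and, Finset.mem_image]
    constructor
    · intro h
      exact ⟨p.1, by ext <;> simp [h]⟩
    · rintro ⟨i, rfl⟩
      rfl
  rw [h3, Finset.sum_image (by
    intro i _ j _ hij
    exact congrArg Prod.fst hij)]
  refine Finset.sum_congr rfl fun i _ => ?_
  have key : ∀ x y : ZMod 2, x * (y * x) = x * y := by decide
  exact key _ _

lemma mc_adj {V : Finset α} (p0 : V) : mc a z (p0 : α) V = (Mx z a V).adjugate p0 p0 := by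
  unfold mc
  have h1 : Mx (fun p => z p + rt (p0 : α) p) a V =
      (Mx z a V).updateRow p0 (Mx z a V p0 + Pi.single p0 1) := by
    ext i j
    rw [Matrix.updateRow_apply]
    by_cases hi : i = p0
    · subst hi
      rw [if_pos rfl, Pi.add_apply, Mx_apply, Mx_apply, Pi.single_apply]
      have e4 : rt (i : α) (i : α) = 1 := by unfold rt; rw [if_pos rfl]
      rw [e4]
      by_cases hij : i = j
      · rw [if_pos hij, if_pos hij, if_pos hij.symm]
        ring
      · rw [if_neg hij, if_neg hij, if_neg (fun h => hij h.symm)]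
        ring
    · rw [if_neg hi, Mx_apply, Mx_apply]
      have e4 : rt (p0 : α) (i : α) = 0 := by
        unfold rt
        rw [if_neg]
        intro h
        exact hi (Subtype.ext h)
      rw [e4, add_zero]
  rw [h1, Matrix.det_updateRow_add, Matrix.updateRow_eq_self, Matrix.adjugate_apply]
  have key : ∀ x y : ZMod 2, x + y + x = y := by decide
  exact key _ _

/-- **the value** -/
theorem fz_one {U : Finset α} (hsym : ∀ p ∈ U, ∀ l ∈ U, p ≠ l → a p l = a l p)
    (hdet : (Mx z a U).det = 1) : fz a z U = ∑ p ∈ U, z p := by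
  set M := Mx z a U with hM
  have hMs : Mᵀ = M := by
    ext i j
    rw [Matrix.transpose_apply, hM, Mx_apply, Mx_apply]
    by_cases hij : i = j
    · subst hij
      rfl
    · rw [if_neg hij, if_neg (fun h => hij h.symm), zero_add, zero_add]
      exact hsym j j.2 i i.2 fun h => hij (Subtype.ext h).symm
  have hAs : ∀ i j, M.adjugate i j = M.adjugate j i := by
    intro i j
    have h1 := congrFun (congrFun (Matrix.adjugate_transpose M) i) j
    rw [hMs, Matrix.transpose_apply] at h1
    exact h1.symm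
  have hrow : M *ᵥ (fun _ => 1) = fun j : U => z j := by
    ext j
    have h1 : (M *ᵥ fun _ => 1) j = ∑ k, M j k * 1 := rfl
    rw [h1]
    simp only [hM, mul_one, Mx_apply, Finset.sum_add_distrib]
    rw [Finset.sum_ite_eq Finset.univ j, if_pos (Finset.mem_univ _), Finset.sum_coe_sort U
      (fun k => a j k), add_assoc, two_zero, add_zero]
  have hinv : M.adjugate *ᵥ (fun j : U => z j) = fun _ => 1 := by
    rw [← hrow, Matrix.mulVec_mulVec, Matrix.adjugate_mul, hdet, one_smul, Matrix.one_mulVec]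
  have h2 : fz a z U = ∑ p0 : U, z p0 * M.adjugate p0 p0 := by
    unfold fz
    rw [← Finset.sum_coe_sort U (fun p0 => z p0 * mc a z p0 U)]
    refine Finset.sum_congr rfl fun p0 _ => ?_
    rw [mc_adj]
  rw [h2, ← quad M.adjugate hAs (fun j : U => z j)]
  have h3 : ∀ i : U, ∑ j, M.adjugate i j * z j = 1 := fun i => congrFun hinv i
  simp only [h3, mul_one]
  exact Finset.sum_coe_sort U z

end Pool.Agent.Helper26K9.XI
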