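import Pool.Agent.Helper26K9.XI.DSI
import Pool.Agent.Helper26K9.XI.Rec
import Pool.Agent.Helper26K9.XO.Crit

/-!
# The character sums of the differences are not zero
-/

set_option autoImplicit false
set_option linter.unusedSectionVars false
set_option linter.unusedSimpArgs false
set_option linter.unusedVariables false

open scoped PeriodPair

namespace Pool.Agent.Helper26K9.XI

open H667R3 Pool.Agent.TH936.CW Pool.Agent.Y690.NV Pool.Agent.Y690.AW Pool.Agent.W192.HK
open Pool.Agent.TH936.CM (IsLat out_sub)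
open Pool.Agent.Helper26K9.XO (Pq TT v_add_lt v_mul_le lt_pow rho_ne TT_empty bigB rs_kap card_par
  neg_out zero_out zn qs_symm)
open Complex (I)

section main

variable {R : Subring ℂ} {Γ : Type*} [LinearOrderedCommGroupWithZero Γ] {v : Valuation ℂ Γ}
  (h2 : v 2 < 1) {G : R → R → ℂ} {c : R → ℂ} (h : DS G c) {z : R → ZMod 2}
  (hR : ∀ z : ℂ, z ∈ R ↔ ∃ x y : ℤ, z = x + y * I)

include h2 h hR in
open Classical in
/-- **the residues of the twisted sums** -/
theorem full_par {U : Finset R} (hU : ∀ p ∈ U, QC p) (hd : Dst U) {β : ℂ} (hβ : β ≠ 0)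
    (hc : ∀ p ∈ U, Pm v 1 (1 - c p) (z p)) (h0 : TT G ∅ = 0)
    (h1 : ∀ p ∈ U, Pq v (2 * β) (Ts G (dd {p}) (kap {p})) (z p))
    (hbig : ∀ W ⊆ U, 2 ≤ W.card → v (Ts G (dd W) (kap W)) < v (2 ^ W.card * β)) :
    ∀ W ⊆ U, W.Nonempty → Pq v (2 ^ W.card * β) (TT G W) (fz aa z W) := by
  intro W
  induction W using Finset.strongInduction with
  | _ W ih =>
    intro hW hne
    have hWQ : ∀ p ∈ W, QC p := fun p hp => hU p (hW hp)
    have hWd : Dst W := fun p hp s hs => hd p (hW hp) s (hW hs)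
    have hmem : W ∈ W.powerset := Finset.mem_powerset.mpr (Finset.Subset.refl W)
    have hall := sieve_all hR h hWQ hWd
    have hch : ∀ p : R, ch (∅ : Finset R) p = 1 := fun p => Finset.prod_empty
    have hkap : Ts G (dd W) (fun r => ∏ p ∈ W, ((qs p r : ℂ) + cpI p r)) = Ts G (dd W) (kap W) := rfl
    rw [hkap] at hall
    have hem : (∅ : Finset R) ∈ W.powerset.erase W := by
      rw [Finset.mem_erase]
      exact ⟨hne.ne_empty.symm, Finset.empty_mem_powerset W⟩
    rw [← Finset.add_sum_erase _ _ hmem, ← Finset.add_sum_erase _ _ hem] at hall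
    have e1 : (∏ p ∈ W \ W, (c p - ((ch W p : ℤ) : ℂ))) *
        Ts G (dd W) (fun r => ((ch W r : ℤ) : ℂ)) = TT G W := by
      rw [Finset.sdiff_self, Finset.prod_empty, one_mul]
      rfl
    have e2 : (∏ p ∈ W \ ∅, (c p - ((ch ∅ p : ℤ) : ℂ))) *
        Ts G (dd ∅) (fun r => ((ch ∅ r : ℤ) : ℂ)) = 0 := by
      have : Ts G (dd ∅) (fun r => ((ch ∅ r : ℤ) : ℂ)) = TT G ∅ := rfl
      rw [this, h0, mul_zero]
    rw [e1, e2, zero_add] at hall
    rcases lt_or_ge W.card 2 with hcard | hcard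
    · obtain ⟨p, rfl⟩ : ∃ p, W = {p} := by
        rw [← Finset.card_eq_one]
        have := hne.card_pos
        omega
      have e3 : (({p} : Finset R).powerset.erase {p}).erase ∅ = ∅ := by
        ext V
        simp only [Finset.mem_erase, Finset.mem_powerset, Finset.subset_singleton_iff,
          Finset.notMem_empty, iff_false]
        tauto
      rw [e3, Finset.sum_empty, add_zero] at hall
      have h3 := h1 p (hW (Finset.mem_singleton_self p))
      rw [fz_single, Finset.card_singleton, pow_one, ← hall]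
      exact h3
    · have h3 : Pq v (2 ^ W.card * β) (Ts G (dd W) (kap W)) 0 := Pq.zero (hbig W hW hcard)
      have hβ' : (2 : ℂ) ^ W.card * β ≠ 0 := mul_ne_zero (pow_ne_zero _ two_ne_zero) hβ
      have h4 : Pq v (2 ^ W.card * β) (∑ V ∈ (W.powerset.erase W).erase ∅,
          (∏ p ∈ W \ V, (c p - ((ch V p : ℤ) : ℂ))) *
            Ts G (dd V) (fun r => ((ch V r : ℤ) : ℂ)))
          (∑ V ∈ (W.powerset.erase W).erase ∅,
            (∏ p ∈ W \ V, (z p + ∑ l ∈ V, aa p l)) * fz aa z V) := by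
        refine Pq.sum hβ' _ fun V hV => ?_
        rw [Finset.mem_erase, Finset.mem_erase, Finset.mem_powerset] at hV
        have hlt : V ⊂ W := ⟨hV.2.2, fun h6 => hV.2.1 (Finset.Subset.antisymm hV.2.2 h6)⟩
        have h5 := ih V hlt (hV.2.2.trans hW) (Finset.nonempty_iff_ne_empty.mpr hV.1)
        have h6 : Pm v (W \ V).card (∏ p ∈ W \ V, (c p - ((ch V p : ℤ) : ℂ)))
            (∏ p ∈ W \ V, (z p + ∑ l ∈ V, aa p l)) :=
          Pm.prod _ fun p hp => fac_par h2 hWQ hWd hV.2.2 hp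
            (hc p (hW (Finset.sdiff_subset hp)))
        have h7 := (Pq.of_Pm h6).mul h5
        have e5 : (2 : ℂ) ^ (W \ V).card * (2 ^ V.card * β) = 2 ^ W.card * β := by
          rw [← mul_assoc, ← pow_add, Finset.card_sdiff_add_card_eq_card hV.2.2]
        rw [e5] at h7
        exact h7
      have h5 := h3.sub h4
      rw [zero_add] at h5
      have e6 : Ts G (dd W) (kap W) -
          ∑ V ∈ (W.powerset.erase W).erase ∅, (∏ p ∈ W \ V, (c p - ((ch V p : ℤ) : ℂ))) *
            Ts G (dd V) (fun r => ((ch V r : ℤ) : ℂ)) = TT G W := by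
        rw [hall]
        ring
      rw [e6] at h5
      have h6 := fz_rec aa z hcard
      rw [← Finset.add_sum_erase _ _ hmem, ← Finset.add_sum_erase _ _ hem, fz_empty, mul_zero,
        zero_add, Finset.sdiff_self, Finset.prod_empty, one_mul] at h6
      rw [CharTwo.add_eq_zero.mp h6]
      exact h5

end main

section fin

variable {L : PeriodPair} {q Ω : ℂ} {R : Subring ℂ}
  (hR : ∀ z : ℂ, z ∈ R ↔ ∃ x y : ℤ, z = x + y * I)
  (hL : IsLat L R Ω) (hCM : H667R3.CM L) (g2 : L.g₂ = -1)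
  (hq : ∀ l ∈ L.lattice, eta L l = 0 * l + q * (starRingEnd ℂ) l)
  (hT : TP L q 1 (Ω / (2 + 2 * I)))

section val

variable {Γ : Type*} [LinearOrderedCommGroupWithZero Γ] {v : Valuation ℂ Γ} {ρ : ℂ}
  (hρ : ρ ^ 4 = 2) (hr : v ρ < 1)

include hR hρ hr in
lemma cI_par {p : R} (h : Pri p) (n : ℕ) : Pm v 1 (1 - cI n p) (zn p) := by
  have h2 := two_lt hρ hr
  have h1 := Pool.Agent.Y690.AW.gm_one (v := v) hR hρ hr h n
  unfold cI
  by_cases h3 : zn p = 1
  · rw [if_pos h3, h3]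
    refine ⟨1, by simp, ?_⟩
    have e : 1 - -1 * gm n (p : ℂ) - 2 ^ 1 * ((1 : ℤ) : ℂ) = gm n (p : ℂ) - 1 := by
      push_cast
      ring
    rw [e, pow_one]
    exact h1
  · have h4 : zn p = 0 := by
      have : ∀ y : ZMod 2, y ≠ 1 → y = 0 := by decide
      exact this _ h3
    rw [if_neg h3, h4, one_mul]
    refine Pm.zero ?_
    rw [Valuation.map_sub_swap, pow_one]
    exact h1

end val

/-- scaling of a distribution -/
lemma DS_scale {G : R → R → ℂ} {c : R → ℂ} (h : DS G c) (a : ℂ) :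
    DS (fun D r => a * G D r) c := by
  have h1 := Pool.Agent.Helper26K9.XO.DS_lin h h a 0
  simp only [zero_mul, add_zero] at h1
  exact h1

lemma Ts_scale (hfin : ∀ D : R, Pri D → Finite (R ⧸ sp D)) {G : R → R → ℂ} {D : R} (hD : Pri D)
    (g : R → ℂ) (a : ℂ) : Ts (fun D r => a * G D r) D g = a * Ts G D g := by
  have := hfin D hD
  have := Fintype.ofFinite (R ⧸ sp D)
  unfold Ts
  rw [rs_eq, rs_eq, Finset.mul_sum]
  exact Finset.sum_congr rfl fun w _ => by ring

include hR hL hCM g2 hq hT in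
open Classical in
/-- the character sum is not zero, even index -/
theorem sum_even (hbasic : H_BASIC) (k : ℕ) {S : Finset R} (hS : ∀ p ∈ S, QC p) (hd : Dst S)
    (hdet : (Mx zn aa S).det = 1) :
    Ts (fun D r : R => Dx L q Ω 1 (2 * k) D r) (dd S) (fun r => ((ch S r : ℤ) : ℂ)) ≠ 0 := by
  obtain ⟨V, hV⟩ := exists_V
  obtain ⟨ρ, hρ, hr⟩ := exists_rho hV
  have hDS := ds_Dx hR hL hCM hq hbasic (2 * k) (s := 1) (Or.inl rfl)
  have h1 := Ts_par hV (DS_scale hDS (2 ^ (2 * k) * ((2 * k).factorial : ℂ)))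
    (fun D r hD => Dx_even hR hL hCM hq g2 hT hρ hr k hD r) hR S hS hd
    (fun p hp => cI_par hR hρ hr (hS p hp).od (2 * k))
  rw [hdet, Ts_scale hDS.fin (dd_od hR hS)] at h1
  intro h4
  rw [h4, mul_zero] at h1
  exact h1.ne_zero hV rfl

include hR hL hCM hq in
lemma Dx_mem (e : ℕ) {D : R} (hD : Pri D) {r : R} (hr : r ∈ sp D) :
    Dx L q Ω 1 e D r = Df L q (uu Ω) e (Ω / 4) := by
  obtain ⟨hP, hP'⟩ := p4 hR hL (s := 1) (Or.inl rfl)
  have h1 := (lat_dm_iff hL D (hD.ne hR) _).2 hr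
  have n1 := hP.nm D 0 hD
  have n2 := hP'.nm D 0 hD
  have e0 : Ω * ((0 : R) : ℂ) / D = 0 := by push_cast; ring
  rw [e0, add_zero, one_mul] at n1 n2
  rw [Dx_eq]
  unfold Df
  congr 1
  · refine ek_per hq e n1 ?_
    convert h1 using 1
    ring
  · refine ek_per hq e n2 ?_
    convert h1 using 1
    ring

include hR hL hCM g2 hq hT in
open Classical in
/-- the character sum is not zero, odd index -/
theorem sum_odd (hbasic : H_BASIC) (k : ℕ) {S : Finset R} (hS : ∀ p ∈ S, QC p) (hd : Dst S)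
    (hsym : ∀ p ∈ S, ∀ l ∈ S, p ≠ l → aa p l = aa l p)
    (hdet : (Mx zn aa S).det = 1) (hz : ∑ p ∈ S, zn p = 1)
    (h0 : Df L q (uu Ω) (2 * k + 1) (Ω / 4) = 0) :
    Ts (fun D r : R => Dx L q Ω 1 (2 * k + 1) D r) (dd S) (fun r => ((ch S r : ℤ) : ℂ)) ≠ 0 := by
  obtain ⟨V, hV⟩ := exists_V
  obtain ⟨ρ, hρ, hr⟩ := exists_rho hV
  set v := V.valuation with hv
  have h2' : v 2 = v ρ ^ 4 := v_two hρ
  set K : ℂ := 2 ^ (2 * k + 1) * ((2 * k + 1).factorial : ℂ) / 2 with hK
  have hne : S.Nonempty := by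
    rw [Finset.nonempty_iff_ne_empty]
    rintro rfl
    rw [Finset.sum_empty] at hz
    exact zero_ne_one hz
  have hDS := ds_Gp hR hL hCM hq hbasic K (2 * k + 1)
  have hneg : ∀ D r : R, Pri D → Gp K L q Ω (2 * k + 1) D (-r) = Gp K L q Ω (2 * k + 1) D r :=
    fun D r hD => Gp_neg hR hL hCM hq K (2 * k + 1) hD r
  have hmem : ∀ D r : R, Pri D → r ∈ sp D → Gp K L q Ω (2 * k + 1) D r = 0 := by
    intro D r hD hr'
    rw [Gp_pair hR hL hCM hq K _ hD, Dx_mem hR hL hCM hq _ hD hr',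
      Dx_mem hR hL hCM hq _ hD ((sp D).neg_mem hr'), h0, add_zero, mul_zero]
  have hone : ∀ D r : R, Pri D → r ∉ sp D → N1 v (Gp K L q Ω (2 * k + 1) D r) := by
    intro D r hD hr'
    rw [Gp_pair hR hL hCM hq K _ hD]
    exact Dx_odd hR hL hCM hq g2 hT hρ hr k hD hr'
  have hem : TT (fun D r : R => Gp K L q Ω (2 * k + 1) D r) ∅ = 0 := TT_empty hR hDS hmem
  have hbB : ∀ W ⊆ S, W.Nonempty → v (Ts (fun D r : R => Gp K L q Ω (2 * k + 1) D r) (dd W)
      (kap W) - ∏ p ∈ W, ((Nat.card (R ⧸ sp p) : ℂ) - 1)) < v 2 * v 2 ^ W.card := by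
    intro W hW hne
    have h3 := bigB (v := v) hDS hR hneg hone (fun p hp => hS p (hW hp)) hne
    rwa [rs_kap hR hbasic hDS.fin W (fun p hp => hS p (hW hp))
      (fun p hp s hs => hd p (hW hp) s (hW hs))] at h3
  have key := full_par hV hDS hR hS hd two_ne_zero
    (fun p hp => cI_par hR hρ hr (hS p hp).od (2 * k + 1)) hem
    (fun p hpS => by
      have h3 := card_par (v := v) hR hbasic (hS p hpS).od
      refine h3.congr ?_
      have h4 := hbB {p} (Finset.singleton_subset_iff.mpr hpS) (Finset.singleton_nonempty p)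
      rwa [Finset.prod_singleton, Finset.card_singleton, pow_one, ← map_mul] at h4)
    (fun W hW hcard => by
      rw [map_mul, map_pow]
      have e1 : Ts (fun D r : R => Gp K L q Ω (2 * k + 1) D r) (dd W) (kap W) =
          (Ts (fun D r : R => Gp K L q Ω (2 * k + 1) D r) (dd W) (kap W) -
            ∏ p ∈ W, ((Nat.card (R ⧸ sp p) : ℂ) - 1)) +
            ∏ p ∈ W, ((Nat.card (R ⧸ sp p) : ℂ) - 1) := by ring
      rw [e1]
      refine v_add_lt ?_ ?_
      · rw [mul_comm (v 2 ^ _) (v 2)]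
        exact hbB W hW (Finset.card_pos.mp (by omega))
      · have h6 : v (∏ p ∈ W, ((Nat.card (R ⧸ sp p) : ℂ) - 1)) ≤ v ρ ^ (8 * W.card) := by
          rw [map_prod]
          calc ∏ p ∈ W, v ((Nat.card (R ⧸ sp p) : ℂ) - 1) ≤ ∏ _p ∈ W, v ρ ^ 8 := by
                refine Finset.prod_le_prod' fun p hpW => ?_
                have h3 := (card_par (v := v) hR hbasic (hS p (hW hpW)).od).le
                rwa [map_mul, h2', ← pow_add] at h3
            _ = v ρ ^ (8 * W.card) := by rw [Finset.prod_const, ← pow_mul]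
        refine h6.trans_lt ?_
        rw [h2', ← pow_mul, ← pow_add]
        exact lt_pow hρ hr (by omega))
    S (Finset.Subset.refl S) hne
  rw [fz_one aa zn hsym hdet, hz] at key
  have h3 := key.ne_zero hV
  intro h4
  apply h3
  have hod := dd_od hR hS
  have := hDS.fin _ hod
  have := Fintype.ofFinite (R ⧸ sp (dd S))
  unfold Pool.Agent.Helper26K9.XO.TT
  unfold Ts at h4 ⊢
  rw [rs_eq] at h4 ⊢
  have hchn : ∀ w : R ⧸ sp (dd S), ch S (-w).out = ch S w.out := by
    intro w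
    rw [ch_per hS (neg_out w)]
    unfold ch
    refine Finset.prod_congr rfl fun p hp => ?_
    have h5 := (hS p hp).mul (-1) w.out
    rwa [(hS p hp).neg, one_mul, neg_one_mul] at h5
  have hDD := ds_Dx hR hL hCM hq hbasic (2 * k + 1) (s := 1) (Or.inl rfl)
  have h5 : ∑ w : R ⧸ sp (dd S), ((ch S w.out : ℤ) : ℂ) *
      Dx L q Ω 1 (2 * k + 1) (dd S) (-w.out) = 0 := by
    refine Eq.trans ?_ h4
    rw [← Equiv.sum_comp (Equiv.neg (R ⧸ sp (dd S))) (fun w => ((ch S w.out : ℤ) : ℂ) *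
      Dx L q Ω 1 (2 * k + 1) (dd S) (-w.out))]
    refine Finset.sum_congr rfl fun w _ => ?_
    rw [Equiv.neg_apply, hchn]
    congr 1
    refine hDD.per _ _ _ hod ?_
    have := (sp (dd S)).neg_mem (neg_out w)
    convert this using 1
    ring
  have e : ∑ w : R ⧸ sp (dd S), ((ch S w.out : ℤ) : ℂ) * Gp K L q Ω (2 * k + 1) (dd S) w.out =
      K * (∑ w : R ⧸ sp (dd S), ((ch S w.out : ℤ) : ℂ) * Dx L q Ω 1 (2 * k + 1) (dd S) w.out +
        ∑ w : R ⧸ sp (dd S), ((ch S w.out : ℤ) : ℂ) *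
          Dx L q Ω 1 (2 * k + 1) (dd S) (-w.out)) := by
    rw [← Finset.sum_add_distrib, Finset.mul_sum]
    refine Finset.sum_congr rfl fun w _ => ?_
    rw [Gp_pair hR hL hCM hq K _ hod]
    ring
  beta_reduce at h4 ⊢
  rw [e, h4, h5, add_zero, mul_zero]

end fin

end Pool.Agent.Helper26K9.XI
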