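import Pool.Agent.Helper26K9.XI.Alg
import Pool.Agent.Helper26K9.XO.Tor
import Pool.Agent.Y690.W.Dist

/-!
# The difference of the values at a point and its translate by the point of order two
-/

set_option autoImplicit false
set_option linter.unusedSectionVars false
set_option linter.unusedSimpArgs false

open scoped PeriodPair

namespace Pool.Agent.Helper26K9.XI

open H667R3 Pool.Agent.TH936.CW MvPolynomial Pool.Agent.Y690.NV
open Pool.Agent.Y690.AW (H2 sl tr N1 two_lt)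
open Complex (I)

variable {L : PeriodPair} {q : ℂ}

/-- the evaluation point -/
noncomputable def pi4 (L : PeriodPair) (q z : ℂ) : Fin 4 → ℂ :=
  ![2 * E1 L 0 q z + sl L 0 z, sl L 0 z, 0, 2 * ℘[L] z - sl L 0 z ^ 2]

lemma ev_E (w : Fin 4 → ℂ) : eval w cE = w 0 := by unfold cE; rw [eval_X]
lemma ev_s (w : Fin 4 → ℂ) : eval w cs = w 1 := by unfold cs; rw [eval_X]
lemma ev_e (w : Fin 4 → ℂ) : eval w ce = w 2 := by unfold ce; rw [eval_X]
lemma ev_w (w : Fin 4 → ℂ) : eval w cw = w 3 := by unfold cw; rw [eval_X]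
lemma ev_G (w : Fin 4 → ℂ) : eval w cG = w 2 ^ 2 - 1 / 12 * ((w 1 ^ 2 - 3 * w 2) ^ 2 - w 3 ^ 2) := by
  unfold cG
  simp only [map_sub, map_mul, map_pow, map_ofNat, eval_C, ev_s, ev_e, ev_w]

/-- the comparison is made on the variables -/
lemma gs_ext {w σ : ℂ} {v : Fin 4 → ℂ} (hE : E1 L 0 q w = 1 / 2 * (v 0 - σ * v 1))
    (hX : ℘[L] w = v 2 + 1 / 2 * (v 1 ^ 2 - 3 * v 2 + σ * v 3))
    (hY : ℘'[L] w / 2 = σ * v 1 * (1 / 2 * (v 1 ^ 2 - 3 * v 2 + σ * v 3)))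
    (hG : L.g₂ / 12 = v 2 ^ 2 - 1 / 12 * ((v 1 ^ 2 - 3 * v 2) ^ 2 - v 3 ^ 2)) (u : U) :
    evU L q ((starRingEnd ℂ) w) w u = eval v (gs σ u) := by
  have h : evU L q ((starRingEnd ℂ) w) w = (aeval v).comp (gs σ) := by
    refine MvPolynomial.algHom_ext fun i => ?_
    fin_cases i
    · show evU L q _ _ vE = aeval _ (gs σ vE)
      have : Xx L 0 q ((starRingEnd ℂ) w) w = E1 L 0 q w := rfl
      rw [evU_E, gs_E, this, hE, aeval_eq_eval]
      simp only [coe_eval₂Hom, map_mul, map_sub, eval_C, ev_E, ev_s]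
    · show evU L q _ _ vX = aeval _ (gs σ vX)
      rw [evU_X, gs_X, hX, aeval_eq_eval]
      simp only [coe_eval₂Hom, map_mul, map_add, map_sub, map_pow, map_ofNat, eval_C, ev_s, ev_e,
        ev_w]
    · show evU L q _ _ vY = aeval _ (gs σ vY)
      rw [evU_Y, gs_Y, hY, aeval_eq_eval]
      simp only [coe_eval₂Hom, map_mul, map_add, map_sub, map_pow, map_ofNat, eval_C, ev_s, ev_e,
        ev_w]
    · show evU L q _ _ vG = aeval _ (gs σ vG)
      rw [evU_G, gs_G, hG, aeval_eq_eval]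
      exact (ev_G v).symm
  rw [h, AlgHom.comp_apply, aeval_eq_eval]

variable {u z : ℂ}

lemma sl_sq' (h : H2 L q u 0) (hL : CM L) (g2 : L.g₂ = -1) (hz : 2 * z ∉ L.lattice) :
    sl L 0 z ^ 2 * ℘[L] z = ℘[L] z ^ 2 + 1 / 4 := by
  have := h.sl_sq hL g2 hz
  linear_combination this

lemma sl_mul' (h : H2 L q u 0) (hz : 2 * z ∉ L.lattice) : sl L 0 z * ℘[L] z = ℘'[L] z / 2 := by
  have := h.sl_mul hz
  linear_combination this

/-- the difference of the values -/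
noncomputable def Df (L : PeriodPair) (q u : ℂ) (n : ℕ) (z : ℂ) : ℂ :=
  ek L 0 q n z - ek L 0 q n (z + u)

lemma pi_rel (h : H2 L q u 0) (hL : CM L) (g2 : L.g₂ = -1) (hz : 2 * z ∉ L.lattice) :
    sl L 0 z ^ 4 - (2 * ℘[L] z - sl L 0 z ^ 2) ^ 2 = 1 := by
  have := sl_sq' h hL g2 hz
  linear_combination 4 * this

theorem Df_eval (h : H2 L q u 0) (hL : CM L) (g2 : L.g₂ = -1) (hz : 2 * z ∉ L.lattice) (n : ℕ) :
    (n.factorial : ℂ) * Df L q u n z = eval (pi4 L q z) (Jn n) := by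
  obtain ⟨a1, a2, a3⟩ := tr h hL g2 hz
  have h1 := sl_sq' h hL g2 hz
  have h2 := sl_mul' h hz
  have h3 := pi_rel h hL g2 hz
  have v0 : pi4 L q z 0 = 2 * E1 L 0 q z + sl L 0 z := rfl
  have v1 : pi4 L q z 1 = sl L 0 z := rfl
  have v2 : pi4 L q z 2 = 0 := rfl
  have v3 : pi4 L q z 3 = 2 * ℘[L] z - sl L 0 z ^ 2 := rfl
  have hG : L.g₂ / 12 = pi4 L q z 2 ^ 2 - 1 / 12 * ((pi4 L q z 1 ^ 2 - 3 * pi4 L q z 2) ^ 2 -
      pi4 L q z 3 ^ 2) := by
    rw [v1, v2, v3, g2]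
    linear_combination (1 / 12) * h3
  have w0 := gs_ext (q := q) (w := z) (v := pi4 L q z) (σ := 1) (by rw [v0, v1]; ring)
    (by rw [v1, v2, v3]; ring) (by rw [v1, v2, v3]; linear_combination -h2) hG
  have w1 := gs_ext (q := q) (w := z + u) (v := pi4 L q z) (σ := -1) (by rw [v0, v1, a1]; ring)
    (by rw [v1, v2, v3, a2]; ring) (by rw [v1, v2, v3, a3]; ring) hG
  unfold Df Jn
  rw [map_sub, ← w0, ← w1, ← ek_eq n (two_mul_notMem_of L hz), ← ek_eq n (h.add hz)]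
  ring

/-! ### multiplication by `1 + i` -/

lemma oneI_notMem (hL : CM L) (hz : 2 * z ∉ L.lattice) : (1 + I) * z ∉ L.lattice ∧
    z + I * z ∉ L.lattice ∧ z - I * z ∉ L.lattice := by
  have h1 : z + I * z ∉ L.lattice := by
    intro h
    apply hz
    have h2 := sub_mem h (hL _ h)
    convert h2 using 1
    linear_combination z * Complex.I_sq
  have h2 : z - I * z ∉ L.lattice := by
    intro h
    apply hz
    have h2 := add_mem h (hL _ h)
    convert h2 using 1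
    linear_combination z * Complex.I_sq
  refine ⟨?_, h1, h2⟩
  rw [add_mul, one_mul]
  exact h1

lemma E1_I (hL : CM L) (z : ℂ) : E1 L 0 q (I * z) = -I * E1 L 0 q z := by
  unfold E1 Xx
  rw [zeta_I_mul hL, map_mul, Complex.conj_I]
  ring

lemma wp_ne (hL : CM L) (g2 : L.g₂ = -1) (hz : 2 * z ∉ L.lattice) : ℘[L] z ≠ 0 := by
  intro h
  have h1 := curve hL g2 (two_mul_notMem_of L hz)
  unfold Xi at h1
  rw [h] at h1
  have h2 := wp'_ne_zero L hz
  apply h2
  have h3 : ℘'[L] z ^ 2 = 0 := by linear_combination (1 / 2) * h1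
  exact pow_eq_zero_iff (two_ne_zero) |>.mp h3

theorem oneI (hL : CM L) (g2 : L.g₂ = -1) (hz : 2 * z ∉ L.lattice) :
    ℘[L] ((1 + I) * z) = -(I / 2) * sl L 0 z ^ 2 ∧
    (1 + I) * E1 L 0 q ((1 + I) * z) = 2 * E1 L 0 q z + sl L 0 z ∧
    (I - 1) * ℘'[L] ((1 + I) * z) = sl L 0 z * (2 * ℘[L] z - sl L 0 z ^ 2) := by
  obtain ⟨-, n1, n2⟩ := oneI_notMem hL hz
  have hz' := two_mul_notMem_of L hz
  have hI : I * z ∉ L.lattice := fun h => hz' ((I_mul_mem_iff hL).mp h)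
  have h1 := wp_ne hL g2 hz
  have h2 := curve hL g2 hz'
  unfold Xi at h2
  have h3 : ℘'[L] z ^ 2 = ℘[L] z * (4 * ℘[L] z ^ 2 + 1) := by linear_combination (1 / 2) * h2
  have e0 : (1 + I) * z = z + I * z := by ring
  rw [e0]
  refine ⟨?_, ?_, ?_⟩
  · rw [wp_add L hz hI n1 n2, wp_I_mul hL, wp'_I_mul hL, g2]
    unfold sl
    generalize ℘[L] z = x at h1 h3
    generalize ℘'[L] z = y at h3
    have e1 : (6 * x ^ 2 - -1 / 2) * (x - -x) - (y - I * y) * y =
        x * ((6 * x ^ 2 + 1 / 2) * 2 - (1 - I) * (4 * x ^ 2 + 1)) := by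
      linear_combination (-(1 - I)) * h3
    have e2 : (y / 2 / (x - 0)) ^ 2 = (4 * x ^ 2 + 1) / (4 * x) := by
      rw [sub_zero, div_pow, div_pow, h3]
      field_simp
      ring
    rw [e1, e2]
    field_simp
    ring
  · rw [E1_add hz' hI n1 n2, wp_I_mul hL, wp'_I_mul hL, E1_I hL]
    unfold sl
    generalize ℘[L] z = x at h1 h3
    generalize ℘'[L] z = y at h3
    generalize E1 L 0 q z = e
    have e2 : (y - I * y) / (2 * (x - -x)) = (1 - I) * (y / 2 / (x - 0)) / 2 := by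
      rw [sub_zero]
      field_simp
      ring
    rw [e2]
    generalize y / 2 / (x - 0) = s
    linear_combination (-(e + s / 2)) * Complex.I_sq
  · rw [wp'_add L hz hI n1 n2, wp_I_mul hL, wp'_I_mul hL, g2]
    unfold sl
    generalize ℘[L] z = x at h1 h3
    generalize ℘'[L] z = y at h3
    have e1 : (12 * x * y * (x - -x) + (6 * x ^ 2 - -1 / 2) * y - ((6 * x ^ 2 - -1 / 2) * y +
        (y - I * y) * (6 * x ^ 2 - -1 / 2))) * (2 * (x - -x) ^ 2) -
        ((6 * x ^ 2 - -1 / 2) * (x - -x) - (y - I * y) * y) * (2 * (2 * (x - -x) * y)) =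
        8 * x * y * (24 * x ^ 3 - (3 - I) * x * (6 * x ^ 2 + 1 / 2) +
          (1 - I) * (x * (4 * x ^ 2 + 1))) := by
      linear_combination (8 * x * y * (1 - I)) * h3
    have e2 : y / 2 / (x - 0) * (2 * x - (y / 2 / (x - 0)) ^ 2) = y * (4 * x ^ 2 - 1) /
        (8 * x ^ 2) := by
      rw [sub_zero, div_pow, div_pow, h3]
      field_simp
      ring
    rw [e1, e2]
    have e3 : y - 8 * x * y * (24 * x ^ 3 - (3 - I) * x * (6 * x ^ 2 + 1 / 2) +
        (1 - I) * (x * (4 * x ^ 2 + 1))) / (2 * (x - -x) ^ 2) ^ 2 =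
        y * (1 + I) * (1 - 4 * x ^ 2) / (16 * x ^ 2) := by
      field_simp
      ring
    rw [e3]
    have e4 : (I - 1) * (y * (1 + I) * (1 - 4 * x ^ 2) / (16 * x ^ 2)) =
        ((I - 1) * (1 + I)) * (y * (1 - 4 * x ^ 2)) / (16 * x ^ 2) := by ring
    have e5 : (I - 1) * (1 + I) = -2 := by linear_combination Complex.I_sq
    rw [e4, e5]
    field_simp
    ring

/-- the coordinates in terms of the point `y` with `(1 + i) z = i y` -/
theorem coords (hL : CM L) (g2 : L.g₂ = -1) (hz : 2 * z ∉ L.lattice) {y : ℂ}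
    (hy : (1 + I) * z = I * y) :
    sl L 0 z ^ 2 = -I * Xi L y ∧ 2 * E1 L 0 q z + sl L 0 z = (1 - I) * E1 L 0 q y ∧
    sl L 0 z * (2 * ℘[L] z - sl L 0 z ^ 2) = -(1 + I) * ℘'[L] y := by
  obtain ⟨h1, h2, h3⟩ := oneI (q := q) hL g2 hz
  rw [hy] at h1 h2 h3
  rw [wp_I_mul hL] at h1
  rw [E1_I hL] at h2
  rw [wp'_I_mul hL] at h3
  unfold Xi
  refine ⟨?_, ?_, ?_⟩
  · linear_combination (-2 * I) * h1 + sl L 0 z ^ 2 * Complex.I_sq
  · linear_combination -h2 - (E1 L 0 q y) * Complex.I_sq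
  · linear_combination -h3 + (℘'[L] y) * Complex.I_sq

end Pool.Agent.Helper26K9.XI
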