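import Pool.Agent.Helper26K9.XI.Nonvan
import Pool.Agent.Helper26K9.XO.Root

/-!
# The root number of the powers of the Hecke character of `i y² = x³ - x`
-/

set_option autoImplicit false
set_option linter.unusedSectionVars false

open Filter
open scoped Topology PeriodPair

namespace Pool.Agent.Helper26K9.XI

open H667R3 Pool.Agent.TH936.CW Pool.Agent.Y690.NV Pool.Agent.Y690.AW Pool.Agent.W192.HK
open Pool.Agent.TH936.CM (IsLat out_sub)
open Pool.Agent.W192.CM (ez nu)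
open Pool.Agent.W192.CY (Vk)
open Pool.Agent.Helper26K9.XO (cj cj_coe cj_ff cI_sp cI_cI nm_cI uni_entire)
open Complex (I)

variable {R : Subring ℂ} (hR : ∀ z : ℂ, z ∈ R ↔ ∃ x y : ℤ, z = x + y * I)

lemma kI_cj (α : R) : kI (cj hR α) = kI α := by
  have h1 := nm_cI hR (sp α)
  rw [cI_sp] at h1
  have h2 : Nat.card (R ⧸ sp (cj hR α)) = Nat.card (R ⧸ sp α) := by
    unfold nm at h1
    exact_mod_cast h1
  unfold kI sI
  rw [h2]

lemma tI_cI (n : ℕ) (J : Ideal R) :
    tI hR n ∅ (Pool.Agent.Helper26K9.XO.cI hR J) = (starRingEnd ℂ) (tI hR n ∅ J) := by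
  have hch : ∀ α : R, ch (∅ : Finset R) α = 1 := fun α => Finset.prod_empty
  by_cases h : ∃ α : R, J = sp α ∧ α - 1 ∈ sp (ff hR)
  · obtain ⟨α, rfl, hα⟩ := h
    rw [cI_sp, tI_gen hR n ∅ hα, tI_gen hR n ∅ (cj_ff hR hα), cj_coe, kI_cj, hch, hch,
      map_mul, map_mul, map_pow, kI_conj, map_intCast]
  · have h' : ¬ ∃ α : R, Pool.Agent.Helper26K9.XO.cI hR J = sp α ∧ α - 1 ∈ sp (ff hR) := by
      rintro ⟨α, h1, h2⟩
      refine h ⟨cj hR α, ?_, cj_ff hR h2⟩
      rw [← cI_sp, ← h1, cI_cI]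
    rw [tI_zero' hR n ∅ (fun h1 => h ((gen_iff hR J).mpr h1)),
      tI_zero' hR n ∅ (fun h1 => h' ((gen_iff hR _).mpr h1)), map_zero]

/-- the sums are real -/
lemma real_sumI (n m : ℕ) (X : ℝ) :
    (starRingEnd ℂ) (∑' J : Ideal R, tI hR n ∅ J / (nm J : ℂ) ^ m * (Vk m (nm J / X) : ℂ)) =
      ∑' J : Ideal R, tI hR n ∅ J / (nm J : ℂ) ^ m * (Vk m (nm J / X) : ℂ) := by
  rw [Complex.conj_tsum, ← (Pool.Agent.Helper26K9.XO.cIE hR).tsum_eq]
  refine tsum_congr fun J => ?_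
  have e1 : (Pool.Agent.Helper26K9.XO.cIE hR) J = Pool.Agent.Helper26K9.XO.cI hR J := rfl
  rw [e1, tI_cI, nm_cI, map_mul, map_div₀, map_pow, Complex.conj_ofReal, Complex.conj_ofReal,
    Complex.conj_conj]

/-! ### the Gauss sum -/

include hR in
lemma ez_per4 {x y : R} (h : x - y ∈ sp (4 : R)) :
    ez I ((x : ℂ) / ((4 : R) : ℂ)) = ez I ((y : ℂ) / ((4 : R) : ℂ)) := by
  rw [Ideal.mem_span_singleton'] at h
  obtain ⟨c, hc⟩ := h
  obtain ⟨a, b, rfl⟩ := exists_xy hR c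
  have h4 : ((4 : R) : ℂ) = 4 := rfl
  have h1 : (x : ℂ) / ((4 : R) : ℂ) = (y : ℂ) / ((4 : R) : ℂ) + ((a : ℂ) + b * I) := by
    have h2 : ((mkz hR a b * 4 : R) : ℂ) = ((x - y : R) : ℂ) :=
      congrArg (fun r : R => (r : ℂ)) hc
    push_cast at h2
    rw [mkz_coe, h4] at h2
    rw [h4]
    linear_combination (-1 / 4 : ℂ) * h2
  rw [h1]
  unfold ez
  rw [Complex.exp_eq_exp_iff_exists_int]
  refine ⟨b, ?_⟩
  simp only [Complex.add_im, Complex.intCast_im, Complex.mul_im, Complex.intCast_re,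
    Complex.I_im, Complex.I_re]
  push_cast
  ring

lemma ez_int (a b : ℤ) : ez I (((mkz hR a b : R) : ℂ) / ((4 : R) : ℂ)) = I ^ ((b % 4).toNat) := by
  have h4 : ((4 : R) : ℂ) = 4 := rfl
  have h1 : (((mkz hR a b : R) : ℂ) / ((4 : R) : ℂ)).im = (b : ℝ) / 4 := by
    rw [mkz_coe, h4]
    have : ((a : ℂ) + b * I) / 4 = (((a : ℝ) / 4 : ℝ) : ℂ) + (((b : ℝ) / 4 : ℝ) : ℂ) * I := by
      push_cast; ring
    rw [this]
    simp
  obtain ⟨k, hk⟩ : ∃ k : ℕ, (b % 4).toNat = k := ⟨_, rfl⟩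
  have hb : b = 4 * (b / 4) + k := by
    have := Int.emod_nonneg b (show (4 : ℤ) ≠ 0 by norm_num)
    omega
  rw [hk]
  unfold ez
  rw [h1, Complex.I_im, hb]
  have e1 : (2 : ℂ) * Real.pi * I * (((((4 * (b / 4) + k : ℤ) : ℝ) / 4 / 1 : ℝ)) : ℂ) =
      k * (Real.pi / 2 * I) + (b / 4 : ℤ) * (2 * Real.pi * I) := by
    push_cast
    ring
  rw [e1, Complex.exp_add, Complex.exp_int_mul_two_pi_mul_I, mul_one, Complex.exp_nat_mul,
    Complex.exp_pi_div_two_mul_I]

lemma mem4 (x y : ℤ) : mkz hR x y ∈ sp (4 : R) → 4 ∣ x ∧ 4 ∣ y := by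
  rw [Ideal.mem_span_singleton']
  rintro ⟨c, hc⟩
  obtain ⟨a, b, rfl⟩ := exists_xy hR c
  have h2 := congrArg Subtype.val hc
  have h3 : ((mkz hR a b * 4 : R) : ℂ) = ((4 * a : ℤ) : ℂ) + ((4 * b : ℤ) : ℂ) * I := by
    have h4 : ((4 : R) : ℂ) = 4 := rfl
    push_cast
    rw [mkz_coe, h4]
    ring
  rw [h3, mkz_coe] at h2
  obtain ⟨h4, h5⟩ := mkz_inj h2
  exact ⟨⟨a, h4.symm⟩, ⟨b, h5.symm⟩⟩

/-- sums over a system of representatives -/
lemma sum_units4 {T : Finset R} (hT : Rp (sp (4 : R)) ⊤ T) {f : R → ℂ}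
    (hper : ∀ a b : R, a - b ∈ sp (4 : R) → f a = f b)
    (h0 : ∀ r, ¬ IsCoprime (sp r) (sp (ff hR)) → f r = 0) :
    ∑ x ∈ T, f x = ∑ j : Fin 4, (f (ii hR ^ (j : ℕ) * 1) + f (ii hR ^ (j : ℕ) * (1 + ff hR))) := by
  set vv : Fin 2 → R := ![1, 1 + ff hR] with hvv
  have v0 : vv 0 = 1 := rfl
  have v1 : vv 1 = 1 + ff hR := rfl
  have hv : ∀ u, vv u - 1 ∈ sp (ff hR) := by
    intro u
    fin_cases u
    · show vv 0 - 1 ∈ _
      rw [v0, sub_self]
      exact (sp _).zero_mem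
    · show vv 1 - 1 ∈ _
      rw [v1, add_sub_cancel_left]
      exact Ideal.mem_span_singleton_self _
  have hex : ∀ p : Fin 4 × Fin 2, ∃ x, x ∈ T ∧ ii hR ^ (p.1 : ℕ) * vv p.2 - x ∈ sp (4 : R) :=
    fun p => (hT.uni (ii hR ^ (p.1 : ℕ) * vv p.2)).exists
  choose g hg1 hg2 using hex
  have key : ∑ p : Fin 4 × Fin 2, f (ii hR ^ (p.1 : ℕ) * vv p.2) = ∑ x ∈ T, f x := by
    refine Finset.sum_of_injOn g ?_ (fun j _ => Finset.mem_coe.mpr (hg1 j)) ?_ ?_
    · rintro ⟨j, u⟩ _ ⟨k, w⟩ _ hjk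
      have h1 := (sp (4 : R)).sub_mem (hg2 (j, u)) (hg2 (k, w))
      rw [hjk, sub_sub_sub_cancel_right] at h1
      simp only at h1
      have h1f := mem_four_ff hR h1
      have h2 : ii hR ^ (j : ℕ) - ii hR ^ (k : ℕ) ∈ sp (ff hR) := by
        have h3 := (sp (ff hR)).sub_mem h1f ((sp (ff hR)).sub_mem
          ((sp (ff hR)).mul_mem_left (ii hR ^ (j : ℕ)) (hv u))
          ((sp (ff hR)).mul_mem_left (ii hR ^ (k : ℕ)) (hv w)))
        convert h3 using 1
        ring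
      have h4 : ii hR ^ (((j : ℕ) + (4 - (k : ℕ))) % 4) - 1 ∈ sp (ff hR) := by
        have h5 := (sp (ff hR)).mul_mem_left (ii hR ^ (4 - (k : ℕ))) h2
        rw [← ii_pow_mod]
        convert h5 using 1
        rw [mul_sub, ← pow_add, ← pow_add, add_comm, show 4 - (k : ℕ) + (k : ℕ) = 4 by
          have := k.2; omega, ii4]
      have h5 := ii_pow_eq hR (Nat.mod_lt _ (by norm_num)) h4
      have hjk' : j = k := by
        apply Fin.ext
        have := j.2
        have := k.2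
        omega
      subst hjk'
      have h6 : vv u - vv w ∈ sp (4 : R) := by
        have h7 := (sp (4 : R)).mul_mem_left (ii hR ^ (4 - (j : ℕ))) h1
        have h8 : ii hR ^ (4 - (j : ℕ)) * ii hR ^ (j : ℕ) = 1 := by
          rw [← pow_add, show 4 - (j : ℕ) + (j : ℕ) = 4 by have := j.2; omega, ii4]
        convert h7 using 1
        linear_combination (-(vv u - vv w)) * h8
      have hnf : ff hR ∉ sp (4 : R) := by
        have e : ff hR = mkz hR 2 2 := by unfold ff mkz; push_cast; ring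
        rw [e]
        intro h
        have := mem4 hR _ _ h
        omega
      have huw : u = w := by
        fin_cases u <;> fin_cases w
        · rfl
        · exfalso
          apply hnf
          have h9 : vv 0 - vv 1 ∈ sp (4 : R) := h6
          rw [v0, v1] at h9
          have := (sp (4 : R)).neg_mem h9
          convert this using 1
          ring
        · exfalso
          apply hnf
          have h9 : vv 1 - vv 0 ∈ sp (4 : R) := h6
          rw [v0, v1] at h9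
          convert h9 using 1
          ring
        · rfl
      rw [huw]
    · intro x hx hxr
      by_contra hf
      have hc : IsCoprime (sp (x : R)) (sp (ff hR)) := by
        by_contra h
        exact hf (h0 _ h)
      obtain ⟨j, hj, hj2⟩ := cop_unit hR hc
      have hj3 := hj2
      rw [Ideal.mem_span_singleton'] at hj3
      obtain ⟨c, hc2⟩ := hj3
      obtain ⟨a, b, rfl⟩ := exists_xy hR c
      obtain ⟨u, hu⟩ : ∃ u : Fin 2, ii hR ^ j * x - vv u ∈ sp (4 : R) := by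
        have hx1 : ii hR ^ j * x = 1 + mkz hR a b * ff hR := by linear_combination -hc2
        rcases Int.emod_two_eq_zero_or_one (a + b) with hab | hab
        · obtain ⟨t, ht⟩ : ∃ t, a = 2 * t - b := ⟨(a + b) / 2, by omega⟩
          refine ⟨0, ?_⟩
          rw [v0, hx1, Ideal.mem_span_singleton', ht]
          refine ⟨mkz hR (t - b) t, ?_⟩
          unfold mkz ff
          push_cast
          linear_combination (-2 * (b : R)) * ii_sq hR
        · obtain ⟨t, ht⟩ : ∃ t, a = 2 * t + 1 - b := ⟨(a + b) / 2, by omega⟩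
          refine ⟨1, ?_⟩
          rw [v1, hx1, Ideal.mem_span_singleton', ht]
          refine ⟨mkz hR (t - b) t, ?_⟩
          unfold mkz ff
          push_cast
          linear_combination (-2 * (b : R)) * ii_sq hR
      apply hxr
      refine ⟨(⟨(4 - j) % 4, Nat.mod_lt _ (by norm_num)⟩, u), by simp, ?_⟩
      refine (hT.uni (ii hR ^ ((4 - j) % 4) * vv u)).unique
        ⟨hg1 _, hg2 (⟨(4 - j) % 4, Nat.mod_lt _ (by norm_num)⟩, u)⟩ ⟨hx, ?_⟩
      have h1 := (sp (4 : R)).mul_mem_left (-(ii hR ^ (4 - j))) hu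
      rw [← ii_pow_mod]
      convert h1 using 1
      have h4 : ii hR ^ (4 - j) * ii hR ^ j = 1 := by
        rw [← pow_add, show 4 - j + j = 4 by omega, ii4]
      linear_combination x * h4
    · intro j _
      exact hper _ _ (hg2 j)
  rw [← key, Fintype.sum_prod_type]
  refine Finset.sum_congr rfl fun j _ => ?_
  rw [Fin.sum_univ_two, v0, v1]

include hR in
/-- the value of the Gauss sum -/
theorem Wc_negI (hbasic : H_BASIC) (hfp : H_FP) {k e : ℕ} (he : e = 2 * k + 1)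
    {T : Finset R} (hT : Rp (sp (4 : R)) ⊤ T) :
    Wc I (e + 1) (sp (4 : R)) ⊤ 4 T (tI hR (2 * e + 1) ∅) = -1 := by
  have hch : ∀ α : R, ch (∅ : Finset R) α = 1 := fun α => Finset.prod_empty
  have h0 := hc_tI hR hbasic (2 * e + 1) ∅ (by simp) (by
    intro p hp
    simp at hp)
  have hd1 : dd (∅ : Finset R) = 1 := Finset.prod_empty
  rw [hd1, mul_one] at h0
  obtain ⟨b1, b2, b3, b4, b5, b6, b7, -, -⟩ := hbasic R I (qr hR)
  have hqt : sp (4 : R) ≠ ⊤ := fun h => one_notMem hR (mem_four_ff hR (by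
    rw [h]; exact Submodule.mem_top))
  obtain ⟨f1, f2, f3, f4, f5⟩ := hfp R I (qr hR) (2 * e + 1) (sp (4 : R)) _ h0 hqt
  have h4c : ((4 : R) : ℂ) = 4 := rfl
  have hnm : nm (sp (4 : R)) = 16 := by
    rw [b5, h4c, Complex.normSq_apply]
    simp
    norm_num
  have hff1 : (1 + ff hR) - 1 ∈ sp (ff hR) := by
    rw [add_sub_cancel_left]
    exact Ideal.mem_span_singleton_self _
  have hk1 : kI (1 + ff hR) = -1 := by
    rw [kI_eq hR hbasic (x := 1) (y := 0) (by rw [← mkz_one, mul_one])]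
    rw [if_neg (by decide)]
  have hk0 := kI_one hR hbasic
  have htop : tI hR (2 * e + 1) ∅ ⊤ = 1 := by
    have h2 : sp (1 : R) = ⊤ := Ideal.span_singleton_one
    rw [← h2, tI_gen hR _ _ (by rw [sub_self]; exact (sp _).zero_mem), hk0, hch]
    push_cast
    rw [one_pow]
    ring
  have hfj : ∀ (j : ℕ) (α : R), α - 1 ∈ sp (ff hR) →
      fp (2 * e + 1) (tI hR (2 * e + 1) ∅) (ii hR ^ j * α) = kI α / (I ^ j) ^ (2 * e + 1) := by
    intro j α hα
    have hα0 := coe_ne (((pri_iff hR α).mp hα).ne hR)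
    unfold fp
    rw [sp_ii hR j α, tI_gen hR _ _ hα, hch]
    push_cast
    rw [ii_coe, mul_pow]
    have h1 : (α : ℂ) ^ (2 * e + 1) ≠ 0 := pow_ne_zero _ hα0
    have h2 : (I ^ j) ^ (2 * e + 1) ≠ 0 := pow_ne_zero _ (pow_ne_zero _ Complex.I_ne_zero)
    field_simp
  have z0 : ez I (((ii hR ^ 0 * 1 : R) : ℂ) / ((4 : R) : ℂ)) = 1 := by
    have e1 : ii hR ^ 0 * 1 = mkz hR 1 0 := by unfold mkz; push_cast; ring
    rw [e1, ez_int]
    norm_num
  have z1 : ez I (((ii hR ^ 1 * 1 : R) : ℂ) / ((4 : R) : ℂ)) = I := by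
    have e1 : ii hR ^ 1 * 1 = mkz hR 0 1 := by unfold mkz; push_cast; ring
    rw [e1, ez_int]
    norm_num
  have z2 : ez I (((ii hR ^ 2 * 1 : R) : ℂ) / ((4 : R) : ℂ)) = 1 := by
    have e1 : ii hR ^ 2 * 1 = mkz hR (-1) 0 := by
      unfold mkz; push_cast; linear_combination (1 : R) * ii_sq hR
    rw [e1, ez_int]
    norm_num
  have z3 : ez I (((ii hR ^ 3 * 1 : R) : ℂ) / ((4 : R) : ℂ)) = -I := by
    have e1 : ii hR ^ 3 * 1 = mkz hR 0 (-1) := by
      unfold mkz; push_cast; linear_combination (ii hR) * ii_sq hR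
    rw [e1, ez_int]
    have : ((-1 : ℤ) % 4).toNat = 3 := by decide
    rw [this, Complex.I_pow_three]
  have w0 : ez I (((ii hR ^ 0 * (1 + ff hR) : R) : ℂ) / ((4 : R) : ℂ)) = -1 := by
    have e1 : ii hR ^ 0 * (1 + ff hR) = mkz hR 3 2 := by unfold mkz ff; push_cast; ring
    rw [e1, ez_int]
    have : ((2 : ℤ) % 4).toNat = 2 := by decide
    rw [this, Complex.I_sq]
  have w1 : ez I (((ii hR ^ 1 * (1 + ff hR) : R) : ℂ) / ((4 : R) : ℂ)) = -I := by
    have e1 : ii hR ^ 1 * (1 + ff hR) = mkz hR (-2) 3 := by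
      unfold mkz ff; push_cast; linear_combination (2 : R) * ii_sq hR
    rw [e1, ez_int]
    have : ((3 : ℤ) % 4).toNat = 3 := by decide
    rw [this, Complex.I_pow_three]
  have w2 : ez I (((ii hR ^ 2 * (1 + ff hR) : R) : ℂ) / ((4 : R) : ℂ)) = -1 := by
    have e1 : ii hR ^ 2 * (1 + ff hR) = mkz hR (-3) (-2) := by
      unfold mkz ff; push_cast; linear_combination (3 + 2 * ii hR) * ii_sq hR
    rw [e1, ez_int]
    have : ((-2 : ℤ) % 4).toNat = 2 := by decide
    rw [this, Complex.I_sq]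
  have w3 : ez I (((ii hR ^ 3 * (1 + ff hR) : R) : ℂ) / ((4 : R) : ℂ)) = I := by
    have e1 : ii hR ^ 3 * (1 + ff hR) = mkz hR 2 (-3) := by
      unfold mkz ff; push_cast; linear_combination (3 * ii hR + 2 * ii hR ^ 2 - 2) * ii_sq hR
    rw [e1, ez_int]
    have : ((-3 : ℤ) % 4).toNat = 1 := by decide
    rw [this, pow_one]
  have hIe : I ^ (2 * e + 1) = -I := by
    rw [he, show 2 * (2 * k + 1) + 1 = 4 * k + 3 by ring, pow_add, pow_mul, Complex.I_pow_four,
      one_pow, one_mul, Complex.I_pow_three]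
  have hsum : gT I (2 * e + 1) (tI hR (2 * e + 1) ∅) 4 T = -4 := by
    unfold gT
    rw [sum_units4 hR hT (f := fun x => fp (2 * e + 1) (tI hR (2 * e + 1) ∅) x *
      ez I ((x : ℂ) / ((4 : R) : ℂ)))]
    · have h10 : (1 : R) - 1 ∈ sp (ff hR) := by rw [sub_self]; exact (sp _).zero_mem
      rw [Fin.sum_univ_four]
      have f0 : ((0 : Fin 4) : ℕ) = 0 := rfl
      have f1 : ((1 : Fin 4) : ℕ) = 1 := rfl
      have f2 : ((2 : Fin 4) : ℕ) = 2 := rfl
      have f3 : ((3 : Fin 4) : ℕ) = 3 := rfl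
      rw [f0, f1, f2, f3]
      rw [hfj 0 1 h10, hfj 1 1 h10, hfj 2 1 h10, hfj 3 1 h10, hfj 0 _ hff1, hfj 1 _ hff1,
        hfj 2 _ hff1, hfj 3 _ hff1, z0, z1, z2, z3, w0, w1, w2, w3, hk0, hk1]
      have p0 : (I ^ 0) ^ (2 * e + 1) = 1 := by rw [pow_zero, one_pow]
      have p1 : (I ^ 1) ^ (2 * e + 1) = -I := by rw [pow_one, hIe]
      have p2 : (I ^ 2) ^ (2 * e + 1) = -1 := by
        rw [Complex.I_sq]
        exact Odd.neg_one_pow ⟨e, rfl⟩
      have p3 : (I ^ 3) ^ (2 * e + 1) = I := by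
        rw [← pow_mul, mul_comm 3, pow_mul, hIe]
        linear_combination (-I) * Complex.I_sq
      rw [p0, p1, p2, p3]
      have hI := Complex.I_ne_zero
      field_simp
      linear_combination (0 : ℂ) * Complex.I_sq
    · intro a b hab
      rw [f5 a b hab, ez_per4 hR hab]
    · intro r hr
      rw [(f3 r).mpr (fun h => hr ((cop_four hR _).mp h)), zero_mul]
  unfold Wc
  rw [show 2 * (e + 1) - 1 = 2 * e + 1 by omega, hsum, htop, hnm, h4c, mul_one]
  push_cast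
  have h16 : (16 : ℂ) ^ (e + 1) = 4 * 4 ^ (2 * e + 1) := by
    rw [show (16 : ℂ) = 4 ^ 2 by norm_num, ← pow_mul]
    ring
  rw [h16, div_eq_iff (mul_ne_zero (by norm_num) (pow_ne_zero _ (by norm_num)))]
  ring

include hR in
/-- **the vanishing of the base value** -/
theorem Df_zero (hbasic : H_BASIC) (hfp : H_FP) (hcnt : H_CNT) (hdec : H_DEC) (hafe : H_AFE)
    {L : PeriodPair} {Ω q : ℂ} (hL : IsLat L R Ω) (hCM : CM L)
    (hq : ∀ l ∈ L.lattice, eta L l = 0 * l + q * (starRingEnd ℂ) l) (k : ℕ) :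
    Df L q (uu Ω) (2 * k + 1) (Ω / 4) = 0 := by
  classical
  set e := 2 * k + 1 with he
  by_contra hne
  obtain ⟨b1, b2, b3, b4, b5, b6, b7, -, -⟩ := hbasic R I (qr hR)
  have hch : ∀ α : R, ch (∅ : Finset R) α = 1 := fun α => Finset.prod_empty
  have h0 := hc_tI hR hbasic (2 * e + 1) ∅ (by simp) (by
    intro p hp
    simp at hp)
  have hd1 : dd (∅ : Finset R) = 1 := Finset.prod_empty
  rw [hd1] at h0
  have hP1 : Pri (1 : R) := (pri_iff hR 1).mp (by rw [sub_self]; exact (sp _).zero_mem)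
  have hfin : Finite (R ⧸ sp (1 : R)) := b1 _ (by
    rw [Ne, Ideal.span_singleton_eq_bot]
    exact one_ne_zero)
  have := Fintype.ofFinite (R ⧸ sp (1 : R))
  obtain ⟨F, hF1, hF2, hF3⟩ := nonvanI hR hbasic hfp hcnt hdec hafe hL hCM hq hP1
    (e := e) h0 (χ := fun _ => 1)
    (fun r hr => by rw [tI_gen hR _ _ hr, hch]) (fun r s _ => rfl) (fun r s => rfl) one_ne_zero (by
      unfold Ts
      rw [rs_eq]
      have h1 : ∀ w : R ⧸ sp (1 : R), (((1 : ℤ)) : ℂ) * Dx L q Ω 1 e 1 w.out =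
          Df L q (uu Ω) e (Ω / 4) := by
        intro w
        rw [Int.cast_one, one_mul, Dx_mem hR hL hCM hq e hP1]
        show w.out ∈ Ideal.span {(1 : R)}
        rw [Ideal.span_singleton_one]
        exact Submodule.mem_top
      rw [Finset.sum_congr rfl (fun w _ => h1 w), Finset.sum_const, Finset.card_univ,
        nsmul_eq_mul]
      refine mul_ne_zero ?_ hne
      exact_mod_cast Fintype.card_ne_zero)
  rw [mul_one] at h0
  have := b1 (sp (4 : R)) (by rw [Ne, Ideal.span_singleton_eq_bot]; exact four_ne')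
  have := Fintype.ofFinite (R ⧸ sp (4 : R))
  obtain ⟨T, hS⟩ := sys_one hR (four_ne' (R := R))
  obtain ⟨G, hG1, hG2, hG3⟩ := hafe R I (qr hR) (e + 1) (Nat.succ_le_succ (Nat.zero_le _))
    (sp (4 : R)) (tI hR (2 * e + 1) ∅) h0 {⊤} ⊤ 4 T hS
  have hFG : F = G := uni_entire hR hF1 hG1 hF2 hG2
  apply hF3
  rw [hFG]
  have hnm : nm (sp (4 : R)) = 16 := by
    have h4c : ((4 : R) : ℂ) = 4 := rfl
    rw [b5, h4c, Complex.normSq_apply]
    simp
    norm_num
  have hpi := Real.pi_pos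
  have h1 := hG3 (4 / Real.pi) (4 / Real.pi) (by positivity) (by positivity)
    (by
      rw [hnm, Complex.I_im]
      field_simp
      norm_num)
  rw [Wc_negI hR hbasic hfp he hS.rp] at h1
  have h2 : ∑' J : Ideal R, (starRingEnd ℂ) (tI hR (2 * e + 1) ∅ J) / (nm J : ℂ) ^ (e + 1) *
      (Vk (e + 1) (nm J / (4 / Real.pi)) : ℂ) =
      ∑' J : Ideal R, tI hR (2 * e + 1) ∅ J / (nm J : ℂ) ^ (e + 1) *
      (Vk (e + 1) (nm J / (4 / Real.pi)) : ℂ) := by
    rw [← real_sumI hR, Complex.conj_tsum]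
    refine tsum_congr fun J => ?_
    rw [map_mul, map_div₀, map_pow, Complex.conj_ofReal, Complex.conj_ofReal]
  rw [h2] at h1
  rw [h1]
  ring

end Pool.Agent.Helper26K9.XI
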