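import Pool.Agent.Helper26K9.XI.Pt
import Pool.Agent.Helper26K9.XO.Est

/-!
# The values at the points `Ω / 4 + Q`, modulo the maximal ideal
-/

set_option autoImplicit false
set_option linter.unusedSectionVars false
set_option linter.unusedSimpArgs false

open scoped PeriodPair

namespace Pool.Agent.Helper26K9.XI

open H667R3 Pool.Agent.TH936.CW MvPolynomial Pool.Agent.Y690.NV
open Pool.Agent.Y690.AW (H2 sl tr N1 two_lt v_j v_one_add_j)
open Pool.Agent.Helper26K9.XO (N1_inv rho_ne lt_pow le_mul_of v_add_le v_add_lt v_mul_le N1_eta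
  N1_sig)
open Complex (I)

section val

variable {Γ : Type*} [LinearOrderedCommGroupWithZero Γ] {v : Valuation ℂ Γ} {ρ : ℂ}
  (hρ : ρ ^ 4 = 2) (hr : v ρ < 1)

include hρ hr in
lemma N1_I : N1 v I := by
  have h2 := two_lt hρ hr
  have hI : v (1 + I) < 1 := v_one_add_j h2 Complex.I_sq
  unfold Pool.Agent.Y690.AW.N1
  have e : I - 1 = I * (1 + I) := by linear_combination -Complex.I_sq
  rw [e, map_mul, v_j Complex.I_sq, one_mul]
  exact hI

include hρ hr in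
lemma N1_negI : N1 v (-I) := (N1_I hρ hr).neg (two_lt hρ hr)

include hρ hr in
lemma N1_r1 : N1 v ((1 + I) / ρ ^ 2) := by
  have h2 := two_lt hρ hr
  refine Pool.Agent.Y690.AW.N1.of_sq h2 ?_
  have e : ((1 + I) / ρ ^ 2) ^ 2 = I := by
    have h4 : (ρ ^ 2) ^ 2 = 2 := by rw [← hρ]; ring
    rw [div_pow, h4]
    linear_combination (1 / 2 : ℂ) * Complex.I_sq
  rw [e]
  exact N1_I hρ hr

include hρ hr in
lemma N1_r2 : N1 v ((1 - I) / ρ ^ 2) := by
  have h2 := two_lt hρ hr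
  refine Pool.Agent.Y690.AW.N1.of_sq h2 ?_
  have e : ((1 - I) / ρ ^ 2) ^ 2 = -I := by
    have h4 : (ρ ^ 2) ^ 2 = 2 := by rw [← hρ]; ring
    rw [div_pow, h4]
    linear_combination (1 / 2 : ℂ) * Complex.I_sq
  rw [e]
  exact N1_negI hρ hr

/-- the properties of the evaluation point -/
structure ND (v : Valuation ℂ Γ) (ρ : ℂ) (w : Fin 4 → ℂ) : Prop where
  a : N1 v (ρ ^ 2 * w 0)
  s : N1 v (w 1)
  e : w 2 = 0
  b : N1 v (ρ ^ 2 / 2 * w 3)
  r : w 1 ^ 4 - w 3 ^ 2 = 1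

lemma two_eq (hρ : ρ ^ 4 = 2) : ρ ^ 2 / 2 = 1 / ρ ^ 2 := by
  have h0 := rho_ne hρ
  rw [div_eq_div_iff two_ne_zero (pow_ne_zero _ h0), ← hρ]
  ring

include hρ hr in
lemma N1_wp' {L : PeriodPair} (hL : CM L) (g2 : L.g₂ = -1) {y : ℂ} (hy : y ∉ L.lattice)
    (hX : v (ρ ^ 2 * (℘[L] y - 1 / 2)) < 1) : N1 v (℘'[L] y) := by
  have h2 := two_lt hρ hr
  have hc := curve hL g2 hy
  unfold Xi at hc
  refine Pool.Agent.Y690.AW.N1.of_sq h2 ?_
  unfold Pool.Agent.Y690.AW.N1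
  set x : ℂ := ρ ^ 2 * (℘[L] y - 1 / 2) with hx
  have e1 : 2 * ℘[L] y = 1 + ρ ^ 2 * x := by
    rw [hx]
    linear_combination (-(℘[L] y - 1 / 2)) * hρ
  have e : ℘'[L] y ^ 2 - 1 = x * (ρ ^ 2 * x ^ 2 + 3 * x + ρ ^ 6) := by
    rw [e1] at hc
    have h3 : (2 : ℂ) * (℘'[L] y ^ 2 - 1) = 2 * (x * (ρ ^ 2 * x ^ 2 + 3 * x + ρ ^ 6)) := by
      linear_combination hc + (ρ ^ 2 * x ^ 3 + 3 * x ^ 2 - 2 * ρ ^ 2 * x) * hρ
    exact mul_left_cancel₀ two_ne_zero h3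
  rw [e, map_mul]
  refine mul_lt_one_of_lt_of_le hX ?_
  have hρ1 : ∀ k : ℕ, v (ρ ^ k) ≤ 1 := fun k => by rw [map_pow]; exact pow_le_one' hr.le k
  have h31 : v (3 : ℂ) ≤ 1 := by exact_mod_cast v_nat v 3
  refine v_add_le (v_add_le ?_ ?_) (hρ1 6)
  · exact v_mul_le (hρ1 2) (by rw [map_pow]; exact pow_le_one' hX.le 2)
  · exact v_mul_le h31 hX.le

include hρ hr in
theorem nd_of {L : PeriodPair} {q : ℂ} (hL : CM L) (g2 : L.g₂ = -1) {u z y : ℂ}
    (h : H2 L q u 0) (hz : 2 * z ∉ L.lattice)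
    (hy : (1 + I) * z = I * y) (hX : v (ρ ^ 2 * (℘[L] y - 1 / 2)) < 1)
    (hE : N1 v (2 * E1 L 0 q y)) : ND v ρ (pi4 L q z) := by
  have h2 := two_lt hρ hr
  have hρ0 := rho_ne hρ
  obtain ⟨c1, c2, c3⟩ := coords (q := q) hL g2 hz hy
  have hyn : y ∉ L.lattice := by
    intro hyl
    apply (oneI_notMem hL hz).1
    rw [hy]
    exact hL _ hyl
  have hyp := N1_wp' hρ hr hL g2 hyn hX
  have hs : N1 v (sl L 0 z) := by
    refine Pool.Agent.Y690.AW.N1.of_sq h2 ?_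
    rw [c1]
    refine (N1_negI hρ hr).mul ?_
    have e1 : Xi L y = 1 + ρ ^ 2 * (ρ ^ 2 * (℘[L] y - 1 / 2)) := by
      unfold Xi
      linear_combination (-(℘[L] y - 1 / 2)) * hρ
    rw [e1]
    refine Pool.Agent.Y690.AW.N1.one.add ?_
    rw [map_mul, mul_comm]
    refine mul_lt_one_of_lt_of_le hX ?_
    rw [map_pow]
    exact pow_le_one' hr.le 2
  refine ⟨?_, hs, rfl, ?_, pi_rel h hL g2 hz⟩
  · show N1 v (ρ ^ 2 * (2 * E1 L 0 q z + sl L 0 z))
    rw [c2]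
    have e : ρ ^ 2 * ((1 - I) * E1 L 0 q y) = (1 - I) / ρ ^ 2 * (2 * E1 L 0 q y) := by
      have := two_eq hρ
      have e2 : ρ ^ 2 * ((1 - I) * E1 L 0 q y) = (ρ ^ 2 / 2) * ((1 - I) * (2 * E1 L 0 q y)) := by
        ring
      rw [e2, this]
      ring
    rw [e]
    exact (N1_r2 hρ hr).mul hE
  · show N1 v (ρ ^ 2 / 2 * (2 * ℘[L] z - sl L 0 z ^ 2))
    have hs0 : sl L 0 z ≠ 0 := by
      intro h0
      have := hs.val
      rw [h0, map_zero] at this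
      exact zero_ne_one this
    have e : ρ ^ 2 / 2 * (2 * ℘[L] z - sl L 0 z ^ 2) =
        -((1 + I) / ρ ^ 2 * ℘'[L] y) * (sl L 0 z)⁻¹ := by
      have e3 : 2 * ℘[L] z - sl L 0 z ^ 2 = -(1 + I) * ℘'[L] y * (sl L 0 z)⁻¹ := by
        rw [← c3]
        field_simp
      rw [e3, two_eq hρ]
      ring
    rw [e]
    exact ((((N1_r1 hρ hr).mul hyp).neg h2).mul (N1_inv hs))

/-! ### the evaluation of the scaled polynomials -/

/-- the evaluation -/
noncomputable def ev5 (ρ : ℂ) (w : Fin 4 → ℂ) : Z5 →+* ℂ := (eval w).comp (κ5 ρ)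

lemma ev5_a (w : Fin 4 → ℂ) : ev5 ρ w za = ρ ^ 2 * w 0 := by
  unfold ev5
  rw [RingHom.comp_apply, κ_a, map_mul, eval_C, ev_E]

lemma ev5_s (w : Fin 4 → ℂ) : ev5 ρ w zs = w 1 := by
  unfold ev5
  rw [RingHom.comp_apply, κ_s, ev_s]

lemma ev5_f (w : Fin 4 → ℂ) : ev5 ρ w zf = 1 / 2 * w 2 := by
  unfold ev5
  rw [RingHom.comp_apply, κ_f, map_mul, eval_C, ev_e]

lemma ev5_b (w : Fin 4 → ℂ) : ev5 ρ w zb = ρ ^ 2 / 2 * w 3 := by
  unfold ev5
  rw [RingHom.comp_apply, κ_b, map_mul, eval_C, ev_w]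

lemma ev5_g {w : Fin 4 → ℂ} (h : ND v ρ w) : ev5 ρ w zg = -1 / 3 := by
  unfold ev5
  rw [RingHom.comp_apply, κ_g, map_mul, eval_C, ev_G, h.e]
  linear_combination (-1 / 3) * h.r

include hρ in
lemma ev5_r (w : Fin 4 → ℂ) : ev5 ρ w zr = 0 := by
  unfold ev5
  rw [RingHom.comp_apply, κ_r hρ, map_zero]

/-- the residues -/
noncomputable def c5 : Fin 5 → ℤ := ![1, 1, 0, 1, 1]

include hρ hr in
lemma ev5_res {w : Fin 4 → ℂ} (h : ND v ρ w) (p : Z5) :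
    v (ev5 ρ w p - ((eval c5 p : ℤ) : ℂ)) < 1 := by
  have h2 := two_lt hρ hr
  induction p using MvPolynomial.induction_on with
  | C a =>
    have : ev5 ρ w (C a) = (a : ℂ) := by
      unfold ev5 κ5
      rw [RingHom.comp_apply, eval₂Hom_C]
      simp
    rw [this, eval_C, sub_self, map_zero]
    exact zero_lt_one
  | add p q hp hq =>
    rw [map_add, map_add]
    push_cast
    have e : ev5 ρ w p + ev5 ρ w q - (((eval c5 p : ℤ) : ℂ) + ((eval c5 q : ℤ) : ℂ)) =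
        (ev5 ρ w p - ((eval c5 p : ℤ) : ℂ)) + (ev5 ρ w q - ((eval c5 q : ℤ) : ℂ)) := by ring
    rw [e]
    exact v_add_lt hp hq
  | mul_X p i hp =>
    have hle : v (ev5 ρ w p) ≤ 1 := by
      have e : ev5 ρ w p = (ev5 ρ w p - ((eval c5 p : ℤ) : ℂ)) + ((eval c5 p : ℤ) : ℂ) := by ring
      rw [e]
      exact v_add_le hp.le (v_int v _)
    have hi : v (ev5 ρ w (X i) - ((eval c5 (X i) : ℤ) : ℂ)) < 1 := by
      rw [eval_X]
      fin_cases i
      · show v (ev5 ρ w za - ((1 : ℤ) : ℂ)) < 1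
        rw [ev5_a, Int.cast_one]
        exact h.a
      · show v (ev5 ρ w zs - ((1 : ℤ) : ℂ)) < 1
        rw [ev5_s, Int.cast_one]
        exact h.s
      · show v (ev5 ρ w zf - ((0 : ℤ) : ℂ)) < 1
        rw [ev5_f, h.e, Int.cast_zero, mul_zero, sub_zero, map_zero]
        exact zero_lt_one
      · show v (ev5 ρ w zb - ((1 : ℤ) : ℂ)) < 1
        rw [ev5_b, Int.cast_one]
        exact h.b
      · show v (ev5 ρ w zg - ((1 : ℤ) : ℂ)) < 1
        rw [ev5_g h, Int.cast_one]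
        have e : (-1 / 3 : ℂ) - 1 = -(2 * (2 / 3)) := by norm_num
        have v3 : v (3 : ℂ) = 1 := by
          have := v_odd v h2 (n := 3) (by decide)
          exact_mod_cast this
        rw [e, Valuation.map_neg, map_mul, map_div₀, v3, div_one]
        exact mul_lt_one_of_lt_of_le h2 h2.le
    rw [map_mul, map_mul]
    push_cast
    have e : ev5 ρ w p * ev5 ρ w (X i) - ((eval c5 p : ℤ) : ℂ) * ((eval c5 (X i) : ℤ) : ℂ) =
        ev5 ρ w p * (ev5 ρ w (X i) - ((eval c5 (X i) : ℤ) : ℂ)) +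
        (ev5 ρ w p - ((eval c5 p : ℤ) : ℂ)) * ((eval c5 (X i) : ℤ) : ℂ) := by ring
    rw [e]
    refine v_add_lt ?_ ?_
    · rw [map_mul, mul_comm]
      exact mul_lt_one_of_lt_of_le hi hle
    · rw [map_mul]
      exact mul_lt_one_of_lt_of_le hp (v_int v _)

include hρ hr in
lemma ev5_le {w : Fin 4 → ℂ} (h : ND v ρ w) (p : Z5) : v (ev5 ρ w p) ≤ 1 := by
  have e : ev5 ρ w p = (ev5 ρ w p - ((eval c5 p : ℤ) : ℂ)) + ((eval c5 p : ℤ) : ℂ) := by ring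
  rw [e]
  exact v_add_le (ev5_res hρ hr h p).le (v_int v _)

include hρ hr in
lemma N1_of_odd {w : Fin 4 → ℂ} (h : ND v ρ w) {p : Z5} {m : ℤ} (hm : eval c5 p = 2 * m + 1) :
    N1 v (ev5 ρ w p) := by
  have h1 := ev5_res hρ hr h p
  unfold Pool.Agent.Y690.AW.N1
  have e : ev5 ρ w p - 1 = (ev5 ρ w p - ((eval c5 p : ℤ) : ℂ)) + 2 * (m : ℂ) := by
    rw [hm]
    push_cast
    ring
  rw [e]
  refine v_add_lt h1 ?_
  rw [map_mul]
  exact mul_lt_one_of_lt_of_le (two_lt hρ hr) (v_int v m)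

lemma c5_a : eval c5 za = 1 := by unfold za; rw [eval_X]; rfl
lemma c5_s : eval c5 zs = 1 := by unfold zs; rw [eval_X]; rfl
lemma c5_f : eval c5 zf = 0 := by unfold zf; rw [eval_X]; rfl
lemma c5_b : eval c5 zb = 1 := by unfold zb; rw [eval_X]; rfl
lemma c5_g : eval c5 zg = 1 := by unfold zg; rw [eval_X]; rfl
lemma c5_r : eval c5 zr = 2 := by
  unfold zr
  simp only [map_add, map_sub, map_mul, map_pow, map_ofNat, c5_s, c5_f, c5_b, c5_g]
  norm_num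

include hρ hr in
theorem even_one {w : Fin 4 → ℂ} (h : ND v ρ w) (k : ℕ) : N1 v (ev5 ρ w (Hs (2 * k))) := by
  obtain ⟨-, -, u, hu⟩ := St_all k
  obtain ⟨a, b, hab⟩ := mem_JJ.mp hu
  have h1 := congrArg (eval c5) hab
  simp only [map_add, map_sub, map_mul, map_pow, map_ofNat, c5_s, c5_a, c5_g, c5_r] at h1
  refine N1_of_odd hρ hr h (m := eval c5 a + eval c5 b + eval c5 u - 1) ?_
  rw [one_pow, one_pow, one_mul] at h1
  linear_combination -h1

end val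

end Pool.Agent.Helper26K9.XI
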